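import Pool.Agent.SXS.Defs

/-!
# SXS-Tr: transfer to `Fin n` with unused vertices

The group acts on `V ⊕ (A × Fin r)`, on the second part by left multiplication; this set has `n` elements and the
edges are transported by an injective map.
-/

set_option autoImplicit false

namespace Pool.Agent.SXS

open Finset Pool.Agent.RSV

/-- the action with unused vertices -/
private def act {A V : Type*} [Group A] (φ : A →* Equiv.Perm V) (r : ℕ) : A →* Equiv.Perm (V ⊕ (A × Fin r)) :=
  MonoidHom.mk' (fun g => Equiv.sumCongr (φ g) (Equiv.prodCongr (Equiv.mulLeft g) (Equiv.refl _))) (by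
    intro a b
    apply Equiv.ext
    rintro (v | ⟨c, i⟩)
    · show Sum.inl (φ (a * b) v) = Sum.inl (φ a (φ b v))
      rw [map_mul, Equiv.Perm.mul_apply]
    · show Sum.inr ((a * b) * c, i) = Sum.inr (a * (b * c), i)
      rw [mul_assoc])

private theorem act_inl {A V : Type*} [Group A] (φ : A →* Equiv.Perm V) (r : ℕ) (g : A) (v : V) :
    act φ r g (Sum.inl v) = Sum.inl (φ g v) := rfl

private theorem act_free {A V : Type*} [Group A] {φ : A →* Equiv.Perm V} (hF : Free φ) (r : ℕ) {g : A}
    (hg : g ≠ 1) (w : V ⊕ (A × Fin r)) : act φ r g w ≠ w := by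
  rcases w with v | ⟨c, i⟩
  · intro h
    exact hF g hg v (Sum.inl_injective h)
  · intro h
    have h1 : ((g * c, i) : A × Fin r) = (c, i) := Sum.inr_injective h
    have h2 : g * c = 1 * c := by
      rw [one_mul]
      exact (Prod.mk.inj h1).1
    exact hg (mul_right_cancel h2)

theorem transfer {A : Type*} [Fintype A] [Group A] {V : Type*} [Fintype V] [DecidableEq V]
    {H : Finset (Finset V)} (h3 : Three H) (hN : NoTri H) {φ : A →* Equiv.Perm V}
    (hA : Auts H φ) (hF : Free φ) {n : ℕ} (hn : Fintype.card V ≤ n)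
    (hd : Fintype.card A ∣ n - Fintype.card V) :
    ∃ (H' : Finset (Finset (Fin n))) (ψ : A →* Equiv.Perm (Fin n)),
      Three H' ∧ NoTri H' ∧ Auts H' ψ ∧ Free ψ ∧ H'.card = H.card := by
  obtain ⟨r, hr⟩ := hd
  have hcard : Fintype.card (V ⊕ (A × Fin r)) = n := by
    rw [Fintype.card_sum, Fintype.card_prod, Fintype.card_fin]
    omega
  let e : (V ⊕ (A × Fin r)) ≃ Fin n := Fintype.equivFinOfCardEq hcard
  let ψ : A →* Equiv.Perm (Fin n) := MonoidHom.mk' (fun g => e.permCongr (act φ r g)) (by
    intro a b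
    apply Equiv.ext
    intro x
    rw [Equiv.Perm.mul_apply, Equiv.permCongr_apply, Equiv.permCongr_apply, Equiv.permCongr_apply,
      Equiv.symm_apply_apply, map_mul, Equiv.Perm.mul_apply])
  have hψ : ∀ g w, ψ g (e w) = e (act φ r g w) := by
    intro g w
    show e.permCongr (act φ r g) (e w) = _
    rw [Equiv.permCongr_apply, Equiv.symm_apply_apply]
  obtain ⟨f, hf⟩ : ∃ f : V → Fin n, ∀ v, f v = e (Sum.inl v) := ⟨_, fun _ => rfl⟩
  have hinj : Function.Injective f := by
    intro v w h
    rw [hf, hf] at h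
    exact Sum.inl_injective (e.injective h)
  have himg : Function.Injective fun s : Finset V => s.image f := Finset.image_injective hinj
  refine ⟨H.image fun s => s.image f, ψ, ?_, ?_, ?_, ?_, card_image_of_injective _ himg⟩
  · intro s hs
    obtain ⟨t, ht, rfl⟩ := mem_image.1 hs
    rw [card_image_of_injective _ hinj]
    exact h3 t ht
  · intro a ha b hb c hc hab hbc hac
    obtain ⟨a, ha', rfl⟩ := mem_image.1 ha
    obtain ⟨b, hb', rfl⟩ := mem_image.1 hb
    obtain ⟨c, hc', rfl⟩ := mem_image.1 hc
    rw [← image_union, ← image_union, card_image_of_injective _ hinj]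
    exact hN a ha' b hb' c hc' (fun h => hab (by rw [h])) (fun h => hbc (by rw [h]))
      (fun h => hac (by rw [h]))
  · intro g s hs
    obtain ⟨t, ht, rfl⟩ := mem_image.1 hs
    refine mem_image.2 ⟨t.image (φ g), hA g t ht, ?_⟩
    rw [image_image, image_image]
    refine image_congr fun v _ => ?_
    show f (φ g v) = ψ g (f v)
    rw [hf, hf, hψ, act_inl]
  · intro g hg x h
    obtain ⟨w, rfl⟩ := e.surjective x
    rw [hψ] at h
    exact act_free hF r hg w (e.injective h)

end Pool.Agent.SXS
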