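import Pool.Agent.SXS.CWD

/-!
# SXS-MatB: progression-free sets in `ℤ/M`, and matchings

Behrend sets in `range ((M + 1) / 2)` reduced modulo `M`; products of matchings.
-/

set_option autoImplicit false

namespace Pool.Agent.SXS

open Finset Real

private theorem half_exp {M : ℕ} (hM : 2 ≤ M) : exp (-√(log M)) ≤ 1 / 2 := by
  have h2 : (2 : ℝ) ≤ M := by exact_mod_cast hM
  have hl2 : 0 ≤ log 2 := log_nonneg (by norm_num)
  have hl21 : log 2 ≤ 1 := by
    have := log_le_sub_one_of_pos (show (0 : ℝ) < 2 by norm_num)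
    linarith
  have h1 : log 2 ≤ √(log M) := by
    refine le_trans ?_ (Real.sqrt_le_sqrt (log_le_log (by norm_num) h2))
    rw [Real.le_sqrt hl2 hl2]
    nlinarith
  calc exp (-√(log M)) ≤ exp (-log 2) := exp_le_exp.2 (by linarith)
    _ = 1 / 2 := by rw [Real.exp_neg, Real.exp_log (by norm_num)]; norm_num

theorem exists_apf : ∃ C > (0 : ℝ), ∀ (M : ℕ) [NeZero M], ∃ B : Finset (ZMod M), APF B ∧
    (M : ℝ) * exp (-C * √(log M)) ≤ B.card := by
  refine ⟨5, by norm_num, fun M hM => ?_⟩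
  have hM0 : M ≠ 0 := NeZero.ne M
  obtain ⟨T, hT1, hT2, hT3⟩ := rothNumberNat_spec ((M + 1) / 2)
  have hlt : ∀ a ∈ T, a < (M + 1) / 2 := fun a ha => Finset.mem_range.1 (hT1 ha)
  refine ⟨T.image (fun x : ℕ => (x : ZMod M)), ?_, ?_⟩
  · intro a ha b hb c hc h
    obtain ⟨a, ka, rfl⟩ := Finset.mem_image.1 ha
    obtain ⟨b, kb, rfl⟩ := Finset.mem_image.1 hb
    obtain ⟨c, kc, rfl⟩ := Finset.mem_image.1 hc
    have h1 := hlt a ka
    have h2 := hlt b kb
    have h3 := hlt c kc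
    have h4 : ((a + b : ℕ) : ZMod M) = ((c + c : ℕ) : ZMod M) := by
      push_cast
      exact h
    rw [ZMod.natCast_eq_natCast_iff', Nat.mod_eq_of_lt (by omega), Nat.mod_eq_of_lt (by omega)] at h4
    have h5 : a = c := hT3 (Finset.mem_coe.2 ka) (Finset.mem_coe.2 kc) (Finset.mem_coe.2 kb) h4
    have h6 : b = c := by omega
    rw [h5, h6]
    exact ⟨rfl, rfl⟩
  · have hcard : (T.image (fun x : ℕ => (x : ZMod M))).card = T.card := by
      refine Finset.card_image_of_injOn ?_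
      intro a ha b hb hab
      have h1 := hlt a (Finset.mem_coe.1 ha)
      have h2 := hlt b (Finset.mem_coe.1 hb)
      have h3 : (a : ZMod M) = (b : ZMod M) := hab
      rwa [ZMod.natCast_eq_natCast_iff', Nat.mod_eq_of_lt (by omega), Nat.mod_eq_of_lt (by omega)] at h3
    rw [hcard, hT2]
    refine le_trans ?_ Behrend.roth_lower_bound
    by_cases hM1 : M = 1
    · subst hM1
      norm_num
    · have hM2 : 2 ≤ M := by omega
      have hMr : (2 : ℝ) ≤ M := by exact_mod_cast hM2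
      have hN : (M : ℝ) / 2 ≤ (((M + 1) / 2 : ℕ) : ℝ) := by
        have h1 : M ≤ 2 * ((M + 1) / 2) := by omega
        have h2 : (M : ℝ) ≤ 2 * (((M + 1) / 2 : ℕ) : ℝ) := by exact_mod_cast h1
        linarith
      have hN' : (((M + 1) / 2 : ℕ) : ℝ) ≤ M := by
        have h1 : (M + 1) / 2 ≤ M := by omega
        exact_mod_cast h1
      have hN0 : (0 : ℝ) < (((M + 1) / 2 : ℕ) : ℝ) := by linarith
      have h1 : √(log (((M + 1) / 2 : ℕ) : ℝ)) ≤ √(log M) := Real.sqrt_le_sqrt (log_le_log hN0 hN')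
      have h2 : exp (-4 * √(log M)) ≤ exp (-4 * √(log (((M + 1) / 2 : ℕ) : ℝ))) := exp_le_exp.2 (by linarith)
      have h3 : exp (-5 * √(log M)) = exp (-√(log M)) * exp (-4 * √(log M)) := by
        rw [← Real.exp_add]
        congr 1
        ring
      have h4 := half_exp hM2
      have h5 : 0 < exp (-4 * √(log M)) := exp_pos _
      calc (M : ℝ) * exp (-5 * √(log M)) = (M : ℝ) * exp (-√(log M)) * exp (-4 * √(log M)) := by rw [h3]; ring
        _ ≤ (M : ℝ) / 2 * exp (-4 * √(log M)) := by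
            refine mul_le_mul_of_nonneg_right ?_ h5.le
            nlinarith
        _ ≤ (((M + 1) / 2 : ℕ) : ℝ) * exp (-4 * √(log (((M + 1) / 2 : ℕ) : ℝ))) :=
            mul_le_mul hN h2 h5.le hN0.le

theorem mat_of_apf {G : Type*} [Add G] [DecidableEq G] {B : Finset G} (hB : APF B) :
    ∃ S : Finset (G × G), Mat S ∧ S.card = B.card := by
  refine ⟨B.image (fun b => (b, b)), ?_, ?_⟩
  · intro a ha b hb c hc h
    obtain ⟨a, ka, rfl⟩ := Finset.mem_image.1 ha
    obtain ⟨b, kb, rfl⟩ := Finset.mem_image.1 hb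
    obtain ⟨c, kc, rfl⟩ := Finset.mem_image.1 hc
    obtain ⟨h1, h2⟩ := hB a ka b kb c kc h
    rw [h1, h2]
    exact ⟨rfl, rfl⟩
  · refine Finset.card_image_of_injective _ ?_
    intro a b h
    exact congrArg Prod.fst h

theorem mat_prod {G1 G2 : Type*} [Add G1] [Add G2] [DecidableEq G1] [DecidableEq G2]
    {S1 : Finset (G1 × G1)} {S2 : Finset (G2 × G2)} (h1 : Mat S1) (h2 : Mat S2) :
    ∃ S : Finset ((G1 × G2) × (G1 × G2)), Mat S ∧ S.card = S1.card * S2.card := by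
  refine ⟨(S1 ×ˢ S2).image (fun x => ((x.1.1, x.2.1), (x.1.2, x.2.2))), ?_, ?_⟩
  · intro a ha b hb c hc h
    obtain ⟨a, ka, rfl⟩ := Finset.mem_image.1 ha
    obtain ⟨b, kb, rfl⟩ := Finset.mem_image.1 hb
    obtain ⟨c, kc, rfl⟩ := Finset.mem_image.1 hc
    rw [Finset.mem_product] at ka kb kc
    have e1 : a.1.1 + b.1.2 = c.1.1 + c.1.2 := congrArg Prod.fst h
    have e2 : a.2.1 + b.2.2 = c.2.1 + c.2.2 := congrArg Prod.snd h
    obtain ⟨k1, k2⟩ := h1 _ ka.1 _ kb.1 _ kc.1 e1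
    obtain ⟨k3, k4⟩ := h2 _ ka.2 _ kb.2 _ kc.2 e2
    have k5 : a = c := Prod.ext k1 k3
    have k6 : b = c := Prod.ext k2 k4
    rw [k5, k6]
    exact ⟨rfl, rfl⟩
  · rw [← Finset.card_product]
    refine Finset.card_image_of_injective _ ?_
    intro a b h
    have e1 : (a.1.1, a.2.1) = (b.1.1, b.2.1) := congrArg Prod.fst h
    have e2 : (a.1.2, a.2.2) = (b.1.2, b.2.2) := congrArg Prod.snd h
    have e3 : a.1.1 = b.1.1 := (Prod.mk.inj e1).1
    have e4 : a.2.1 = b.2.1 := (Prod.mk.inj e1).2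
    have e5 : a.1.2 = b.1.2 := (Prod.mk.inj e2).1
    have e6 : a.2.2 = b.2.2 := (Prod.mk.inj e2).2
    exact Prod.ext (Prod.ext e3 e5) (Prod.ext e4 e6)

theorem mat_pi {r : ℕ} {G : Fin r → Type*} [∀ i, Add (G i)] [∀ i, DecidableEq (G i)]
    {S : ∀ i, Finset (G i × G i)} (h : ∀ i, Mat (S i)) :
    ∃ T : Finset ((∀ i, G i) × (∀ i, G i)), Mat T ∧ T.card = ∏ i, (S i).card := by
  refine ⟨(Fintype.piFinset S).image (fun f => (fun i => (f i).1, fun i => (f i).2)), ?_, ?_⟩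
  · intro a ha b hb c hc hh
    obtain ⟨a, ka, rfl⟩ := Finset.mem_image.1 ha
    obtain ⟨b, kb, rfl⟩ := Finset.mem_image.1 hb
    obtain ⟨c, kc, rfl⟩ := Finset.mem_image.1 hc
    rw [Fintype.mem_piFinset] at ka kb kc
    have e : ∀ i, a i = c i ∧ b i = c i := fun i => h i _ (ka i) _ (kb i) _ (kc i) (congrFun hh i)
    have k1 : a = c := funext fun i => (e i).1
    have k2 : b = c := funext fun i => (e i).2
    rw [k1, k2]
    exact ⟨rfl, rfl⟩
  · rw [← Fintype.card_piFinset]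
    refine Finset.card_image_of_injective _ ?_
    intro a b hab
    funext i
    exact Prod.ext (congrFun (congrArg Prod.fst hab) i) (congrFun (congrArg Prod.snd hab) i)

end Pool.Agent.SXS
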