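import Pool.Agent.SXS.Defs

/-!
# SXS-Bin: a lower bound for `(3m).choose m`

Induction on `m`: `(m+1)(2m+2)(2m+1) binom(3m+3, m+1) = (3m+3)(3m+2)(3m+1) binom(3m, m)`.
-/

set_option autoImplicit false

namespace Pool.Agent.SXS

open Finset

private theorem choose_rec (m : ℕ) :
    (3 * (m + 1)).choose (m + 1) * ((m + 1) * ((2 * m + 2) * (2 * m + 1))) =
      (3 * m).choose m * ((3 * m + 3) * ((3 * m + 2) * (3 * m + 1))) := by
  have h1 : (3 * m).choose m * m.factorial * (2 * m).factorial = (3 * m).factorial := by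
    have h := Nat.choose_mul_factorial_mul_factorial (show m ≤ 3 * m by omega)
    rwa [show 3 * m - m = 2 * m by omega] at h
  have h2 : (3 * (m + 1)).choose (m + 1) * (m + 1).factorial * (2 * m + 2).factorial =
      (3 * (m + 1)).factorial := by
    have h := Nat.choose_mul_factorial_mul_factorial (show m + 1 ≤ 3 * (m + 1) by omega)
    rwa [show 3 * (m + 1) - (m + 1) = 2 * m + 2 by omega] at h
  have h3 : (3 * (m + 1)).factorial = (3 * m + 3) * ((3 * m + 2) * ((3 * m + 1) * (3 * m).factorial)) := by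
    rw [show 3 * (m + 1) = 3 * m + 2 + 1 by ring, Nat.factorial_succ, Nat.factorial_succ,
      Nat.factorial_succ]
  have h4 : (2 * m + 2).factorial = (2 * m + 2) * ((2 * m + 1) * (2 * m).factorial) := by
    rw [Nat.factorial_succ, Nat.factorial_succ]
  rw [h3, h4, Nat.factorial_succ m, ← h1] at h2
  have hpos : 0 < m.factorial * (2 * m).factorial :=
    Nat.mul_pos (Nat.factorial_pos _) (Nat.factorial_pos _)
  refine Nat.eq_of_mul_eq_mul_right hpos ?_
  linear_combination h2

theorem choose_three_ge (m : ℕ) :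
    (27 / 4 : ℝ) ^ m ≤ (3 * m + 1) * ((3 * m).choose m : ℝ) := by
  induction m with
  | zero => simp
  | succ m ih =>
    have h1 : ((3 * (m + 1)).choose (m + 1) : ℝ) * ((m + 1) * ((2 * m + 2) * (2 * m + 1))) =
        ((3 * m).choose m : ℝ) * ((3 * m + 3) * ((3 * m + 2) * (3 * m + 1))) := by
      exact_mod_cast choose_rec m
    have hm : (0 : ℝ) ≤ m := Nat.cast_nonneg m
    have hc : (0 : ℝ) ≤ ((3 * m).choose m : ℝ) := Nat.cast_nonneg _
    have hp : (0 : ℝ) < (m + 1) * ((2 * m + 2) * (2 * m + 1)) := by positivity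
    have h2 : ((3 * (m + 1)).choose (m + 1) : ℝ) =
        ((3 * m).choose m : ℝ) * ((3 * m + 3) * ((3 * m + 2) * (3 * m + 1))) /
          ((m + 1) * ((2 * m + 2) * (2 * m + 1))) := by
      rw [eq_div_iff hp.ne', h1]
    have h3 : (27 / 4 : ℝ) ^ (m + 1) ≤ (27 / 4) * ((3 * m + 1) * ((3 * m).choose m : ℝ)) := by
      rw [pow_succ, mul_comm]
      exact mul_le_mul_of_nonneg_left ih (by norm_num)
    refine h3.trans ?_
    rw [h2, mul_div_assoc', le_div_iff₀ hp]
    push_cast
    have h4 : (27 / 4 : ℝ) * (3 * m + 1) * ((m + 1) * ((2 * m + 2) * (2 * m + 1))) ≤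
        (3 * (m + 1) + 1) * ((3 * m + 3) * ((3 * m + 2) * (3 * m + 1))) := by
      nlinarith [mul_nonneg hm hm, mul_nonneg (mul_nonneg hm hm) hm,
        mul_nonneg (mul_nonneg hm hm) (mul_nonneg hm hm)]
    nlinarith [mul_le_mul_of_nonneg_left h4 hc]

end Pool.Agent.SXS
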