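import Pool.Agent.SXS.Defs

/-!
# SXS-BldA: the hypergraph of a matching
-/

set_option autoImplicit false

namespace Pool.Agent.SXS

open Finset Pool.Agent.RSV

variable {G : Type*} [Fintype G] [DecidableEq G] [AddCommGroup G]

omit [Fintype G] in
private def ed (g : G) (a : G × G) : Finset (G × Fin 3) :=
  {(g, 0), (g + a.1, 1), (g + (a.1 + a.2), 2)}

private theorem mem_hyp3 {S : Finset (G × G)} {e : Finset (G × Fin 3)} :
    e ∈ hyp3 S ↔ ∃ g, ∃ a ∈ S, ed g a = e := by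
  unfold hyp3
  rw [mem_image]
  constructor
  · rintro ⟨w, hw, rfl⟩
    rw [mem_product] at hw
    exact ⟨w.1, w.2, hw.2, rfl⟩
  · rintro ⟨g, a, ha, rfl⟩
    exact ⟨(g, a), mem_product.2 ⟨mem_univ _, ha⟩, rfl⟩

omit [Fintype G] in
private theorem mem_ed {g : G} {a : G × G} {v : G × Fin 3} :
    v ∈ ed g a ↔ v = (g, 0) ∨ v = (g + a.1, 1) ∨ v = (g + (a.1 + a.2), 2) := by
  unfold ed
  rw [mem_insert, mem_insert, mem_singleton]

omit [Fintype G] in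
private theorem ed0 {g x : G} {a : G × G} : (x, (0 : Fin 3)) ∈ ed g a ↔ x = g := by
  rw [mem_ed]
  constructor
  · rintro (h | h | h)
    · exact (Prod.mk.inj h).1
    · exact absurd (Prod.mk.inj h).2 (by decide)
    · exact absurd (Prod.mk.inj h).2 (by decide)
  · rintro rfl
    exact Or.inl rfl

omit [Fintype G] in
private theorem ed1 {g x : G} {a : G × G} : (x, (1 : Fin 3)) ∈ ed g a ↔ x = g + a.1 := by
  rw [mem_ed]
  constructor
  · rintro (h | h | h)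
    · exact absurd (Prod.mk.inj h).2 (by decide)
    · exact (Prod.mk.inj h).1
    · exact absurd (Prod.mk.inj h).2 (by decide)
  · rintro rfl
    exact Or.inr (Or.inl rfl)

omit [Fintype G] in
private theorem ed2 {g x : G} {a : G × G} : (x, (2 : Fin 3)) ∈ ed g a ↔ x = g + (a.1 + a.2) := by
  rw [mem_ed]
  constructor
  · rintro (h | h | h)
    · exact absurd (Prod.mk.inj h).2 (by decide)
    · exact absurd (Prod.mk.inj h).2 (by decide)
    · exact (Prod.mk.inj h).1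
  · rintro rfl
    exact Or.inr (Or.inr rfl)

omit [Fintype G] in
/-- two vertices of an edge with the same colour are equal -/
private theorem ed_col {g : G} {a : G × G} {v w : G × Fin 3} (hv : v ∈ ed g a) (hw : w ∈ ed g a)
    (h : v.2 = w.2) : v = w := by
  rw [mem_ed] at hv hw
  have h01 : (0 : Fin 3) ≠ 1 := by decide
  have h02 : (0 : Fin 3) ≠ 2 := by decide
  have h12 : (1 : Fin 3) ≠ 2 := by decide
  rcases hv with rfl | rfl | rfl
  · rcases hw with rfl | rfl | rfl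
    · rfl
    · exact absurd h h01
    · exact absurd h h02
  · rcases hw with rfl | rfl | rfl
    · exact absurd h h01.symm
    · rfl
    · exact absurd h h12
  · rcases hw with rfl | rfl | rfl
    · exact absurd h h02.symm
    · exact absurd h h12.symm
    · rfl

omit [Fintype G] in
private theorem ed_ex (g : G) (a : G × G) (i : Fin 3) : ∃ v ∈ ed g a, v.2 = i := by
  have h1 : i = 0 ∨ i = 1 ∨ i = 2 := by
    revert i
    decide
  rcases h1 with rfl | rfl | rfl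
  · exact ⟨_, ed0.2 rfl, rfl⟩
  · exact ⟨_, ed1.2 rfl, rfl⟩
  · exact ⟨_, ed2.2 rfl, rfl⟩

omit [Fintype G] in
private theorem ed_inj {g h : G} {a b : G × G} (he : ed g a = ed h b) : g = h ∧ a = b := by
  have h0 : (g, (0 : Fin 3)) ∈ ed h b := by
    rw [← he]
    exact ed0.2 rfl
  have h1 : (g + a.1, (1 : Fin 3)) ∈ ed h b := by
    rw [← he]
    exact ed1.2 rfl
  have h2 : (g + (a.1 + a.2), (2 : Fin 3)) ∈ ed h b := by
    rw [← he]
    exact ed2.2 rfl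
  rw [ed0] at h0
  rw [ed1, h0] at h1
  rw [ed2, h0] at h2
  have h3 := add_left_cancel h1
  have h4 := add_left_cancel h2
  rw [h3] at h4
  exact ⟨h0, Prod.ext h3 (add_left_cancel h4)⟩

theorem hyp3_three (S : Finset (G × G)) : Three (hyp3 S) := by
  intro e he
  obtain ⟨g, a, -, rfl⟩ := mem_hyp3.1 he
  rw [card_eq_three]
  refine ⟨(g, 0), (g + a.1, 1), (g + (a.1 + a.2), 2), ?_, ?_, ?_, rfl⟩
  · intro h
    exact absurd (Prod.mk.inj h).2 (by decide)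
  · intro h
    exact absurd (Prod.mk.inj h).2 (by decide)
  · intro h
    exact absurd (Prod.mk.inj h).2 (by decide)

theorem hyp3_card (S : Finset (G × G)) : (hyp3 S).card = Fintype.card G * S.card := by
  unfold hyp3
  rw [card_image_of_injective, card_product, card_univ]
  intro w w' h
  have h1 : ed w.1 w.2 = ed w'.1 w'.2 := h
  obtain ⟨h2, h3⟩ := ed_inj h1
  exact Prod.ext h2 h3

theorem hyp3_inv (S : Finset (G × G)) (h : G) {e : Finset (G × Fin 3)} (he : e ∈ hyp3 S) :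
    e.image (fun v => (v.1 + h, v.2)) ∈ hyp3 S := by
  obtain ⟨g, a, ha, rfl⟩ := mem_hyp3.1 he
  refine mem_hyp3.2 ⟨g + h, a, ha, ?_⟩
  unfold ed
  rw [image_insert, image_insert, image_singleton, add_right_comm g h a.1, add_right_comm g h]

private theorem star {S : Finset (G × G)} (hS : Mat S) {x y z : G} {e1 e2 e3 : Finset (G × Fin 3)}
    (h1 : e1 ∈ hyp3 S) (h2 : e2 ∈ hyp3 S) (h3 : e3 ∈ hyp3 S) (p1 : (x, (0 : Fin 3)) ∈ e1)
    (p2 : (y, (1 : Fin 3)) ∈ e1) (p3 : (y, (1 : Fin 3)) ∈ e2) (p4 : (z, (2 : Fin 3)) ∈ e2)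
    (p5 : (x, (0 : Fin 3)) ∈ e3) (p6 : (z, (2 : Fin 3)) ∈ e3) : e1 = e2 ∧ e2 = e3 := by
  obtain ⟨g1, a1, ha1, rfl⟩ := mem_hyp3.1 h1
  obtain ⟨g2, a2, ha2, rfl⟩ := mem_hyp3.1 h2
  obtain ⟨g3, a3, ha3, rfl⟩ := mem_hyp3.1 h3
  rw [ed0] at p1 p5
  rw [ed1] at p2 p3
  rw [ed2] at p4 p6
  have h4 : a1.1 + a2.2 = a3.1 + a3.2 := by
    have h5 : x + (a1.1 + a2.2) = x + (a3.1 + a3.2) := by
      have h6 : x + (a3.1 + a3.2) = z := by rw [p6, p5]
      have h7 : x + (a1.1 + a2.2) = z := by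
        rw [p4, ← add_assoc, ← add_assoc, ← p3, p1, ← p2]
      rw [h6, h7]
    exact add_left_cancel h5
  obtain ⟨rfl, h5⟩ := hS a1 ha1 a2 ha2 a3 ha3 h4
  subst h5
  have h6 : g1 = g2 := by
    have h7 : g1 + a2.1 = g2 + a2.1 := by rw [← p2, ← p3]
    exact add_right_cancel h7
  have h7 : g1 = g3 := by rw [← p1, ← p5]
  rw [← h7, ← h6]
  exact ⟨rfl, rfl⟩

private theorem tri {S : Finset (G × G)} (hS : Mat S) {p q s : G × Fin 3} {e1 e2 e3 : Finset (G × Fin 3)}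
    (h1 : e1 ∈ hyp3 S) (h2 : e2 ∈ hyp3 S) (h3 : e3 ∈ hyp3 S) (p1 : p ∈ e1) (p2 : q ∈ e1) (p3 : q ∈ e2)
    (p4 : s ∈ e2) (p5 : p ∈ e3) (p6 : s ∈ e3) (c1 : p.2 ≠ q.2) (c2 : q.2 ≠ s.2) (c3 : p.2 ≠ s.2) :
    e1 = e2 ∧ e2 = e3 := by
  obtain ⟨p, i⟩ := p
  obtain ⟨q, j⟩ := q
  obtain ⟨s, k⟩ := s
  have c1' : i ≠ j := c1
  have c2' : j ≠ k := c2
  have c3' : i ≠ k := c3
  have key : ∀ i j k : Fin 3, i ≠ j → j ≠ k → i ≠ k → (i = 0 ∧ j = 1 ∧ k = 2) ∨ (i = 0 ∧ j = 2 ∧ k = 1) ∨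
      (i = 1 ∧ j = 0 ∧ k = 2) ∨ (i = 1 ∧ j = 2 ∧ k = 0) ∨ (i = 2 ∧ j = 0 ∧ k = 1) ∨ (i = 2 ∧ j = 1 ∧ k = 0) := by
    decide
  rcases key i j k c1' c2' c3' with ⟨rfl, rfl, rfl⟩ | ⟨rfl, rfl, rfl⟩ | ⟨rfl, rfl, rfl⟩ | ⟨rfl, rfl, rfl⟩ |
    ⟨rfl, rfl, rfl⟩ | ⟨rfl, rfl, rfl⟩
  · exact star hS h1 h2 h3 p1 p2 p3 p4 p5 p6
  · obtain ⟨h4, h5⟩ := star hS h3 h2 h1 p5 p6 p4 p3 p1 p2
    exact ⟨h5.symm, h4.symm⟩
  · obtain ⟨h4, h5⟩ := star hS h1 h3 h2 p2 p1 p5 p6 p3 p4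
    exact ⟨h4.trans h5, h5.symm⟩
  · obtain ⟨h4, h5⟩ := star hS h3 h1 h2 p6 p5 p1 p2 p4 p3
    exact ⟨h5, h5.symm.trans h4.symm⟩
  · obtain ⟨h4, h5⟩ := star hS h2 h3 h1 p3 p4 p6 p5 p2 p1
    exact ⟨h5.symm.trans h4.symm, h4⟩
  · obtain ⟨h4, h5⟩ := star hS h2 h1 h3 p4 p3 p2 p1 p6 p5
    exact ⟨h4.symm, h4.trans h5⟩

theorem hyp3_noTri {S : Finset (G × G)} (hS : Mat S) : NoTri (hyp3 S) := by
  have hcol : ∀ e ∈ hyp3 S, ∀ p ∈ e, ∀ q ∈ e, p ≠ q → p.2 ≠ q.2 := by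
    intro e he p hp q hq hpq h
    obtain ⟨g, a, -, rfl⟩ := mem_hyp3.1 he
    exact hpq (ed_col hp hq h)
  refine noTri_of_linear (hyp3_three S) ?_ ?_
  · intro e he f hf hef
    by_contra hcon
    rw [not_le, one_lt_card_iff] at hcon
    obtain ⟨p, q, hp, hq, hpq⟩ := hcon
    rw [mem_inter] at hp hq
    have hc := hcol e he p hp.1 q hq.1 hpq
    obtain ⟨g, a, -, hfe⟩ := mem_hyp3.1 hf
    obtain ⟨k, hk1, hk2⟩ : ∃ k : Fin 3, p.2 ≠ k ∧ q.2 ≠ k := by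
      have key : ∀ i j : Fin 3, ∃ k, i ≠ k ∧ j ≠ k := by decide
      exact key _ _
    obtain ⟨s, hs, hsk⟩ := ed_ex g a k
    rw [hfe] at hs
    exact hef (tri hS he hf hf hp.1 hq.1 hq.2 hs hp.2 hs hc (by rw [hsk]; exact hk2) (by rw [hsk]; exact hk1)).1
  · intro e he f hf g hg p q s hpq hqs hps hpe hpf hqf hqg hse hsg hef hfg heg
    exact hfg (tri hS hf hg he hpf hqf hqg hsg hpe hse (hcol f hf p hpf q hqf hpq) (hcol g hg q hqg s hsg hqs)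
      (hcol e he p hpe s hse hps)).1

end Pool.Agent.SXS
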