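import Pool.Agent.SXS.BldA
import Pool.Agent.SXS.Tr

/-!
# SXS-BldB: from a matching in `ℤ/M × A` to a 3-graph on `n` vertices with a free action of `A`
-/

set_option autoImplicit false

namespace Pool.Agent.SXS

open Finset Pool.Agent.RSV

private theorem add_z {A : Type*} [AddCommGroup A] {M : ℕ} (v : ZMod M × A) (x y : A) :
    v + (0, x) + (0, y) = v + (0, x + y) := by
  rw [add_assoc]
  refine congrArg (fun w => v + w) (Prod.ext ?_ rfl)
  exact add_zero _

/-- translations of the first coordinate by elements of `A` -/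
private def trA (A : Type*) [AddCommGroup A] (M : ℕ) :
    Multiplicative A →* Equiv.Perm ((ZMod M × A) × Fin 3) :=
  MonoidHom.mk' (fun a =>
    { toFun := fun v => (v.1 + (0, a.toAdd), v.2)
      invFun := fun v => (v.1 + (0, -a.toAdd), v.2)
      left_inv := fun v => by
        refine Prod.ext ?_ rfl
        show v.1 + (0, a.toAdd) + (0, -a.toAdd) = v.1
        rw [add_z, add_neg_cancel]
        exact add_zero _
      right_inv := fun v => by
        refine Prod.ext ?_ rfl
        show v.1 + (0, -a.toAdd) + (0, a.toAdd) = v.1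
        rw [add_z, neg_add_cancel]
        exact add_zero _ })
    (fun a b => by
      refine Equiv.ext fun v => Prod.ext ?_ rfl
      show v.1 + (0, (a * b).toAdd) = v.1 + (0, b.toAdd) + (0, a.toAdd)
      rw [add_z, toAdd_mul, add_comm b.toAdd])

private theorem trA_apply {A : Type*} [AddCommGroup A] {M : ℕ} (a : Multiplicative A)
    (v : (ZMod M × A) × Fin 3) : trA A M a v = (v.1 + (0, a.toAdd), v.2) := rfl

theorem build {A : Type*} [AddCommGroup A] [Fintype A] [DecidableEq A] {M n : ℕ} [NeZero M]
    (hd : Fintype.card A ∣ n) (hn : 3 * (M * Fintype.card A) ≤ n)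
    {S : Finset ((ZMod M × A) × (ZMod M × A))} (hS : Mat S) :
    ∃ (H : Finset (Finset (Fin n))) (φ : Multiplicative A →* Equiv.Perm (Fin n)),
      Three H ∧ SixThree H ∧ Auts H φ ∧ Free φ ∧ H.card = M * Fintype.card A * S.card := by
  have hc : Fintype.card ((ZMod M × A) × Fin 3) = 3 * (M * Fintype.card A) := by
    rw [Fintype.card_prod, Fintype.card_prod, ZMod.card, Fintype.card_fin, mul_comm]
  have hA : Auts (hyp3 S) (trA A M) := fun a e he => hyp3_inv S (0, a.toAdd) he
  have hF : Free (trA A M) := by
    intro a ha v hv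
    rw [trA_apply] at hv
    have h1 : v.1 + (0, a.toAdd) = v.1 := congrArg Prod.fst hv
    rw [add_eq_left] at h1
    have h2 : a.toAdd = 0 := congrArg Prod.snd h1
    exact ha (Multiplicative.toAdd.injective h2)
  obtain ⟨H', ψ, h3, hN, hAut, hFree, hcard⟩ := transfer (A := Multiplicative A) (hyp3_three S)
    (hyp3_noTri hS) hA hF (n := n) (by rw [hc]; exact hn) (by
      rw [hc, Fintype.card_multiplicative]
      refine Nat.dvd_sub hd ?_
      exact ⟨3 * M, by ring⟩)
  refine ⟨H', ψ, h3, sixThree_of_noTri hN, hAut, hFree, ?_⟩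
  rw [hcard, hyp3_card, Fintype.card_prod, ZMod.card]

end Pool.Agent.SXS
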