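import Pool.Agent.SXS.CWD

/-!
# SXS-CWA: numbers of pairs of disjoint sets

The pairs with a given first member are the `m`-sets in the complement; the solutions of the linear
equation are one of `M` fibres of the same size.
-/

set_option autoImplicit false

namespace Pool.Agent.SXS

open Finset

private theorem mem_Par {m : ℕ} {x : Finset (Fin (3 * m)) × Finset (Fin (3 * m))} :
    x ∈ Par m ↔ x.1.card = m ∧ x.2.card = m ∧ Disjoint x.1 x.2 := by
  unfold Par
  rw [Finset.mem_filter]
  exact ⟨fun h => h.2, fun h => ⟨Finset.mem_univ _, h⟩⟩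

private theorem card_co {m : ℕ} {P : Finset (Fin (3 * m))} (hP : P.card = m) : Pᶜ.card = 2 * m := by
  rw [Finset.card_compl, Fintype.card_fin, hP]
  omega

private theorem fib_one {m : ℕ} {P : Finset (Fin (3 * m))} (hP : P.card = m) :
    ((Par m).filter fun x => x.1 = P).card = (2 * m).choose m := by
  have h1 : ((Par m).filter fun x => x.1 = P) = (powersetCard m Pᶜ).image fun Q => (P, Q) := by
    ext x
    rw [Finset.mem_filter, mem_Par, Finset.mem_image]
    constructor
    · rintro ⟨⟨h1, h2, h3⟩, h4⟩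
      refine ⟨x.2, ?_, ?_⟩
      · rw [Finset.mem_powersetCard]
        refine ⟨?_, h2⟩
        rw [← h4]
        exact Finset.subset_compl_iff_disjoint_left.2 h3
      · rw [← h4]
    · rintro ⟨Q, hQ, rfl⟩
      rw [Finset.mem_powersetCard] at hQ
      exact ⟨⟨hP, hQ.2, Finset.subset_compl_iff_disjoint_left.1 hQ.1⟩, rfl⟩
  rw [h1, Finset.card_image_of_injective _ (fun Q Q' h => (Prod.mk.inj h).2), Finset.card_powersetCard, card_co hP]

theorem card_Par (m : ℕ) : (Par m).card = (3 * m).choose m * (2 * m).choose m := by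
  have h1 := Finset.card_eq_sum_card_fiberwise (f := Prod.fst) (s := Par m)
    (t := powersetCard m (univ : Finset (Fin (3 * m)))) (fun x hx => by
      rw [Finset.mem_coe, Finset.mem_powersetCard]
      exact ⟨Finset.subset_univ _, (mem_Par.1 (Finset.mem_coe.1 hx)).1⟩)
  rw [h1, Finset.sum_congr rfl fun P hP => fib_one (Finset.mem_powersetCard.1 hP).2, Finset.sum_const,
    Finset.card_powersetCard, Finset.card_univ, Fintype.card_fin, smul_eq_mul]

theorem card_share {m : ℕ} {x : Finset (Fin (3 * m)) × Finset (Fin (3 * m))} (hx : x ∈ Par m) :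
    ((Par m).filter fun y => Sh x y).card ≤ 3 * (2 * m).choose m := by
  obtain ⟨hx1, hx2, hx3⟩ := mem_Par.1 hx
  have h1 : ((Par m).filter fun y => y.1 = x.1).card ≤ (2 * m).choose m := (fib_one hx1).le
  have h2 : ((Par m).filter fun y => y.2 = x.2).card ≤ (2 * m).choose m := by
    rw [← card_co hx2, ← Finset.card_powersetCard m x.2ᶜ]
    refine Finset.card_le_card_of_injOn Prod.fst ?_ ?_
    · intro y hy
      rw [Finset.mem_coe, Finset.mem_filter, mem_Par] at hy
      rw [Finset.mem_coe, Finset.mem_powersetCard, ← hy.2]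
      exact ⟨Finset.subset_compl_iff_disjoint_right.2 hy.1.2.2, hy.1.1⟩
    · intro y hy y' hy' h
      rw [Finset.mem_coe, Finset.mem_filter] at hy hy'
      exact Prod.ext h (hy.2.trans hy'.2.symm)
  have h3 : ((Par m).filter fun y => y.1 ∪ y.2 = x.1 ∪ x.2).card ≤ (2 * m).choose m := by
    have h4 : (x.1 ∪ x.2).card = 2 * m := by
      rw [Finset.card_union_of_disjoint hx3, hx1, hx2]
      ring
    rw [← h4, ← Finset.card_powersetCard m (x.1 ∪ x.2)]
    refine Finset.card_le_card_of_injOn Prod.fst ?_ ?_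
    · intro y hy
      rw [Finset.mem_coe, Finset.mem_filter, mem_Par] at hy
      rw [Finset.mem_coe, Finset.mem_powersetCard, ← hy.2]
      exact ⟨Finset.subset_union_left, hy.1.1⟩
    · intro y hy y' hy' h
      rw [Finset.mem_coe, Finset.mem_filter, mem_Par] at hy hy'
      have e1 : y.2 = (x.1 ∪ x.2) \ y.1 := by
        rw [← hy.2, Finset.union_sdiff_left, Finset.sdiff_eq_self_of_disjoint hy.1.2.2.symm]
      have e2 : y'.2 = (x.1 ∪ x.2) \ y'.1 := by
        rw [← hy'.2, Finset.union_sdiff_left, Finset.sdiff_eq_self_of_disjoint hy'.1.2.2.symm]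
      have h' : y.1 = y'.1 := h
      exact Prod.ext h' (by rw [e1, e2, h'])
  have h4 : ((Par m).filter fun y => Sh x y) ⊆ ((Par m).filter fun y => y.1 = x.1) ∪
      (((Par m).filter fun y => y.2 = x.2) ∪ ((Par m).filter fun y => y.1 ∪ y.2 = x.1 ∪ x.2)) := by
    intro y hy
    rw [Finset.mem_filter] at hy
    rw [Finset.mem_union, Finset.mem_union, Finset.mem_filter, Finset.mem_filter, Finset.mem_filter]
    rcases hy.2 with h | h | h
    · exact Or.inl ⟨hy.1, h⟩
    · exact Or.inr (Or.inl ⟨hy.1, h⟩)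
    · exact Or.inr (Or.inr ⟨hy.1, h⟩)
  have h5 := Finset.card_le_card h4
  have h6 := Finset.card_union_le ((Par m).filter fun y => y.1 = x.1)
    (((Par m).filter fun y => y.2 = x.2) ∪ ((Par m).filter fun y => y.1 ∪ y.2 = x.1 ∪ x.2))
  have h7 := Finset.card_union_le ((Par m).filter fun y => y.2 = x.2)
    ((Par m).filter fun y => y.1 ∪ y.2 = x.1 ∪ x.2)
  omega

theorem count_w {N M : ℕ} [NeZero M] {X Y : Finset (Fin N)} (hc : X.card = Y.card) (hn : X ≠ Y) :
    (univ.filter fun w : Fin N → ZMod M => ∑ i ∈ X, w i = ∑ i ∈ Y, w i).card * M = M ^ N := by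
  obtain ⟨i, hiX, hiY⟩ : ∃ i ∈ X, i ∉ Y := by
    by_contra hcon
    push Not at hcon
    exact hn (Finset.eq_of_subset_of_card_le hcon hc.ge)
  have hshift : ∀ (w : Fin N → ZMod M) (c : ZMod M),
      (∑ j ∈ X, (w j + if j = i then c else 0)) - ∑ j ∈ Y, (w j + if j = i then c else 0) =
        (∑ j ∈ X, w j) - (∑ j ∈ Y, w j) + c := by
    intro w c
    rw [Finset.sum_add_distrib, Finset.sum_add_distrib, Finset.sum_ite_eq', Finset.sum_ite_eq', if_pos hiX,
      if_neg hiY]
    ring
  have h1 := Finset.card_eq_sum_card_fiberwise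
    (f := fun w : Fin N → ZMod M => (∑ j ∈ X, w j) - ∑ j ∈ Y, w j) (s := univ) (t := univ)
    (fun w _ => Finset.mem_coe.2 (Finset.mem_univ _))
  have h2 : ∀ c : ZMod M, (univ.filter fun w : Fin N → ZMod M => (∑ j ∈ X, w j) - ∑ j ∈ Y, w j = c).card =
      (univ.filter fun w : Fin N → ZMod M => ∑ i ∈ X, w i = ∑ i ∈ Y, w i).card := by
    intro c
    refine Finset.card_nbij' (fun w j => w j + if j = i then -c else 0) (fun w j => w j + if j = i then c else 0)
      ?_ ?_ ?_ ?_
    · intro w hw
      rw [Finset.mem_coe, Finset.mem_filter] at hw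
      rw [Finset.mem_coe, Finset.mem_filter]
      refine ⟨Finset.mem_univ _, ?_⟩
      have h3 := hshift w (-c)
      rw [hw.2, add_neg_cancel] at h3
      exact sub_eq_zero.1 h3
    · intro w hw
      rw [Finset.mem_coe, Finset.mem_filter] at hw
      rw [Finset.mem_coe, Finset.mem_filter]
      refine ⟨Finset.mem_univ _, ?_⟩
      have h3 := hshift w c
      rw [sub_eq_zero.2 hw.2, zero_add] at h3
      exact h3
    · intro w _
      funext j
      dsimp only
      split_ifs <;> ring
    · intro w _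
      funext j
      dsimp only
      split_ifs <;> ring
  rw [Finset.sum_congr rfl fun c _ => h2 c, Finset.sum_const, Finset.card_univ, Finset.card_univ, ZMod.card,
    Fintype.card_fun, ZMod.card, Fintype.card_fin, smul_eq_mul] at h1
  rw [h1, mul_comm]

end Pool.Agent.SXS
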