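import Pool.Agent.SXS.CWA

/-!
# SXS-CWB: the expected numbers of selected pairs
-/

set_option autoImplicit false

namespace Pool.Agent.SXS

open Finset

private theorem cw_mem {m M : ℕ} {B : Finset (ZMod M)} {ω : Om m M}
    {x : Finset (Fin (3 * m)) × Finset (Fin (3 * m))} : x ∈ Sel B ω ↔ x ∈ Par m ∧
      ω.2.1 + ∑ i ∈ x.1, ω.1 i ∈ B ∧ ω.2.2 + ∑ i ∈ x.2, ω.1 i = ω.2.1 + ∑ i ∈ x.1, ω.1 i := by
  unfold Sel
  rw [mem_filter]

private theorem cw_par {m : ℕ} {x : Finset (Fin (3 * m)) × Finset (Fin (3 * m))} :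
    x ∈ Par m ↔ x.1.card = m ∧ x.2.card = m ∧ Disjoint x.1 x.2 := by
  unfold Par
  rw [mem_filter]
  exact ⟨fun h => h.2, fun h => ⟨mem_univ _, h⟩⟩

private theorem cw_fib {m M : ℕ} [NeZero M] (B : Finset (ZMod M))
    (x : Finset (Fin (3 * m)) × Finset (Fin (3 * m))) :
    (univ.filter fun ω : Om m M => ω.2.1 + ∑ i ∈ x.1, ω.1 i ∈ B ∧
      ω.2.2 + ∑ i ∈ x.2, ω.1 i = ω.2.1 + ∑ i ∈ x.1, ω.1 i).card = B.card * M ^ (3 * m) := by
  have h1 : (univ.filter fun ω : Om m M => ω.2.1 + ∑ i ∈ x.1, ω.1 i ∈ B ∧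
      ω.2.2 + ∑ i ∈ x.2, ω.1 i = ω.2.1 + ∑ i ∈ x.1, ω.1 i).card =
      (B ×ˢ (univ : Finset (Fin (3 * m) → ZMod M))).card := by
    refine card_nbij' (fun ω : Om m M => (ω.2.1 + ∑ i ∈ x.1, ω.1 i, ω.1))
      (fun q : ZMod M × (Fin (3 * m) → ZMod M) => (q.2, q.1 - ∑ i ∈ x.1, q.2 i, q.1 - ∑ i ∈ x.2, q.2 i))
      ?_ ?_ ?_ ?_
    · intro ω hω
      have h2 := (mem_filter.1 (mem_coe.1 hω)).2
      exact mem_coe.2 (mem_product.2 ⟨h2.1, mem_univ _⟩)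
    · intro q hq
      have h2 := (mem_product.1 (mem_coe.1 hq)).1
      refine mem_coe.2 (mem_filter.2 ⟨mem_univ _, ?_, ?_⟩)
      · show q.1 - ∑ i ∈ x.1, q.2 i + ∑ i ∈ x.1, q.2 i ∈ B
        rw [sub_add_cancel]
        exact h2
      · show q.1 - ∑ i ∈ x.2, q.2 i + ∑ i ∈ x.2, q.2 i = q.1 - ∑ i ∈ x.1, q.2 i + ∑ i ∈ x.1, q.2 i
        rw [sub_add_cancel, sub_add_cancel]
    · intro ω hω
      have h2 := (mem_filter.1 (mem_coe.1 hω)).2
      refine Prod.ext rfl (Prod.ext ?_ ?_)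
      · show ω.2.1 + ∑ i ∈ x.1, ω.1 i - ∑ i ∈ x.1, ω.1 i = ω.2.1
        rw [add_sub_cancel_right]
      · show ω.2.1 + ∑ i ∈ x.1, ω.1 i - ∑ i ∈ x.2, ω.1 i = ω.2.2
        rw [← h2.2, add_sub_cancel_right]
    · intro q _
      refine Prod.ext ?_ rfl
      show q.1 - ∑ i ∈ x.1, q.2 i + ∑ i ∈ x.1, q.2 i = q.1
      rw [sub_add_cancel]
  rw [h1, card_product, card_univ, Fintype.card_pi_const, ZMod.card]

theorem count_one {m M : ℕ} [NeZero M] (B : Finset (ZMod M)) :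
    ∑ ω : Om m M, (Sel B ω).card = (Par m).card * B.card * M ^ (3 * m) := by
  have h1 : ∀ ω : Om m M, (Sel B ω).card = ∑ x ∈ Par m, if (ω.2.1 + ∑ i ∈ x.1, ω.1 i ∈ B ∧
      ω.2.2 + ∑ i ∈ x.2, ω.1 i = ω.2.1 + ∑ i ∈ x.1, ω.1 i) then 1 else 0 := by
    intro ω
    unfold Sel
    rw [card_filter]
  rw [sum_congr rfl fun ω _ => h1 ω, sum_comm]
  have h2 : ∀ x ∈ Par m, (∑ ω : Om m M, if (ω.2.1 + ∑ i ∈ x.1, ω.1 i ∈ B ∧
      ω.2.2 + ∑ i ∈ x.2, ω.1 i = ω.2.1 + ∑ i ∈ x.1, ω.1 i) then 1 else 0) = B.card * M ^ (3 * m) := by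
    intro x _
    rw [← card_filter]
    exact cw_fib B x
  rw [sum_congr rfl h2, sum_const, smul_eq_mul, mul_assoc]

private theorem cw_two {m M : ℕ} [NeZero M] (B : Finset (ZMod M))
    {x y : Finset (Fin (3 * m)) × Finset (Fin (3 * m))} {X Y : Finset (Fin (3 * m))} (hc : X.card = Y.card)
    (hn : X ≠ Y) (h : ∀ ω : Om m M, x ∈ Sel B ω → y ∈ Sel B ω → ∑ i ∈ X, ω.1 i = ∑ i ∈ Y, ω.1 i) :
    (univ.filter fun ω : Om m M => x ∈ Sel B ω ∧ y ∈ Sel B ω).card * M ≤ B.card * M ^ (3 * m) := by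
  have h1 : (univ.filter fun ω : Om m M => x ∈ Sel B ω ∧ y ∈ Sel B ω).card ≤
      (B ×ˢ (univ.filter fun w : Fin (3 * m) → ZMod M => ∑ i ∈ X, w i = ∑ i ∈ Y, w i)).card := by
    refine card_le_card_of_injOn (fun ω : Om m M => (ω.2.1 + ∑ i ∈ x.1, ω.1 i, ω.1)) ?_ ?_
    · intro ω hω
      obtain ⟨h2, h3⟩ := (mem_filter.1 (mem_coe.1 hω)).2
      exact mem_coe.2 (mem_product.2 ⟨(cw_mem.1 h2).2.1, mem_filter.2 ⟨mem_univ _, h ω h2 h3⟩⟩)
    · intro ω hω ω' hω' he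
      have h2 := (cw_mem.1 (mem_filter.1 (mem_coe.1 hω)).2.1).2.2
      have h3 := (cw_mem.1 (mem_filter.1 (mem_coe.1 hω')).2.1).2.2
      have h4 : ω.2.1 + ∑ i ∈ x.1, ω.1 i = ω'.2.1 + ∑ i ∈ x.1, ω'.1 i := congrArg Prod.fst he
      have h5 : ω.1 = ω'.1 := congrArg Prod.snd he
      rw [h4] at h2
      rw [← h2, h5] at h3
      rw [h5] at h4
      exact Prod.ext h5 (Prod.ext (add_right_cancel h4) (add_right_cancel h3).symm)
  rw [card_product] at h1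
  calc (univ.filter fun ω : Om m M => x ∈ Sel B ω ∧ y ∈ Sel B ω).card * M ≤
      B.card * (univ.filter fun w : Fin (3 * m) → ZMod M => ∑ i ∈ X, w i = ∑ i ∈ Y, w i).card * M :=
        Nat.mul_le_mul_right _ h1
    _ = B.card * M ^ (3 * m) := by rw [mul_assoc, count_w hc hn]

theorem count_two {m M : ℕ} [NeZero M] (hM : Odd M) (B : Finset (ZMod M))
    {x y : Finset (Fin (3 * m)) × Finset (Fin (3 * m))} (hx : x ∈ Par m) (hy : y ∈ Par m)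
    (hne : y ≠ x) (hs : Sh x y) :
    (univ.filter fun ω : Om m M => x ∈ Sel B ω ∧ y ∈ Sel B ω).card * M ≤ B.card * M ^ (3 * m) := by
  obtain ⟨x1, x2, x3⟩ := cw_par.1 hx
  obtain ⟨y1, y2, y3⟩ := cw_par.1 hy
  rcases hs with h | h | h
  · refine cw_two B (X := x.2) (Y := y.2) (x2.trans y2.symm) (fun h2 => hne (Prod.ext h h2.symm)) ?_
    intro ω hω hω'
    have h3 := (cw_mem.1 hω).2.2
    have h4 := (cw_mem.1 hω').2.2
    rw [h, ← h3] at h4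
    exact (add_left_cancel h4).symm
  · refine cw_two B (X := x.1) (Y := y.1) (x1.trans y1.symm) (fun h2 => hne (Prod.ext h2.symm h)) ?_
    intro ω hω hω'
    have h3 := (cw_mem.1 hω).2.2
    have h4 := (cw_mem.1 hω').2.2
    rw [h, h3] at h4
    exact add_left_cancel h4
  · refine cw_two B (X := x.1) (Y := y.1) (x1.trans y1.symm) (fun h2 => hne ?_) ?_
    · refine Prod.ext h2.symm ?_
      rw [← h2] at h y3
      have e1 : y.2 = (x.1 ∪ y.2) \ x.1 := (union_sdiff_cancel_left y3).symm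
      have e2 : x.2 = (x.1 ∪ x.2) \ x.1 := (union_sdiff_cancel_left x3).symm
      rw [e1, h, ← e2]
    · intro ω hω hω'
      have h3 := (cw_mem.1 hω).2.2
      have h4 := (cw_mem.1 hω').2.2
      have h5 : ∑ i ∈ x.1, ω.1 i + ∑ i ∈ x.2, ω.1 i = ∑ i ∈ y.1, ω.1 i + ∑ i ∈ y.2, ω.1 i := by
        rw [← sum_union x3, ← sum_union y3, h]
      have h6 : (2 : ZMod M) * (ω.2.1 + ∑ i ∈ x.1, ω.1 i) = 2 * (ω.2.1 + ∑ i ∈ y.1, ω.1 i) := by
        linear_combination h5 + h4 - h3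
      have h7 : IsUnit (2 : ZMod M) := by
        have h8 : IsUnit ((2 : ℕ) : ZMod M) := by
          rw [ZMod.isUnit_iff_coprime]
          exact (Nat.coprime_two_left.2 hM)
        exact_mod_cast h8
      exact add_left_cancel (h7.mul_left_cancel h6)

end Pool.Agent.SXS
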