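import Pool.Agent.SXS.CWB

/-!
# SXS-CWC: the Coppersmith-Winograd construction

PLAN. For `ω` let `Iso ω = (Sel B ω).filter (fun x => ∀ y ∈ Sel B ω, Sh x y → y = x)`. Property of `F = Iso ω`: let `x y z ∈ F`,
`Disjoint x.1 y.2`, `x.1 ∪ y.2 = z.1 ∪ z.2`; put `T = (x.1, y.2)`, `T ∈ Par m`. With `ω = (w, u, v)`: `b_x = u + ∑ x.1 w ∈ B`,
`b_y = v + ∑ y.2 w ∈ B`, `b_z = u + ∑ z.1 w = v + ∑ z.2 w ∈ B`, and `b_x + b_y = u + v + ∑ (x.1 ∪ y.2) w = 2 b_z`; `APF` gives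
`b_x = b_z = b_y`, so `T ∈ Sel B ω`. `Sh x T`, `Sh y T`, `Sh z T`, so `T = x = y = z`.
Counting: `|Sel| - |Iso| ≤` the number of pairs `(x, y) ∈ Sel × Sel`, `y ≠ x`, `Sh x y`. Sum over `ω`, exchange the sums, `count_two`, `card_share`:
`M ∑ ω (|Sel| - |Iso|) ≤ |Par| * 3 (2m).choose m * |B| * M^(3m) ≤ (M / 2) |Par| |B| M^(3m)`; with `count_one`:
`2 ∑ ω, |Iso ω| ≥ |Par| |B| M^(3m)`. There are `M^(3m+2)` many `ω`, so some `ω` has `2 M² |Iso ω| ≥ |Par| |B|` (otherwise sum up); `card_Par`.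
-/

set_option autoImplicit false

namespace Pool.Agent.SXS

open Finset

private def Iso {m M : ℕ} (B : Finset (ZMod M)) (ω : Om m M) :
    Finset (Finset (Fin (3 * m)) × Finset (Fin (3 * m))) :=
  (Sel B ω).filter fun x => ∀ y ∈ Sel B ω, Sh x y → y = x

private def Bad {m M : ℕ} (B : Finset (ZMod M)) (ω : Om m M) :
    Finset ((Finset (Fin (3 * m)) × Finset (Fin (3 * m))) ×
      (Finset (Fin (3 * m)) × Finset (Fin (3 * m)))) :=
  ((Sel B ω) ×ˢ (Sel B ω)).filter fun z => z.2 ≠ z.1 ∧ Sh z.1 z.2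

private theorem mem_Par {m : ℕ} {x : Finset (Fin (3 * m)) × Finset (Fin (3 * m))} :
    x ∈ Par m ↔ x.1.card = m ∧ x.2.card = m ∧ Disjoint x.1 x.2 := by
  unfold Par; simp

private theorem mem_Sel {m M : ℕ} {B : Finset (ZMod M)} {ω : Om m M}
    {x : Finset (Fin (3 * m)) × Finset (Fin (3 * m))} :
    x ∈ Sel B ω ↔ x ∈ Par m ∧ ω.2.1 + ∑ i ∈ x.1, ω.1 i ∈ B ∧
      ω.2.2 + ∑ i ∈ x.2, ω.1 i = ω.2.1 + ∑ i ∈ x.1, ω.1 i := by
  unfold Sel; simp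

private theorem iso_prop {m M : ℕ} {B : Finset (ZMod M)} (hB : APF B) (ω : Om m M) :
    ∀ x ∈ Iso B ω, ∀ y ∈ Iso B ω, ∀ z ∈ Iso B ω, Disjoint x.1 y.2 → x.1 ∪ y.2 = z.1 ∪ z.2 →
      x = z ∧ y = z := by
  intro x hx y hy z hz hd hu
  obtain ⟨hxS, hxI⟩ := mem_filter.1 hx
  obtain ⟨hyS, hyI⟩ := mem_filter.1 hy
  obtain ⟨hzS, hzI⟩ := mem_filter.1 hz
  obtain ⟨hxP, hxB, hxe⟩ := mem_Sel.1 hxS
  obtain ⟨hyP, hyB, hye⟩ := mem_Sel.1 hyS
  obtain ⟨hzP, hzB, hze⟩ := mem_Sel.1 hzS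
  have hs1 : ∑ i ∈ x.1, ω.1 i + ∑ i ∈ y.2, ω.1 i = ∑ i ∈ z.1, ω.1 i + ∑ i ∈ z.2, ω.1 i := by
    rw [← sum_union hd, ← sum_union (mem_Par.1 hzP).2.2, hu]
  have hap : (ω.2.1 + ∑ i ∈ x.1, ω.1 i) + (ω.2.1 + ∑ i ∈ y.1, ω.1 i) =
      (ω.2.1 + ∑ i ∈ z.1, ω.1 i) + (ω.2.1 + ∑ i ∈ z.1, ω.1 i) := by
    have e1 : ω.2.1 + ∑ i ∈ y.1, ω.1 i = ω.2.2 + ∑ i ∈ y.2, ω.1 i := hye.symm
    rw [e1]
    have e2 : (ω.2.1 + ∑ i ∈ z.1, ω.1 i) + (ω.2.1 + ∑ i ∈ z.1, ω.1 i) =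
        (ω.2.1 + ∑ i ∈ z.1, ω.1 i) + (ω.2.2 + ∑ i ∈ z.2, ω.1 i) := by rw [hze]
    rw [e2]
    linear_combination hs1
  obtain ⟨h1, h2⟩ := hB _ hxB _ hyB _ hzB hap
  have hT : ((x.1, y.2) : Finset (Fin (3 * m)) × Finset (Fin (3 * m))) ∈ Sel B ω := by
    rw [mem_Sel]
    refine ⟨mem_Par.2 ⟨(mem_Par.1 hxP).1, (mem_Par.1 hyP).2.1, hd⟩, hxB, ?_⟩
    show ω.2.2 + ∑ i ∈ y.2, ω.1 i = ω.2.1 + ∑ i ∈ x.1, ω.1 i
    rw [hye, h2, h1]
  have k1 := hxI _ hT (Or.inl rfl)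
  have k2 := hyI _ hT (Or.inr (Or.inl rfl))
  have k3 := hzI _ hT (Or.inr (Or.inr hu))
  exact ⟨k1.symm.trans k3, k2.symm.trans k3⟩

private theorem card_le_iso {m M : ℕ} (B : Finset (ZMod M)) (ω : Om m M) :
    (Sel B ω).card ≤ (Iso B ω).card + (Bad B ω).card := by
  have h1 : Sel B ω ⊆ Iso B ω ∪ (Bad B ω).image Prod.fst := by
    intro x hx
    by_cases hI : ∀ y ∈ Sel B ω, Sh x y → y = x
    · exact mem_union_left _ (mem_filter.2 ⟨hx, hI⟩)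
    · push Not at hI
      obtain ⟨y, hy, hs, hne⟩ := hI
      exact mem_union_right _ (mem_image.2 ⟨(x, y), mem_filter.2
        ⟨mem_product.2 ⟨hx, hy⟩, hne, hs⟩, rfl⟩)
  exact (card_le_card h1).trans ((card_union_le _ _).trans
    (Nat.add_le_add_left card_image_le _))

private theorem sum_bad {m M : ℕ} [NeZero M] (hM : Odd M) (B : Finset (ZMod M)) :
    (∑ ω : Om m M, (Bad B ω).card) * M ≤
      (Par m).card * (3 * (2 * m).choose m) * (B.card * M ^ (3 * m)) := by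
  have h1 : ∀ ω : Om m M, (Bad B ω).card =
      ∑ x ∈ Par m, ∑ y ∈ (Par m).filter (fun y => Sh x y),
        if x ∈ Sel B ω ∧ y ∈ Sel B ω ∧ y ≠ x then 1 else 0 := by
    intro ω
    have h2 : Bad B ω = ((Par m ×ˢ Par m).filter (fun z => Sh z.1 z.2)).filter
        (fun z => z.1 ∈ Sel B ω ∧ z.2 ∈ Sel B ω ∧ z.2 ≠ z.1) := by
      ext z
      unfold Bad
      rw [mem_filter, mem_filter, mem_filter, mem_product, mem_product]
      constructor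
      · rintro ⟨⟨h3, h4⟩, h5, h6⟩
        exact ⟨⟨⟨(mem_Sel.1 h3).1, (mem_Sel.1 h4).1⟩, h6⟩, h3, h4, h5⟩
      · rintro ⟨⟨_, h6⟩, h3, h4, h5⟩
        exact ⟨⟨h3, h4⟩, h5, h6⟩
    rw [h2, card_filter, sum_filter, sum_product]
    refine sum_congr rfl fun x _ => ?_
    rw [sum_filter]
  calc (∑ ω : Om m M, (Bad B ω).card) * M
      = (∑ x ∈ Par m, ∑ y ∈ (Par m).filter (fun y => Sh x y), ∑ ω : Om m M,
          if x ∈ Sel B ω ∧ y ∈ Sel B ω ∧ y ≠ x then 1 else 0) * M := by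
        rw [sum_congr rfl fun ω _ => h1 ω, sum_comm]
        congr 1
        exact sum_congr rfl fun x _ => sum_comm
    _ = ∑ x ∈ Par m, ∑ y ∈ (Par m).filter (fun y => Sh x y), (∑ ω : Om m M,
          if x ∈ Sel B ω ∧ y ∈ Sel B ω ∧ y ≠ x then 1 else 0) * M := by
        rw [sum_mul]
        exact sum_congr rfl fun x _ => sum_mul _ _ _
    _ ≤ ∑ x ∈ Par m, ∑ y ∈ (Par m).filter (fun y => Sh x y), B.card * M ^ (3 * m) := by
        refine sum_le_sum fun x hx => sum_le_sum fun y hy => ?_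
        obtain ⟨hyP, hs⟩ := mem_filter.1 hy
        by_cases hne : y = x
        · have : ∑ ω : Om m M, (if x ∈ Sel B ω ∧ y ∈ Sel B ω ∧ y ≠ x then 1 else 0) = 0 :=
            sum_eq_zero fun ω _ => if_neg fun h => h.2.2 hne
          rw [this, zero_mul]
          exact Nat.zero_le _
        · have h3 : ∑ ω : Om m M, (if x ∈ Sel B ω ∧ y ∈ Sel B ω ∧ y ≠ x then 1 else 0) =
              (univ.filter fun ω : Om m M => x ∈ Sel B ω ∧ y ∈ Sel B ω).card := by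
            rw [card_filter]
            refine sum_congr rfl fun ω _ => ?_
            by_cases h4 : x ∈ Sel B ω ∧ y ∈ Sel B ω
            · rw [if_pos ⟨h4.1, h4.2, hne⟩, if_pos h4]
            · rw [if_neg fun h => h4 ⟨h.1, h.2.1⟩, if_neg h4]
          rw [h3]
          exact count_two hM B hx hyP hne hs
    _ = ∑ x ∈ Par m, ((Par m).filter (fun y => Sh x y)).card * (B.card * M ^ (3 * m)) :=
        sum_congr rfl fun x _ => by rw [sum_const, smul_eq_mul]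
    _ ≤ ∑ x ∈ Par m, (3 * (2 * m).choose m) * (B.card * M ^ (3 * m)) :=
        sum_le_sum fun x hx => Nat.mul_le_mul_right _ (card_share hx)
    _ = _ := by rw [sum_const, smul_eq_mul]; ring

theorem cw_avg {m M : ℕ} [NeZero M] (hM : Odd M) (h : 6 * (2 * m).choose m ≤ M)
    {B : Finset (ZMod M)} (hB : APF B) :
    ∃ F : Finset (Finset (Fin (3 * m)) × Finset (Fin (3 * m))), F ⊆ Par m ∧
      (∀ x ∈ F, ∀ y ∈ F, ∀ z ∈ F, Disjoint x.1 y.2 → x.1 ∪ y.2 = z.1 ∪ z.2 → x = z ∧ y = z) ∧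
      (3 * m).choose m * (2 * m).choose m * B.card ≤ 2 * M ^ 2 * F.card := by
  have hMpos : 0 < M := Nat.pos_of_ne_zero (NeZero.ne M)
  obtain ⟨a, ha⟩ : ∃ a, a = (Par m).card * B.card * M ^ (3 * m) := ⟨_, rfl⟩
  obtain ⟨ω, hω⟩ : ∃ ω : Om m M, (Par m).card * B.card ≤ 2 * M ^ 2 * (Iso B ω).card := by
    by_contra hcon
    push Not at hcon
    have hcard : Fintype.card (Om m M) = M ^ (3 * m) * (M * M) := by
      simp [Om, ZMod.card]
    have h1 : ∑ ω : Om m M, (Sel B ω).card ≤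
        ∑ ω : Om m M, (Iso B ω).card + ∑ ω : Om m M, (Bad B ω).card := by
      rw [← sum_add_distrib]
      exact sum_le_sum fun ω _ => card_le_iso B ω
    rw [count_one, ← ha] at h1
    have h2 := sum_bad (m := m) hM B
    have h3 : (Par m).card * (3 * (2 * m).choose m) * (B.card * M ^ (3 * m)) * 2 ≤ a * M := by
      rw [ha]
      calc (Par m).card * (3 * (2 * m).choose m) * (B.card * M ^ (3 * m)) * 2 =
          ((Par m).card * B.card * M ^ (3 * m)) * (6 * (2 * m).choose m) := by ring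
        _ ≤ _ := Nat.mul_le_mul_left _ h
    have h4 : (∑ ω : Om m M, (Bad B ω).card) * 2 ≤ a := by
      have h5 : (∑ ω : Om m M, (Bad B ω).card) * 2 * M ≤ a * M := by
        calc (∑ ω : Om m M, (Bad B ω).card) * 2 * M =
            (∑ ω : Om m M, (Bad B ω).card) * M * 2 := by ring
          _ ≤ _ := (Nat.mul_le_mul_right 2 h2).trans h3
      exact Nat.le_of_mul_le_mul_right h5 hMpos
    have h6 : a ≤ 2 * ∑ ω : Om m M, (Iso B ω).card := by omega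
    have h7 : ∑ ω : Om m M, 2 * M ^ 2 * (Iso B ω).card <
        ∑ ω : Om m M, (Par m).card * B.card :=
      sum_lt_sum_of_nonempty univ_nonempty fun ω _ => hcon ω
    rw [← mul_sum, sum_const, card_univ, hcard, smul_eq_mul] at h7
    have h8 : 2 * M ^ 2 * ∑ ω : Om m M, (Iso B ω).card ≥ M ^ 2 * a := by
      calc M ^ 2 * a ≤ M ^ 2 * (2 * ∑ ω : Om m M, (Iso B ω).card) := Nat.mul_le_mul_left _ h6
        _ = _ := by ring
    have h9 : M ^ (3 * m) * (M * M) * ((Par m).card * B.card) = M ^ 2 * a := by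
      rw [ha]; ring
    omega
  refine ⟨Iso B ω, fun x hx => (mem_Sel.1 (mem_filter.1 hx).1).1, iso_prop hB ω, ?_⟩
  rw [← card_Par]
  exact hω

end Pool.Agent.SXS
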