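import Pool.Agent.SXS.Defs

/-!
# Project SXS: definitions for the Coppersmith-Winograd construction.  DO NOT CHANGE.
-/

set_option autoImplicit false

namespace Pool.Agent.SXS

open Finset

/-- a set without three-term progressions -/
def APF {G : Type*} [Add G] (B : Finset G) : Prop :=
  ∀ a ∈ B, ∀ b ∈ B, ∀ c ∈ B, a + b = c + c → a = c ∧ b = c

/-- the pairs of disjoint `m`-sets in `Fin (3 * m)` -/
def Par (m : ℕ) : Finset (Finset (Fin (3 * m)) × Finset (Fin (3 * m))) :=
  univ.filter fun x => x.1.card = m ∧ x.2.card = m ∧ Disjoint x.1 x.2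

/-- the two partitions have a common part -/
def Sh {m : ℕ} (x y : Finset (Fin (3 * m)) × Finset (Fin (3 * m))) : Prop :=
  y.1 = x.1 ∨ y.2 = x.2 ∨ y.1 ∪ y.2 = x.1 ∪ x.2

instance {m : ℕ} (x y : Finset (Fin (3 * m)) × Finset (Fin (3 * m))) : Decidable (Sh x y) := by
  unfold Sh; infer_instance

/-- the data of the hash functions: weights and two shifts -/
abbrev Om (m M : ℕ) : Type := (Fin (3 * m) → ZMod M) × ZMod M × ZMod M

/-- the pairs selected by the hash functions -/
def Sel {m M : ℕ} (B : Finset (ZMod M)) (ω : Om m M) :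
    Finset (Finset (Fin (3 * m)) × Finset (Fin (3 * m))) :=
  (Par m).filter fun x => ω.2.1 + ∑ i ∈ x.1, ω.1 i ∈ B ∧
    ω.2.2 + ∑ i ∈ x.2, ω.1 i = ω.2.1 + ∑ i ∈ x.1, ω.1 i

end Pool.Agent.SXS
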