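import Pool.Agent.SXS.Defs

/-!
# SXS-Cnt: the number of monomials of degree at most `(p-1)k/3`
-/

set_option autoImplicit false

namespace Pool.Agent.SXS

open Finset

theorem card_Mon_le {p k : ℕ} (hp : 1 ≤ p) {t : ℝ} (h0 : 0 < t) (h1 : t ≤ 1) :
    ((Mon p k).card : ℝ) ≤ gp p t ^ k := by
  have ha : (t ^ (-(((p : ℝ) - 1) / 3))) ^ k = t ^ (-(((p : ℝ) - 1) / 3) * (k : ℝ)) := by
    rw [← Real.rpow_natCast, ← Real.rpow_mul h0.le]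
  have hsum : (∑ j ∈ range p, t ^ j) ^ k = ∑ e : Fin k → Fin p, t ^ (∑ i, (e i : ℕ)) := by
    rw [← Fin.sum_univ_eq_sum_range (fun j => t ^ j) p, Fintype.sum_pow]
    refine Finset.sum_congr rfl fun e _ => ?_
    rw [Finset.prod_pow_eq_pow_sum]
  have hpos : 0 < t ^ (-(((p : ℝ) - 1) / 3) * (k : ℝ)) := Real.rpow_pos_of_pos h0 _
  unfold gp
  rw [mul_pow, ha, hsum, Finset.mul_sum]
  have h2 : ∀ e ∈ Mon p k, (1 : ℝ) ≤ t ^ (-(((p : ℝ) - 1) / 3) * (k : ℝ)) * t ^ (∑ i, (e i : ℕ)) := by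
    intro e he
    have h3 : 3 * ∑ i, (e i : ℕ) ≤ (p - 1) * k := (Finset.mem_filter.1 he).2
    have h4 : (3 : ℝ) * ((∑ i, (e i : ℕ) : ℕ) : ℝ) ≤ ((p : ℝ) - 1) * k := by
      have h5 : ((3 * ∑ i, (e i : ℕ) : ℕ) : ℝ) ≤ (((p - 1) * k : ℕ) : ℝ) := by exact_mod_cast h3
      rw [Nat.cast_mul, Nat.cast_mul, Nat.cast_sub hp] at h5
      simpa using h5
    rw [← Real.rpow_natCast t (∑ i, (e i : ℕ)), ← Real.rpow_add h0]
    apply Real.one_le_rpow_of_pos_of_le_one_of_nonpos h0 h1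
    have h6 : (((p : ℝ) - 1) / 3) * (k : ℝ) = (((p : ℝ) - 1) * k) / 3 := by ring
    rw [neg_mul, h6]
    linarith
  calc ((Mon p k).card : ℝ) = ∑ _e ∈ Mon p k, (1 : ℝ) := by simp
    _ ≤ ∑ e ∈ Mon p k, t ^ (-(((p : ℝ) - 1) / 3) * (k : ℝ)) * t ^ (∑ i, (e i : ℕ)) :=
        Finset.sum_le_sum h2
    _ ≤ ∑ e : Fin k → Fin p, t ^ (-(((p : ℝ) - 1) / 3) * (k : ℝ)) * t ^ (∑ i, (e i : ℕ)) :=
        Finset.sum_le_sum_of_subset_of_nonneg (Finset.subset_univ _)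
          fun e _ _ => mul_nonneg hpos.le (pow_nonneg h0.le _)

theorem gp_half : gp 2 (1 / 2) = 3 / 2 ^ (2 / 3 : ℝ) := by
  have h1 : gp 2 (1 / 2) = (1 / 2 : ℝ) ^ (-(1 / 3 : ℝ)) * (3 / 2) := by
    unfold gp
    have h3 : (-((((2 : ℕ) : ℝ) - 1) / 3)) = -(1 / 3 : ℝ) := by norm_num
    rw [h3]
    congr 1
    rw [Finset.sum_range_succ, Finset.sum_range_one]
    norm_num
  have h2 : (1 / 2 : ℝ) ^ (-(1 / 3 : ℝ)) = 2 ^ (1 / 3 : ℝ) := by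
    rw [Real.rpow_neg (by norm_num), one_div, Real.inv_rpow (by norm_num), inv_inv]
  have h3 : (2 : ℝ) ^ (2 / 3 : ℝ) * 2 ^ (1 / 3 : ℝ) = 2 := by
    rw [← Real.rpow_add (by norm_num)]
    norm_num
  have h4 : (0 : ℝ) < (2 : ℝ) ^ (2 / 3 : ℝ) := Real.rpow_pos_of_pos (by norm_num) _
  rw [h1, h2, eq_div_iff h4.ne']
  linear_combination (3 / 2 : ℝ) * h3

theorem exists_t {p : ℕ} (hp : 2 ≤ p) : ∃ t : ℝ, 0 < t ∧ t < 1 ∧ gp p t < p := by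
  have hp' : (2 : ℝ) ≤ p := by exact_mod_cast hp
  have hs : ∀ q : ℕ, ∑ j ∈ range q, (j : ℝ) = (q : ℝ) * (q - 1) / 2 := by
    intro q
    induction q with
    | zero => simp
    | succ q ih =>
      rw [Finset.sum_range_succ, ih]
      push_cast
      ring
  have hd1 : HasDerivAt (fun t : ℝ => ∑ j ∈ range p, t ^ j) ((p : ℝ) * (p - 1) / 2) 1 := by
    have h1 : HasDerivAt (fun t : ℝ => ∑ j ∈ range p, t ^ j)
        (∑ j ∈ range p, (j : ℝ) * 1 ^ (j - 1)) 1 :=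
      HasDerivAt.fun_sum fun j _ => hasDerivAt_pow j 1
    simp only [one_pow, mul_one] at h1
    rw [hs] at h1
    exact h1
  have hd2 : HasDerivAt (fun t : ℝ => t ^ (((p : ℝ) - 1) / 3)) (((p : ℝ) - 1) / 3) 1 := by
    have h1 := Real.hasDerivAt_rpow_const (x := 1) (p := ((p : ℝ) - 1) / 3) (Or.inl one_ne_zero)
    rw [Real.one_rpow, mul_one] at h1
    exact h1
  have hd : HasDerivAt (fun t : ℝ => ∑ j ∈ range p, t ^ j - (p : ℝ) * t ^ (((p : ℝ) - 1) / 3))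
      ((p : ℝ) * (p - 1) / 2 - (p : ℝ) * (((p : ℝ) - 1) / 3)) 1 :=
    hd1.sub (hd2.const_mul (p : ℝ))
  have hpos : 0 < (p : ℝ) * (p - 1) / 2 - (p : ℝ) * (((p : ℝ) - 1) / 3) := by
    have h1 : (p : ℝ) * (p - 1) / 2 - (p : ℝ) * (((p : ℝ) - 1) / 3) = (p : ℝ) * (p - 1) / 6 := by ring
    rw [h1]
    have h2 : 0 < (p : ℝ) * (p - 1) := mul_pos (by linarith) (by linarith)
    linarith
  have hf1 : ∑ j ∈ range p, (1 : ℝ) ^ j - (p : ℝ) * (1 : ℝ) ^ (((p : ℝ) - 1) / 3) = 0 := by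
    rw [Real.one_rpow]
    simp
  rw [hasDerivAt_iff_tendsto_slope] at hd
  have h1 := (hd.eventually (lt_mem_nhds hpos))
  have h2 : ∀ᶠ t in nhdsWithin (1 : ℝ) (Set.Iio 1), 0 <
      slope (fun t : ℝ => ∑ j ∈ range p, t ^ j - (p : ℝ) * t ^ (((p : ℝ) - 1) / 3)) 1 t :=
    h1.filter_mono (nhdsWithin_mono 1 fun t ht => ne_of_lt ht)
  have h3 : ∀ᶠ t in nhdsWithin (1 : ℝ) (Set.Iio 1), (0 : ℝ) < t :=
    (lt_mem_nhds one_pos).filter_mono nhdsWithin_le_nhds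
  obtain ⟨t, ⟨h4, h5⟩, h6⟩ := ((h2.and h3).and self_mem_nhdsWithin).exists
  have h6' : t < 1 := h6
  rw [slope_def_field, hf1, sub_zero] at h4
  have h7 : ∑ j ∈ range p, t ^ j - (p : ℝ) * t ^ (((p : ℝ) - 1) / 3) < 0 := by
    by_contra h8
    rw [not_lt] at h8
    have h9 := div_nonpos_of_nonneg_of_nonpos h8 (by linarith : t - 1 ≤ 0)
    linarith
  refine ⟨t, h5, h6', ?_⟩
  have h8 : 0 < t ^ (-(((p : ℝ) - 1) / 3)) := Real.rpow_pos_of_pos h5 _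
  have h9 : t ^ (-(((p : ℝ) - 1) / 3)) * t ^ (((p : ℝ) - 1) / 3) = 1 := by
    rw [← Real.rpow_add h5, neg_add_cancel, Real.rpow_zero]
  unfold gp
  calc t ^ (-(((p : ℝ) - 1) / 3)) * ∑ j ∈ range p, t ^ j
      < t ^ (-(((p : ℝ) - 1) / 3)) * ((p : ℝ) * t ^ (((p : ℝ) - 1) / 3)) :=
        mul_lt_mul_of_pos_left (by linarith) h8
    _ = p * (t ^ (-(((p : ℝ) - 1) / 3)) * t ^ (((p : ℝ) - 1) / 3)) := by ring
    _ = p := by rw [h9, mul_one]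

theorem one_le_gp {p : ℕ} (hp : 1 ≤ p) {t : ℝ} (h0 : 0 < t) (h1 : t ≤ 1) : 1 ≤ gp p t := by
  have hp' : (1 : ℝ) ≤ p := by exact_mod_cast hp
  have h2 : (1 : ℝ) ≤ t ^ (-(((p : ℝ) - 1) / 3)) := by
    apply Real.one_le_rpow_of_pos_of_le_one_of_nonpos h0 h1
    have : 0 ≤ ((p : ℝ) - 1) / 3 := div_nonneg (by linarith) (by norm_num)
    linarith
  have h3 : (1 : ℝ) ≤ ∑ j ∈ range p, t ^ j := by
    have h4 : t ^ 0 ≤ ∑ j ∈ range p, t ^ j :=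
      Finset.single_le_sum (f := fun j => t ^ j) (fun j _ => pow_nonneg h0.le j)
        (Finset.mem_range.2 hp)
    rw [pow_zero] at h4
    exact h4
  unfold gp
  exact one_le_mul_of_one_le_of_one_le h2 h3

theorem one_le_card_Mon {p k : ℕ} (hp : 1 ≤ p) : 1 ≤ (Mon p k).card := by
  apply Finset.card_pos.2
  refine ⟨fun _ => ⟨0, hp⟩, ?_⟩
  rw [Mon, Finset.mem_filter]
  refine ⟨Finset.mem_univ _, ?_⟩
  simp

theorem two_le_card_Mon {p k : ℕ} (hp : 2 ≤ p) (hk : 1 ≤ k) (h : 3 ≤ (p - 1) * k) :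
    2 ≤ (Mon p k).card := by
  have hp0 : 0 < p := by omega
  have hp1 : 1 < p := by omega
  have h0 : (fun _ => ⟨0, hp0⟩ : Fin k → Fin p) ∈ Mon p k := by
    rw [Mon, Finset.mem_filter]
    refine ⟨Finset.mem_univ _, ?_⟩
    simp
  have h1 : (fun i => if i = ⟨0, hk⟩ then ⟨1, hp1⟩ else ⟨0, hp0⟩ : Fin k → Fin p) ∈ Mon p k := by
    rw [Mon, Finset.mem_filter]
    refine ⟨Finset.mem_univ _, ?_⟩
    have h2 : ∑ i : Fin k, (((if i = ⟨0, hk⟩ then ⟨1, hp1⟩ else ⟨0, hp0⟩ : Fin p)) : ℕ) = 1 := by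
      have h3 : ∀ i : Fin k, (((if i = ⟨0, hk⟩ then ⟨1, hp1⟩ else ⟨0, hp0⟩ : Fin p)) : ℕ) =
          if i = ⟨0, hk⟩ then 1 else 0 := by
        intro i
        split_ifs <;> rfl
      simp only [h3]
      rw [Finset.sum_ite_eq' Finset.univ (⟨0, hk⟩ : Fin k) (fun _ => 1), if_pos (Finset.mem_univ _)]
    rw [h2]
    omega
  refine Finset.one_lt_card.2 ⟨_, h0, _, h1, ?_⟩
  intro h2
  have h3 := congrFun h2 ⟨0, hk⟩
  rw [if_pos rfl] at h3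
  have h4 := congrArg Fin.val h3
  exact absurd h4 (by norm_num)

end Pool.Agent.SXS
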