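import Pool.Agent.SXS.Defs
import Pool.Agent.RSV.HD

/-!
# SXS-CorC: the number of shadow pairs modulo the group

In a linear 3-graph the neighbourhood of `v` is the disjoint union of the sets `e.erase v`.  By the invariance the
neighbourhoods of `(i, g)` and `(i, 0)` have the same size, and the sum of all sizes is `6 |H|`.
-/

set_option autoImplicit false

namespace Pool.Agent.SXS

open Finset Pool.Agent.RSV

theorem nb_card {V : Type*} [Fintype V] [DecidableEq V] {H : Finset (Finset V)} (h3 : Three H)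
    (hL : Linear H) (v : V) : (nb H v).card = 2 * deg H v := by
  have hdisj : ∀ e ∈ H.filter (fun e => v ∈ e), ∀ f ∈ H.filter (fun e => v ∈ e), e ≠ f →
      Disjoint (e.erase v) (f.erase v) := by
    intro e he f hf hne
    obtain ⟨heH, hve⟩ := mem_filter.1 he
    obtain ⟨hfH, hvf⟩ := mem_filter.1 hf
    rw [disjoint_left]
    intro u hu hu'
    obtain ⟨huv, hue⟩ := mem_erase.1 hu
    have huf := (mem_erase.1 hu').2
    have h1 : ({u, v} : Finset V) ⊆ e ∩ f := by
      intro x hx
      rw [mem_insert, mem_singleton] at hx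
      rcases hx with rfl | rfl
      · exact mem_inter.2 ⟨hue, huf⟩
      · exact mem_inter.2 ⟨hve, hvf⟩
    have h2 := card_le_card h1
    rw [card_pair huv] at h2
    have h4 := hL e heH f hfH hne
    omega
  have h1 := card_biUnion hdisj
  have h2 : ∑ e ∈ H.filter (fun e => v ∈ e), (e.erase v).card = 2 * deg H v := by
    calc ∑ e ∈ H.filter (fun e => v ∈ e), (e.erase v).card = ∑ e ∈ H.filter (fun e => v ∈ e), 2 :=
          sum_congr rfl fun e he => by
            obtain ⟨heH, hve⟩ := mem_filter.1 he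
            rw [card_erase_of_mem hve, h3 e heH]
      _ = _ := by rw [sum_const, smul_eq_mul, mul_comm]; rfl
  have h5 : nb H v = (H.filter (fun e => v ∈ e)).biUnion fun e => e.erase v := by
    ext u
    unfold nb
    rw [mem_filter, mem_biUnion]
    constructor
    · rintro ⟨-, huv, e, he, hue, hve⟩
      exact ⟨e, mem_filter.2 ⟨he, hve⟩, mem_erase.2 ⟨huv, hue⟩⟩
    · rintro ⟨e, he, hu⟩
      obtain ⟨heH, hve⟩ := mem_filter.1 he
      obtain ⟨huv, hue⟩ := mem_erase.1 hu
      exact ⟨mem_univ _, huv, e, heH, hue, hve⟩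
  rw [h5, h1, h2]

private theorem nb_trans1 {p k m : ℕ} [NeZero p] {H : Finset (Finset (Fin m × E p k))} (hI : Inv H)
    {i j : Fin m} {a b : E p k} (g : E p k) (h : (j, b) ∈ nb H (i, a)) : (j, b + g) ∈ nb H (i, a + g) := by
  unfold nb at h ⊢
  rw [mem_filter] at h ⊢
  obtain ⟨-, h1, e, he, h2, h3⟩ := h
  refine ⟨mem_univ _, fun h4 => h1 ?_, _, hI g e he, mem_image.2 ⟨_, h2, rfl⟩, mem_image.2 ⟨_, h3, rfl⟩⟩
  obtain ⟨h5, h6⟩ := Prod.mk.inj h4
  rw [h5, add_right_cancel h6]

theorem nb_trans {p k m : ℕ} [NeZero p] {H : Finset (Finset (Fin m × E p k))} (hI : Inv H)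
    (i j : Fin m) (a b g : E p k) : (j, b + g) ∈ nb H (i, a + g) ↔ (j, b) ∈ nb H (i, a) := by
  refine ⟨fun h => ?_, nb_trans1 hI g⟩
  have h1 := nb_trans1 hI (-g) h
  rwa [add_neg_cancel_right, add_neg_cancel_right] at h1

private theorem card_shift {p k m : ℕ} [NeZero p] {H : Finset (Finset (Fin m × E p k))} (hI : Inv H)
    (i : Fin m) (g : E p k) : (nb H (i, g)).card = (nb H (i, 0)).card := by
  have h1 : nb H (i, g) = (nb H (i, 0)).image fun v => (v.1, v.2 + g) := by
    ext ⟨j, b⟩
    rw [mem_image]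
    constructor
    · intro h
      refine ⟨(j, b - g), ?_, ?_⟩
      · rw [← nb_trans hI i j 0 (b - g) g, sub_add_cancel, zero_add]
        exact h
      · show (j, b - g + g) = (j, b)
        rw [sub_add_cancel]
    · rintro ⟨⟨j', b'⟩, h, h2⟩
      obtain ⟨h3, h4⟩ := Prod.mk.inj h2
      subst h3
      subst h4
      have h5 := (nb_trans hI i j' 0 b' g).2 h
      rw [zero_add] at h5
      exact h5
  rw [h1, card_image_of_injective]
  rintro ⟨j, b⟩ ⟨j', b'⟩ h
  obtain ⟨h3, h4⟩ := Prod.mk.inj h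
  exact Prod.ext h3 (add_right_cancel h4)

private theorem Dd_sum {p k m : ℕ} [NeZero p] (H : Finset (Finset (Fin m × E p k))) :
    (Dd H).card = ∑ i : Fin m, (nb H (i, 0)).card := by
  unfold Dd
  rw [card_filter, Fintype.sum_prod_type]
  refine sum_congr rfl fun i _ => ?_
  show ∑ y : Fin m × E p k, (if (y.1, y.2) ∈ nb H (i, 0) then 1 else 0) = (nb H (i, 0)).card
  rw [← card_filter, filter_mem_eq_inter, univ_inter]

theorem card_Dd {p k m : ℕ} [NeZero p] {H : Finset (Finset (Fin m × E p k))} (h3 : Three H)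
    (hL : Linear H) (hI : Inv H) : (Dd H).card * p ^ k = 6 * H.card := by
  have h1 : ∑ v : Fin m × E p k, (nb H v).card = 6 * H.card := by
    rw [sum_congr rfl fun v _ => nb_card h3 hL v, ← mul_sum, deg_sum h3]
    ring
  have h2 : Fintype.card (E p k) = p ^ k := by
    rw [Fintype.card_fun, ZMod.card, Fintype.card_fin]
  rw [← h1, Dd_sum, Fintype.sum_prod_type, sum_mul]
  refine sum_congr rfl fun i _ => ?_
  rw [sum_congr rfl fun g _ => card_shift hI i g, sum_const, card_univ, h2, smul_eq_mul, mul_comm]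

end Pool.Agent.SXS
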