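import Pool.Agent.SXS.Defs
import Pool.Agent.SXS.CorC

/-!
# SXS-CorA: the triangle tensor modulo the group is diagonal on the shadow pairs

PLAN. For `x = (i, j, s) ∈ Dd H` there is a unique edge `e ∈ H` with `(i, 0), (j, s) ∈ e` (`nb`, `Linear`); let `(l, r)` be its
third vertex (`Three`). Put `b x = (j, l, r - s)` and `c x = (i, l, r)`; both are in `Dd H` (`nb_trans` of `CorC`).
`b` is injective: `(j, l, t)` determines the edge through `(j, 0), (l, t)`, whose third vertex is `(i, -s)` (translate by `-s`);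
`c` is injective: the edge through `(i, 0), (l, r)` has the third vertex `(j, s)`. Injective self maps of a finite type are
bijective (`Finite.injective_iff_bijective`).
The equivalence: `←` by the definitions. `→`: let `x = (i, j, s)`, `b y = (j, l, t)`, `c z = (i, l, s + t)`: the pairs
`(i, 0), (j, s)` and `(j, s), (l, s + t)` (translate of `b y ∈ Dd H`) and `(i, 0), (l, s + t)` (`c z ∈ Dd H`) are in the shadow. If the
three edges which contain them were different then their union would be at most 6 vertices, contradiction to `NoTri`; so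
two, hence all, of them are equal (`Linear`), the edge is `{(i, 0), (j, s), (l, s + t)}`, so `b y = b x` and `c z = c x`, and
`y = x`, `z = x` by injectivity. (`(i, 0) ≠ (j, s)` etc. by the definition of `nb`.)
-/

set_option autoImplicit false

namespace Pool.Agent.SXS

open Finset Pool.Agent.RSV

variable {V : Type*} [DecidableEq V]

private theorem third {e : Finset V} (h : e.card = 3) {a b : V} (ha : a ∈ e) (hb : b ∈ e)
    (hab : a ≠ b) : ∃ w, w ≠ a ∧ w ≠ b ∧ e = {a, b, w} := by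
  have h1 : ((e.erase a).erase b).card = 1 := by
    rw [card_erase_of_mem (mem_erase.2 ⟨hab.symm, hb⟩), card_erase_of_mem ha, h]
  obtain ⟨w, hw⟩ := card_eq_one.1 h1
  have hw' : w ∈ (e.erase a).erase b := by rw [hw]; exact mem_singleton_self w
  obtain ⟨hwb, hw2⟩ := mem_erase.1 hw'
  obtain ⟨hwa, hwe⟩ := mem_erase.1 hw2
  refine ⟨w, hwa, hwb, ?_⟩
  symm
  apply eq_of_subset_of_card_le
  · intro x hx
    rw [mem_insert, mem_insert, mem_singleton] at hx
    rcases hx with rfl | rfl | rfl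
    · exact ha
    · exact hb
    · exact hwe
  · rw [h, card_insert_of_notMem, card_pair hwb.symm]
    rw [mem_insert, mem_singleton]
    push Not
    exact ⟨hab, hwa.symm⟩

private theorem same {H : Finset (Finset V)} (hL : Linear H) {e f : Finset V} (he : e ∈ H)
    (hf : f ∈ H) {a b : V} (hab : a ≠ b) (h1 : a ∈ e) (h2 : b ∈ e) (h3 : a ∈ f) (h4 : b ∈ f) :
    e = f := by
  by_contra hne
  have h5 := hL e he f hf hne
  have h6 : ({a, b} : Finset V) ⊆ e ∩ f := by
    intro x hx
    rw [mem_insert, mem_singleton] at hx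
    rcases hx with rfl | rfl
    · exact mem_inter.2 ⟨h1, h3⟩
    · exact mem_inter.2 ⟨h2, h4⟩
  have h7 := card_le_card h6
  rw [card_pair hab] at h7
  omega

private theorem uniq {H : Finset (Finset V)} (hL : Linear H) {a b w w' : V}
    (h1 : ({a, b, w} : Finset V) ∈ H) (h2 : ({a, b, w'} : Finset V) ∈ H) (hab : a ≠ b)
    (hwa : w' ≠ a) (hwb : w' ≠ b) : w' = w := by
  have h := same hL h1 h2 hab (by simp) (by simp) (by simp) (by simp)
  have h3 : w' ∈ ({a, b, w} : Finset V) := by rw [h]; simp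
  rw [mem_insert, mem_insert, mem_singleton] at h3
  rcases h3 with h3 | h3 | h3
  · exact absurd h3 hwa
  · exact absurd h3 hwb
  · exact h3

private theorem mem_nb' [Fintype V] {H : Finset (Finset V)} {u v : V} :
    u ∈ nb H v ↔ u ≠ v ∧ ∃ e ∈ H, u ∈ e ∧ v ∈ e := by
  unfold nb; simp

private theorem key [Fintype V] {H : Finset (Finset V)} (h3 : Three H) (hL : Linear H)
    (hN : NoTri H) {a b c : V} (hab : b ∈ nb H a) (hbc : c ∈ nb H b) (hac : c ∈ nb H a) :
    ({a, b, c} : Finset V) ∈ H := by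
  obtain ⟨n1, e, he, be, ae⟩ := mem_nb'.1 hab
  obtain ⟨n2, f, hf, cf, bf⟩ := mem_nb'.1 hbc
  obtain ⟨n3, g, hg, cg, ag⟩ := mem_nb'.1 hac
  have main : ∀ e' ∈ H, a ∈ e' → b ∈ e' → c ∈ e' → ({a, b, c} : Finset V) ∈ H := by
    intro e' he' h1 h2 h4
    have h5 : ({a, b, c} : Finset V) = e' := by
      apply eq_of_subset_of_card_le
      · intro x hx
        rw [mem_insert, mem_insert, mem_singleton] at hx
        rcases hx with rfl | rfl | rfl
        · exact h1
        · exact h2
        · exact h4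
      · rw [h3 e' he', card_insert_of_notMem, card_pair n2.symm]
        rw [mem_insert, mem_singleton]
        push Not
        exact ⟨n1.symm, n3.symm⟩
    rw [h5]; exact he'
  by_cases hef : e = f
  · subst hef
    exact main e he ae be cf
  by_cases hfg : f = g
  · subst hfg
    exact main f hf ag bf cf
  by_cases heg : e = g
  · subst heg
    exact main e he ae be cg
  exfalso
  have h := hN e he f hf g hg hef hfg heg
  have c1 := h3 e he
  have c2 := h3 f hf
  have c3 := h3 g hg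
  have u1 := card_union_add_card_inter e f
  have u2 := card_union_add_card_inter (e ∪ f) g
  have i1 : 1 ≤ (e ∩ f).card := card_pos.2 ⟨b, mem_inter.2 ⟨be, bf⟩⟩
  have i2 : 2 ≤ ((e ∪ f) ∩ g).card := by
    have h6 : ({a, c} : Finset V) ⊆ (e ∪ f) ∩ g := by
      intro x hx
      rw [mem_insert, mem_singleton] at hx
      rcases hx with rfl | rfl
      · exact mem_inter.2 ⟨mem_union_left _ ae, ag⟩
      · exact mem_inter.2 ⟨mem_union_right _ cf, cg⟩
    have h7 := card_le_card h6
    rwa [card_pair n3.symm] at h7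
  omega

theorem exists_bij {p k m : ℕ} [NeZero p] {H : Finset (Finset (Fin m × E p k))} (h3 : Three H)
    (hL : Linear H) (hN : NoTri H) (hI : Inv H) :
    ∃ b c : Dd H → Dd H, Function.Bijective b ∧ Function.Bijective c ∧
      ∀ x y z : Dd H, ((x : Fin m × Fin m × E p k).2.1 = (b y : Fin m × Fin m × E p k).1 ∧
        (b y : Fin m × Fin m × E p k).2.1 = (c z : Fin m × Fin m × E p k).2.1 ∧
        (x : Fin m × Fin m × E p k).1 = (c z : Fin m × Fin m × E p k).1 ∧
        (x : Fin m × Fin m × E p k).2.2 + (b y : Fin m × Fin m × E p k).2.2 =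
          (c z : Fin m × Fin m × E p k).2.2) ↔ (x = y ∧ y = z) := by
  have hD : ∀ x : Fin m × Fin m × E p k, x ∈ Dd H ↔ (x.2.1, x.2.2) ∈ nb H (x.1, 0) := by
    intro x; unfold Dd; simp
  have hex : ∀ x : Dd H, ∃ w : Fin m × E p k, w ≠ (x.1.1, 0) ∧ w ≠ (x.1.2.1, x.1.2.2) ∧
      ({(x.1.1, 0), (x.1.2.1, x.1.2.2), w} : Finset (Fin m × E p k)) ∈ H := by
    intro x
    obtain ⟨h1, e, he, h2, h4⟩ := mem_nb'.1 ((hD x.1).1 x.2)
    obtain ⟨w, hw1, hw2, hw3⟩ := third (h3 e he) h4 h2 h1.symm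
    exact ⟨w, hw1, hw2, hw3 ▸ he⟩
  choose w hw1 hw2 hw3 using hex
  have hxne : ∀ x : Dd H, (x.1.1, (0 : E p k)) ≠ (x.1.2.1, x.1.2.2) := fun x =>
    (mem_nb'.1 ((hD x.1).1 x.2)).1.symm
  have hbm : ∀ x : Dd H, (x.1.2.1, (w x).1, (w x).2 - x.1.2.2) ∈ Dd H := by
    intro x
    rw [hD]
    have h := nb_trans hI x.1.2.1 (w x).1 0 ((w x).2 - x.1.2.2) x.1.2.2
    rw [← h]
    rw [mem_nb']
    rw [sub_add_cancel, zero_add]
    exact ⟨hw2 x, _, hw3 x, by simp, by simp⟩
  have hcm : ∀ x : Dd H, (x.1.1, (w x).1, (w x).2) ∈ Dd H := by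
    intro x
    rw [hD, mem_nb']
    exact ⟨hw1 x, _, hw3 x, by simp, by simp⟩
  obtain ⟨b, hb⟩ : ∃ b : Dd H → Dd H, ∀ x, (b x : Fin m × Fin m × E p k) =
      (x.1.2.1, (w x).1, (w x).2 - x.1.2.2) := ⟨fun x => ⟨_, hbm x⟩, fun x => rfl⟩
  obtain ⟨c, hc⟩ : ∃ c : Dd H → Dd H, ∀ x, (c x : Fin m × Fin m × E p k) =
      (x.1.1, (w x).1, (w x).2) := ⟨fun x => ⟨_, hcm x⟩, fun x => rfl⟩
  have hbi : Function.Injective b := by
    intro x y hxy
    have h := congrArg (Subtype.val) hxy
    rw [hb, hb] at h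
    obtain ⟨hj, hl, ht⟩ : x.1.2.1 = y.1.2.1 ∧ (w x).1 = (w y).1 ∧
        (w x).2 - x.1.2.2 = (w y).2 - y.1.2.2 := by
      simpa only [Prod.mk.injEq] using h
    have hx := hI (-x.1.2.2) _ (hw3 x)
    have hy := hI (-y.1.2.2) _ (hw3 y)
    rw [image_insert, image_insert, image_singleton] at hx hy
    simp only [zero_add, add_neg_cancel] at hx hy
    have ex : ({(x.1.1, -x.1.2.2), (x.1.2.1, 0), ((w x).1, (w x).2 + -x.1.2.2)} :
        Finset (Fin m × E p k)) =
        {(x.1.2.1, 0), ((w x).1, (w x).2 - x.1.2.2), (x.1.1, -x.1.2.2)} := by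
      rw [sub_eq_add_neg]
      ext v; simp only [mem_insert, mem_singleton]; tauto
    have ey : ({(y.1.1, -y.1.2.2), (y.1.2.1, 0), ((w y).1, (w y).2 + -y.1.2.2)} :
        Finset (Fin m × E p k)) =
        {(x.1.2.1, 0), ((w x).1, (w x).2 - x.1.2.2), (y.1.1, -y.1.2.2)} := by
      rw [hj, hl, ht, sub_eq_add_neg]
      ext v; simp only [mem_insert, mem_singleton]; tauto
    rw [ex] at hx
    rw [ey] at hy
    have hne : ((x.1.2.1, (0 : E p k)) : Fin m × E p k) ≠ ((w x).1, (w x).2 - x.1.2.2) := by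
      intro hcon
      apply hw2 x
      rw [Prod.mk.injEq] at hcon
      ext1
      · exact hcon.1.symm
      · exact sub_eq_zero.1 hcon.2.symm
    have hc1 : ((x.1.1, -x.1.2.2) : Fin m × E p k) ≠ (x.1.2.1, 0) := by
      intro hcon
      apply hxne x
      rw [Prod.mk.injEq] at hcon
      rw [Prod.mk.injEq]
      exact ⟨hcon.1, (neg_eq_zero.1 hcon.2).symm⟩
    have hc2 : ((x.1.1, -x.1.2.2) : Fin m × E p k) ≠ ((w x).1, (w x).2 - x.1.2.2) := by
      intro hcon
      apply hw1 x
      rw [Prod.mk.injEq, sub_eq_add_neg] at hcon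
      ext1
      · exact hcon.1.symm
      · exact (left_eq_add.1 (hcon.2.trans (add_comm _ _)))
    have h5 := uniq hL hy hx hne hc1 hc2
    rw [Prod.mk.injEq] at h5
    apply Subtype.ext
    rw [Prod.ext_iff, Prod.ext_iff]
    exact ⟨h5.1, hj, neg_injective h5.2⟩
  have hci : Function.Injective c := by
    intro x y hxy
    have h := congrArg (Subtype.val) hxy
    rw [hc, hc] at h
    obtain ⟨hi, hl, ht⟩ : x.1.1 = y.1.1 ∧ (w x).1 = (w y).1 ∧ (w x).2 = (w y).2 := by
      simpa only [Prod.mk.injEq] using h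
    have hw : w x = w y := Prod.ext hl ht
    have hx := hw3 x
    have hy := hw3 y
    have ex : ({(x.1.1, 0), (x.1.2.1, x.1.2.2), w x} : Finset (Fin m × E p k)) =
        {(x.1.1, 0), w x, (x.1.2.1, x.1.2.2)} := by
      ext v; simp only [mem_insert, mem_singleton]; tauto
    have ey : ({(y.1.1, 0), (y.1.2.1, y.1.2.2), w y} : Finset (Fin m × E p k)) =
        {(x.1.1, 0), w x, (y.1.2.1, y.1.2.2)} := by
      rw [hw, hi]
      ext v; simp only [mem_insert, mem_singleton]; tauto
    rw [ex] at hx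
    rw [ey] at hy
    have h5 := uniq hL hy hx (hw1 x).symm (hxne x).symm (hw2 x).symm
    rw [Prod.mk.injEq] at h5
    apply Subtype.ext
    rw [Prod.ext_iff, Prod.ext_iff]
    exact ⟨hi, h5.1, h5.2⟩
  refine ⟨b, c, Finite.injective_iff_bijective.1 hbi, Finite.injective_iff_bijective.1 hci, ?_⟩
  intro x y z
  constructor
  · rintro ⟨g1, g2, g3, g4⟩
    have k1 := (hD x.1).1 x.2
    have k2 := (hD (b y).1).1 (b y).2
    have k3 := (hD (c z).1).1 (c z).2
    rw [← g1] at k2
    rw [← g2, ← g3, ← g4] at k3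
    have k4 := (nb_trans hI x.1.2.1 (b y).1.2.1 0 (b y).1.2.2 x.1.2.2).2 k2
    rw [zero_add, add_comm] at k4
    have k5 := key h3 hL hN k1 k4 k3
    have k6 := uniq hL (hw3 x) k5 (hxne x) (mem_nb'.1 k3).1 (mem_nb'.1 k4).1
    have hbx : b x = b y := by
      apply Subtype.ext
      rw [hb x, ← k6]
      rw [Prod.ext_iff, Prod.ext_iff]
      exact ⟨g1, rfl, add_sub_cancel_left _ _⟩
    have hcx : c x = c z := by
      apply Subtype.ext
      rw [hc x, ← k6]
      rw [Prod.ext_iff, Prod.ext_iff]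
      exact ⟨g3, g2, g4⟩
    have e1 := hbi hbx
    have e2 := hci hcx
    exact ⟨e1, e1.symm.trans e2⟩
  · rintro ⟨rfl, rfl⟩
    rw [hb, hc]
    exact ⟨rfl, rfl, rfl, add_sub_cancel _ _⟩

end Pool.Agent.SXS
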