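import Pool.Agent.SXS.Defs

/-!
# SXS-Pol: the expansion of the indicator of `s + t = u` into monomials
-/

set_option autoImplicit false

namespace Pool.Agent.SXS

open Finset

private theorem pol_inner {R : Type*} [CommRing R] {N p : ℕ} (hp : N + 1 = p) (i j : ℕ)
    (G : ℕ → R) : ∑ l ∈ range p, (if i + j + l = N then G l else 0) =
      if i + j ≤ N then G (N - i - j) else 0 := by
  by_cases h : i + j ≤ N
  · rw [if_pos h, Finset.sum_eq_single (N - i - j)]
    · rw [if_pos (by omega)]
    · intro l _ hl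
      rw [if_neg (by omega)]
    · intro hl
      rw [Finset.mem_range] at hl
      omega
  · rw [if_neg h]
    refine Finset.sum_eq_zero fun l _ => ?_
    rw [if_neg (by omega)]

private theorem pol_mid {R : Type*} [CommRing R] {N p : ℕ} (hp : N + 1 = p) (i : ℕ) (hi : i ≤ N)
    (G : ℕ → R) : ∑ j ∈ range p, (if i + j ≤ N then G j else 0) =
      ∑ j ∈ range (N - i + 1), G j := by
  symm
  refine Finset.sum_subset_zero_on_sdiff (Finset.range_subset_range.2 (by omega)) ?_ ?_
  · intro j hj
    rw [Finset.mem_sdiff, Finset.mem_range, Finset.mem_range] at hj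
    rw [if_neg (by omega)]
  · intro j hj
    rw [Finset.mem_range] at hj
    rw [if_pos (by omega)]

private theorem pol_expand {R : Type*} [CommRing R] {N p : ℕ} (hp : N + 1 = p) (x y z : R) :
    (x + (y + -z)) ^ N = ∑ i ∈ range p, ∑ j ∈ range p, ∑ l ∈ range p,
      (if i + j + l = N then ((N.choose i : ℕ) : R) * (((N - i).choose j : ℕ) : R) * (-1) ^ l else 0) *
        (x ^ i * y ^ j * z ^ l) := by
  rw [add_pow, hp]
  refine Finset.sum_congr rfl fun i hi => ?_
  have hiN : i ≤ N := by
    rw [Finset.mem_range] at hi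
    omega
  simp only [ite_mul, zero_mul]
  simp only [pol_inner hp]
  rw [pol_mid hp i hiN, add_pow, Finset.mul_sum, Finset.sum_mul]
  refine Finset.sum_congr rfl fun j _ => ?_
  rw [neg_pow z]
  ring

/-- one coordinate -/
private theorem one_coord {p : ℕ} [Fact p.Prime] : ∃ κ : Fin p × Fin p × Fin p → ZMod p,
    (∀ x y z : ZMod p, (if x + y = z then (1 : ZMod p) else 0) =
      ∑ w, κ w * (x ^ (w.1 : ℕ) * y ^ (w.2.1 : ℕ) * z ^ (w.2.2 : ℕ))) ∧
    ∀ w, κ w ≠ 0 → (w.1 : ℕ) + (w.2.1 : ℕ) + (w.2.2 : ℕ) ≤ p - 1 := by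
  have hp2 : 2 ≤ p := (Fact.out : p.Prime).two_le
  obtain ⟨N, hN⟩ : ∃ N, N + 1 = p := ⟨p - 1, by omega⟩
  have hN0 : N ≠ 0 := by omega
  let K : ℕ → ℕ → ℕ → ZMod p := fun i j l => (if i + j + l = 0 then 1 else 0) -
    (if i + j + l = N then ((N.choose i : ℕ) : ZMod p) * (((N - i).choose j : ℕ) : ZMod p) * (-1) ^ l
      else 0)
  refine ⟨fun w => K w.1 w.2.1 w.2.2, fun x y z => ?_, fun w hw => ?_⟩
  · have e1 : ∑ w : Fin p × Fin p × Fin p, K w.1 w.2.1 w.2.2 *
        (x ^ (w.1 : ℕ) * y ^ (w.2.1 : ℕ) * z ^ (w.2.2 : ℕ)) =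
        ∑ i ∈ range p, ∑ j ∈ range p, ∑ l ∈ range p, K i j l * (x ^ i * y ^ j * z ^ l) := by
      rw [Fintype.sum_prod_type, Finset.sum_range]
      refine Finset.sum_congr rfl fun i _ => ?_
      rw [Fintype.sum_prod_type, Finset.sum_range]
      refine Finset.sum_congr rfl fun j _ => ?_
      rw [Finset.sum_range]
    have e2 : ∑ i ∈ range p, ∑ j ∈ range p, ∑ l ∈ range p,
        (if i + j + l = 0 then (1 : ZMod p) else 0) * (x ^ i * y ^ j * z ^ l) = 1 := by
      have h0 : 0 ∈ range p := Finset.mem_range.2 (by omega)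
      rw [Finset.sum_eq_single_of_mem 0 h0, Finset.sum_eq_single_of_mem 0 h0,
        Finset.sum_eq_single_of_mem 0 h0]
      · simp
      · intro l _ hl
        rw [if_neg (by omega), zero_mul]
      · intro j _ hj
        refine Finset.sum_eq_zero fun l _ => ?_
        rw [if_neg (by omega), zero_mul]
      · intro i _ hi
        refine Finset.sum_eq_zero fun j _ => Finset.sum_eq_zero fun l _ => ?_
        rw [if_neg (by omega), zero_mul]
    have e3 : ∑ i ∈ range p, ∑ j ∈ range p, ∑ l ∈ range p, K i j l * (x ^ i * y ^ j * z ^ l) =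
        1 - (x + (y + -z)) ^ N := by
      rw [pol_expand hN x y z]
      simp only [K, sub_mul, Finset.sum_sub_distrib]
      rw [e2]
    show (if x + y = z then (1 : ZMod p) else 0) = ∑ w : Fin p × Fin p × Fin p,
      K w.1 w.2.1 w.2.2 * (x ^ (w.1 : ℕ) * y ^ (w.2.1 : ℕ) * z ^ (w.2.2 : ℕ))
    rw [e1, e3]
    by_cases h : x + y = z
    · rw [if_pos h]
      have h1 : x + (y + -z) = 0 := by
        rw [← add_assoc, h, add_neg_cancel]
      rw [h1, zero_pow hN0, sub_zero]
    · rw [if_neg h]
      have h1 : x + (y + -z) ≠ 0 := by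
        intro h2
        apply h
        rw [← add_assoc, ← sub_eq_add_neg] at h2
        exact sub_eq_zero.1 h2
      have h2 : N = p - 1 := by omega
      rw [h2, ZMod.pow_card_sub_one_eq_one h1, sub_self]
  · by_contra hlt
    apply hw
    show K w.1 w.2.1 w.2.2 = 0
    have h1 : ¬ ((w.1 : ℕ) + (w.2.1 : ℕ) + (w.2.2 : ℕ) = 0) := by omega
    have h2 : ¬ ((w.1 : ℕ) + (w.2.1 : ℕ) + (w.2.2 : ℕ) = N) := by omega
    simp only [K]
    rw [if_neg h1, if_neg h2, sub_zero]

private theorem grp {ι β R : Type*} [DecidableEq β] [AddCommMonoid R] (W : Finset ι) (M : Finset β)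
    (a : ι → β) (f : ι → R) :
    ∑ e ∈ M, ∑ w ∈ W.filter (fun w => a w = e), f w = ∑ w ∈ W.filter (fun w => a w ∈ M), f w := by
  classical
  rw [← Finset.sum_fiberwise_of_maps_to (s := W.filter (fun w => a w ∈ M)) (t := M) (g := a)
    (fun w hw => (Finset.mem_filter.1 hw).2)]
  refine Finset.sum_congr rfl fun e he => ?_
  rw [Finset.filter_filter]
  refine Finset.sum_congr ?_ fun _ _ => rfl
  refine Finset.filter_congr fun w _ => ?_
  constructor
  · intro h
    rw [h]
    exact ⟨he, rfl⟩
  · exact fun h => h.2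

theorem ind_slices {p k : ℕ} [Fact p.Prime] :
    ∃ A B C : (Fin k → Fin p) → E p k → E p k → ZMod p, ∀ s t u : E p k,
      (if s + t = u then (1 : ZMod p) else 0) =
        ∑ e ∈ Mon p k, mono e s * A e t u + ∑ e ∈ Mon p k, mono e t * B e s u +
          ∑ e ∈ Mon p k, mono e u * C e s t := by
  classical
  obtain ⟨κ, hκ, hdeg⟩ := one_coord (p := p)
  let W := Fin k → Fin p × Fin p × Fin p
  let F : W → ZMod p := fun w => ∏ i, κ (w i)
  let a1 : W → Fin k → Fin p := fun w i => (w i).1
  let a2 : W → Fin k → Fin p := fun w i => (w i).2.1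
  let a3 : W → Fin k → Fin p := fun w i => (w i).2.2
  have htot : ∀ s t u : E p k, (if s + t = u then (1 : ZMod p) else 0) =
      ∑ w : W, F w * (mono (a1 w) s * mono (a2 w) t * mono (a3 w) u) := by
    intro s t u
    have h1 : (if s + t = u then (1 : ZMod p) else 0) =
        ∏ i, (if s i + t i = u i then (1 : ZMod p) else 0) := by
      by_cases h : s + t = u
      · rw [if_pos h]
        symm
        refine Finset.prod_eq_one fun i _ => ?_
        rw [if_pos (by rw [← h]; rfl)]
      · rw [if_neg h]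
        have h2 : ∃ i, s i + t i ≠ u i := by
          by_contra h3
          push Not at h3
          exact h (funext h3)
        obtain ⟨i, hi⟩ := h2
        symm
        exact Finset.prod_eq_zero (Finset.mem_univ i) (if_neg hi)
    rw [h1]
    simp only [hκ]
    rw [Finset.prod_univ_sum, Fintype.piFinset_univ]
    refine Finset.sum_congr rfl fun w _ => ?_
    rw [Finset.prod_mul_distrib, Finset.prod_mul_distrib, Finset.prod_mul_distrib]
    rfl
  have hcase : ∀ w : W, F w ≠ 0 → a1 w ∈ Mon p k ∨ a2 w ∈ Mon p k ∨ a3 w ∈ Mon p k := by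
    intro w hw
    by_contra hn
    push Not at hn
    obtain ⟨n1, n2, n3⟩ := hn
    have h0 : ∀ i, κ (w i) ≠ 0 := fun i => Finset.prod_ne_zero_iff.1 hw i (Finset.mem_univ i)
    have h1 : ∑ i, ((a1 w i : ℕ) + (a2 w i : ℕ) + (a3 w i : ℕ)) ≤ ∑ _i : Fin k, (p - 1) :=
      Finset.sum_le_sum fun i _ => hdeg (w i) (h0 i)
    rw [Finset.sum_const, Finset.card_univ, Fintype.card_fin, smul_eq_mul,
      Finset.sum_add_distrib, Finset.sum_add_distrib] at h1
    simp only [Mon, Finset.mem_filter, Finset.mem_univ, true_and, not_le] at n1 n2 n3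
    rw [mul_comm k] at h1
    omega
  refine ⟨fun e t u => ∑ w ∈ (Finset.univ : Finset W).filter (fun w => a1 w = e),
      F w * (mono (a2 w) t * mono (a3 w) u),
    fun e s u => ∑ w ∈ ((Finset.univ : Finset W).filter (fun w => a1 w ∉ Mon p k)).filter
      (fun w => a2 w = e), F w * (mono (a1 w) s * mono (a3 w) u),
    fun e s t => ∑ w ∈ (((Finset.univ : Finset W).filter (fun w => a1 w ∉ Mon p k)).filter
      (fun w => a2 w ∉ Mon p k)).filter (fun w => a3 w = e),
        F w * (mono (a1 w) s * mono (a2 w) t), fun s t u => ?_⟩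
  rw [htot s t u]
  have g1 : ∑ e ∈ Mon p k, mono e s * ∑ w ∈ (Finset.univ : Finset W).filter (fun w => a1 w = e),
      F w * (mono (a2 w) t * mono (a3 w) u) =
      ∑ w ∈ (Finset.univ : Finset W).filter (fun w => a1 w ∈ Mon p k),
        F w * (mono (a1 w) s * mono (a2 w) t * mono (a3 w) u) := by
    rw [← grp]
    refine Finset.sum_congr rfl fun e _ => ?_
    rw [Finset.mul_sum]
    refine Finset.sum_congr rfl fun w hw => ?_
    rw [← (Finset.mem_filter.1 hw).2]
    ring
  have g2 : ∑ e ∈ Mon p k, mono e t * ∑ w ∈ ((Finset.univ : Finset W).filter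
      (fun w => a1 w ∉ Mon p k)).filter (fun w => a2 w = e),
      F w * (mono (a1 w) s * mono (a3 w) u) =
      ∑ w ∈ ((Finset.univ : Finset W).filter (fun w => a1 w ∉ Mon p k)).filter
        (fun w => a2 w ∈ Mon p k),
        F w * (mono (a1 w) s * mono (a2 w) t * mono (a3 w) u) := by
    rw [← grp]
    refine Finset.sum_congr rfl fun e _ => ?_
    rw [Finset.mul_sum]
    refine Finset.sum_congr rfl fun w hw => ?_
    rw [← (Finset.mem_filter.1 hw).2]
    ring
  have g3 : ∑ e ∈ Mon p k, mono e u * ∑ w ∈ (((Finset.univ : Finset W).filter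
      (fun w => a1 w ∉ Mon p k)).filter (fun w => a2 w ∉ Mon p k)).filter (fun w => a3 w = e),
      F w * (mono (a1 w) s * mono (a2 w) t) =
      ∑ w ∈ ((Finset.univ : Finset W).filter (fun w => a1 w ∉ Mon p k)).filter
        (fun w => a2 w ∉ Mon p k),
        F w * (mono (a1 w) s * mono (a2 w) t * mono (a3 w) u) := by
    have g4 : ∑ w ∈ ((Finset.univ : Finset W).filter (fun w => a1 w ∉ Mon p k)).filter
        (fun w => a2 w ∉ Mon p k),
        F w * (mono (a1 w) s * mono (a2 w) t * mono (a3 w) u) =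
        ∑ w ∈ (((Finset.univ : Finset W).filter (fun w => a1 w ∉ Mon p k)).filter
          (fun w => a2 w ∉ Mon p k)).filter (fun w => a3 w ∈ Mon p k),
          F w * (mono (a1 w) s * mono (a2 w) t * mono (a3 w) u) := by
      symm
      refine Finset.sum_subset (Finset.filter_subset _ _) fun w hw hw' => ?_
      have h3 : a3 w ∉ Mon p k := fun h => hw' (Finset.mem_filter.2 ⟨hw, h⟩)
      have h2 : a2 w ∉ Mon p k := (Finset.mem_filter.1 hw).2
      have h1 : a1 w ∉ Mon p k := (Finset.mem_filter.1 (Finset.mem_filter.1 hw).1).2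
      have h0 : F w = 0 := by
        by_contra h
        rcases hcase w h with h' | h' | h'
        · exact h1 h'
        · exact h2 h'
        · exact h3 h'
      rw [h0, zero_mul]
    rw [g4, ← grp]
    refine Finset.sum_congr rfl fun e _ => ?_
    rw [Finset.mul_sum]
    refine Finset.sum_congr rfl fun w hw => ?_
    rw [← (Finset.mem_filter.1 hw).2]
    ring
  rw [g1, g2, g3, add_assoc, Finset.sum_filter_add_sum_filter_not,
    Finset.sum_filter_add_sum_filter_not]

end Pool.Agent.SXS
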