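import Pool.Agent.SXS.Sl
import Pool.Agent.SXS.Pol

/-!
# SXS-CorB: a diagonal part of the tensor `⟨m, m, m⟩ ⊗ [s + t = u]`

`slice_diag` with the `3 m ^ 2 |Mon p k|` slices given by `ind_slices` and two of the three indices.
-/

set_option autoImplicit false

namespace Pool.Agent.SXS

open Finset

private theorem sum_sel {R M : Type*} [CommRing R] [Fintype M] {m : ℕ} (a b : Fin m) (F : M → R)
    (G : Fin m × Fin m × M → R) :
    ∑ r : Fin m × Fin m × M, (if a = r.1 ∧ b = r.2.1 then F r.2.2 else 0) * G r =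
      ∑ e, F e * G (a, b, e) := by
  rw [Fintype.sum_prod_type, Finset.sum_eq_single a]
  · rw [Fintype.sum_prod_type, Finset.sum_eq_single b]
    · exact Finset.sum_congr rfl fun e _ => by rw [if_pos ⟨rfl, rfl⟩]
    · intro b' _ hb
      refine Finset.sum_eq_zero fun e _ => ?_
      rw [if_neg (fun h => hb h.2.symm), zero_mul]
    · intro h
      exact absurd (Finset.mem_univ _) h
  · intro a' _ ha
    refine Finset.sum_eq_zero fun e _ => ?_
    rw [if_neg (fun h => ha h.1.symm), zero_mul]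
  · intro h
    exact absurd (Finset.mem_univ _) h

theorem diag_bound {p k m : ℕ} [Fact p.Prime] (D : Finset (Fin m × Fin m × E p k))
    (b c : D → D)
    (h : ∀ x y z : D, ((x : Fin m × Fin m × E p k).2.1 = (b y : Fin m × Fin m × E p k).1 ∧
        (b y : Fin m × Fin m × E p k).2.1 = (c z : Fin m × Fin m × E p k).2.1 ∧
        (x : Fin m × Fin m × E p k).1 = (c z : Fin m × Fin m × E p k).1 ∧
        (x : Fin m × Fin m × E p k).2.2 + (b y : Fin m × Fin m × E p k).2.2 =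
          (c z : Fin m × Fin m × E p k).2.2) ↔ (x = y ∧ y = z)) :
    D.card ≤ 3 * m ^ 2 * (Mon p k).card := by
  classical
  obtain ⟨A, B, C, hABC⟩ := ind_slices (p := p) (k := k)
  have key := slice_diag (F := ZMod p) (D := D) (R1 := Fin m × Fin m × Mon p k)
    (R2 := Fin m × Fin m × Mon p k) (R3 := Fin m × Fin m × Mon p k)
    (fun r x => if x.1.1 = r.1 ∧ x.1.2.1 = r.2.1 then mono r.2.2.1 x.1.2.2 else 0)
    (fun r y z => if r.2.1 = (b y).1.1 ∧ (b y).1.2.1 = (c z).1.2.1 ∧ r.1 = (c z).1.1 then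
      A r.2.2.1 (b y).1.2.2 (c z).1.2.2 else 0)
    (fun r y => if (b y).1.1 = r.1 ∧ (b y).1.2.1 = r.2.1 then mono r.2.2.1 (b y).1.2.2 else 0)
    (fun r x z => if x.1.2.1 = r.1 ∧ r.2.1 = (c z).1.2.1 ∧ x.1.1 = (c z).1.1 then
      B r.2.2.1 x.1.2.2 (c z).1.2.2 else 0)
    (fun r z => if (c z).1.1 = r.1 ∧ (c z).1.2.1 = r.2.1 then mono r.2.2.1 (c z).1.2.2 else 0)
    (fun r x y => if x.1.2.1 = (b y).1.1 ∧ (b y).1.2.1 = r.2.1 ∧ x.1.1 = r.1 then
      C r.2.2.1 x.1.2.2 (b y).1.2.2 else 0) ?_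
  · rw [Fintype.card_coe] at key
    simp only [Fintype.card_prod, Fintype.card_fin, Fintype.card_coe] at key
    calc D.card ≤ m * (m * (Mon p k).card) + m * (m * (Mon p k).card) + m * (m * (Mon p k).card) := key
      _ = 3 * m ^ 2 * (Mon p k).card := by ring
  · intro x y z
    rw [sum_sel x.1.1 x.1.2.1 (fun e : Mon p k => mono e.1 x.1.2.2),
      sum_sel (b y).1.1 (b y).1.2.1 (fun e : Mon p k => mono e.1 (b y).1.2.2),
      sum_sel (c z).1.1 (c z).1.2.1 (fun e : Mon p k => mono e.1 (c z).1.2.2)]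
    dsimp only
    by_cases hP : x.1.2.1 = (b y).1.1 ∧ (b y).1.2.1 = (c z).1.2.1 ∧ x.1.1 = (c z).1.1
    · simp only [if_pos hP]
      rw [Finset.sum_coe_sort (Mon p k) (fun e => mono e x.1.2.2 * A e (b y).1.2.2 (c z).1.2.2),
        Finset.sum_coe_sort (Mon p k) (fun e => mono e (b y).1.2.2 * B e x.1.2.2 (c z).1.2.2),
        Finset.sum_coe_sort (Mon p k) (fun e => mono e (c z).1.2.2 * C e x.1.2.2 (b y).1.2.2), ← hABC]
      refine if_congr ?_ rfl rfl
      rw [← h x y z]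
      exact ⟨fun h1 => h1.2.2.2, fun h1 => ⟨hP.1, hP.2.1, hP.2.2, h1⟩⟩
    · simp only [if_neg hP, mul_zero, Finset.sum_const_zero, add_zero]
      rw [if_neg]
      intro h1
      have h2 := (h x y z).2 h1
      exact hP ⟨h2.1, h2.2.1, h2.2.2.1⟩

end Pool.Agent.SXS
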