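import Pool.Agent.SXS.Defs

/-!
# SXS-Crd: coordinates for a free action

Orbit representatives give the coordinates.
-/

set_option autoImplicit false

namespace Pool.Agent.SXS

open Finset

private def crdSetoid {p k : ℕ} {V : Type*} (φ : Multiplicative (E p k) →* Equiv.Perm V) : Setoid V where
  r v w := ∃ g : E p k, φ (Multiplicative.ofAdd g) v = w
  iseqv := by
    refine ⟨fun v => ⟨0, ?_⟩, ?_, ?_⟩
    · rw [ofAdd_zero, map_one, Equiv.Perm.one_apply]
    · rintro v w ⟨g, hg⟩
      refine ⟨-g, ?_⟩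
      rw [← hg, ← Equiv.Perm.mul_apply, ← map_mul, ← ofAdd_add, neg_add_cancel, ofAdd_zero, map_one,
        Equiv.Perm.one_apply]
    · rintro u v w ⟨g, hg⟩ ⟨g', hg'⟩
      refine ⟨g' + g, ?_⟩
      rw [ofAdd_add, map_mul, Equiv.Perm.mul_apply, hg, hg']

private theorem crd_unique {p k : ℕ} {V : Type*} {φ : Multiplicative (E p k) →* Equiv.Perm V} (h : Free φ)
    {a b : E p k} {x : V} (hab : φ (Multiplicative.ofAdd a) x = φ (Multiplicative.ofAdd b) x) : a = b := by
  by_contra hne
  have h1 : Multiplicative.ofAdd (-b + a) ≠ 1 := by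
    intro hc
    apply hne
    have h2 : -b + a = 0 := hc
    rw [← sub_eq_neg_add] at h2
    exact sub_eq_zero.1 h2
  apply h _ h1 x
  rw [ofAdd_add, map_mul, Equiv.Perm.mul_apply, hab, ← Equiv.Perm.mul_apply, ← map_mul, ← ofAdd_add, neg_add_cancel,
    ofAdd_zero, map_one, Equiv.Perm.one_apply]

theorem exists_coord {p k : ℕ} [NeZero p] {V : Type*} [Fintype V]
    (φ : Multiplicative (E p k) →* Equiv.Perm V) (h : Free φ) :
    ∃ (m : ℕ) (ρ : V ≃ Fin m × E p k), ∀ (g : E p k) (v : V),
      ρ (φ (Multiplicative.ofAdd g) v) = ((ρ v).1, (ρ v).2 + g) := by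
  classical
  have hfin : Finite (Quotient (crdSetoid φ)) := inferInstance
  have hex : ∀ v : V, ∃ g : E p k, φ (Multiplicative.ofAdd g) (Quotient.mk (crdSetoid φ) v).out = v := by
    intro v
    exact @Quotient.mk_out V (crdSetoid φ) v
  choose G hG using hex
  have hmk : ∀ (g : E p k) (v : V), Quotient.mk (crdSetoid φ) (φ (Multiplicative.ofAdd g) v) =
      Quotient.mk (crdSetoid φ) v := by
    intro g v
    exact (Quotient.sound ⟨g, rfl⟩ : Quotient.mk (crdSetoid φ) v =
      Quotient.mk (crdSetoid φ) (φ (Multiplicative.ofAdd g) v)).symm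
  have hGu : ∀ (v : V) (g : E p k), φ (Multiplicative.ofAdd g) (Quotient.mk (crdSetoid φ) v).out = v → G v = g := by
    intro v g hg
    exact crd_unique h ((hG v).trans hg.symm)
  refine ⟨Nat.card (Quotient (crdSetoid φ)), Equiv.ofBijective
    (fun v => (Finite.equivFin (Quotient (crdSetoid φ)) (Quotient.mk (crdSetoid φ) v), G v)) ⟨?_, ?_⟩, ?_⟩
  · intro v w hvw
    have h1 := congrArg Prod.fst hvw
    have h2 : G v = G w := congrArg Prod.snd hvw
    have h3 : Quotient.mk (crdSetoid φ) v = Quotient.mk (crdSetoid φ) w := (Finite.equivFin _).injective h1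
    rw [← hG v, ← hG w, h2, h3]
  · rintro ⟨i, g⟩
    obtain ⟨q, hq⟩ := (Finite.equivFin (Quotient (crdSetoid φ))).surjective i
    have h1 : Quotient.mk (crdSetoid φ) (φ (Multiplicative.ofAdd g) q.out) = q := by
      rw [hmk]
      exact Quotient.out_eq q
    refine ⟨φ (Multiplicative.ofAdd g) q.out, ?_⟩
    show (Finite.equivFin (Quotient (crdSetoid φ)) (Quotient.mk (crdSetoid φ) _), G _) = (i, g)
    rw [h1, hq]
    congr 1
    apply hGu
    rw [h1]
  · intro g v
    show (Finite.equivFin (Quotient (crdSetoid φ)) (Quotient.mk (crdSetoid φ) _), G _) =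
      (Finite.equivFin (Quotient (crdSetoid φ)) (Quotient.mk (crdSetoid φ) v), G v + g)
    rw [hmk]
    congr 1
    apply hGu
    rw [hmk, add_comm, ofAdd_add, map_mul, Equiv.Perm.mul_apply, hG]

theorem card_coord {p k m : ℕ} [NeZero p] {V : Type*} [Fintype V] (ρ : V ≃ Fin m × E p k) :
    Fintype.card V = m * p ^ k := by
  rw [Fintype.card_congr ρ, Fintype.card_prod, Fintype.card_fin, Fintype.card_fun, ZMod.card, Fintype.card_fin]

end Pool.Agent.SXS
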