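import Pool.Agent.SXS.BldB
import Pool.Agent.SXS.MatB

/-!
# SXS-Cyc: the lower bound for free actions of abelian groups of bounded rank

Progression-free sets in the cyclic groups `ℤ/M`, `ℤ/N i` give a matching in the product, then `build`.
-/

set_option autoImplicit false

namespace Pool.Agent.SXS

open Finset Real Pool.Agent.RSV

private theorem cyc_exp {n : ℕ} (hn : 3 ≤ n) : (25 : ℝ) ≤ exp (4 * √(log n)) := by
  have h0 : (3 : ℝ) ≤ n := by exact_mod_cast hn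
  have h1 : (1 : ℝ) ≤ log n := by
    rw [Real.le_log_iff_exp_le (by linarith)]
    have := Real.exp_one_lt_d9
    linarith
  have h2 : (1 : ℝ) ≤ √(log n) := by
    rw [Real.one_le_sqrt]
    exact h1
  have h3 : exp 4 ≤ exp (4 * √(log n)) := Real.exp_le_exp.2 (by linarith)
  have h4 : exp (4 : ℝ) = exp 1 ^ 4 := by
    rw [← Real.exp_nat_mul]
    norm_num
  have h5 : (2.7 : ℝ) < exp 1 := lt_trans (by norm_num) Real.exp_one_gt_d9
  have h6 : (2.7 : ℝ) ^ 4 ≤ exp 1 ^ 4 := pow_le_pow_left₀ (by norm_num) h5.le 4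
  have h7 : (25 : ℝ) ≤ (2.7 : ℝ) ^ 4 := by norm_num
  rw [h4] at h3
  linarith

private theorem cyc_mono {C1 : ℝ} (hC : 0 < C1) {M n : ℕ} (hM : 1 ≤ M) (hMn : M ≤ n) :
    (M : ℝ) * exp (-C1 * √(log n)) ≤ (M : ℝ) * exp (-C1 * √(log M)) := by
  refine mul_le_mul_of_nonneg_left (Real.exp_le_exp.2 ?_) (Nat.cast_nonneg _)
  have h1 : (0 : ℝ) < M := by exact_mod_cast hM
  have h2 : log (M : ℝ) ≤ log n := Real.log_le_log h1 (by exact_mod_cast hMn)
  have h3 : √(log (M : ℝ)) ≤ √(log n) := Real.sqrt_le_sqrt h2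
  nlinarith

theorem lower_rank (r : ℕ) : ∃ C > (0 : ℝ), ∀ (n : ℕ) (N : Fin r → ℕ), (∀ i, 1 ≤ N i) →
    (∏ i, N i) ∣ n → 3 * ∏ i, N i ≤ n →
    ∃ (H : Finset (Finset (Fin n)))
      (φ : Multiplicative (∀ i, ZMod (N i)) →* Equiv.Perm (Fin n)),
      Three H ∧ SixThree H ∧ Auts H φ ∧ Free φ ∧
      (n : ℝ) ^ 2 * exp (-C * √(log n)) ≤ H.card := by
  classical
  obtain ⟨C1, hC1, hapf⟩ := exists_apf
  refine ⟨C1 * (r + 1) + 4, by positivity, ?_⟩
  intro n N hN hdvd hle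
  have hNne : ∀ i, NeZero (N i) := fun i => ⟨by have := hN i; omega⟩
  obtain ⟨m, hm⟩ := hdvd
  obtain ⟨P, hP⟩ : ∃ P, P = ∏ i, N i := ⟨_, rfl⟩
  rw [← hP] at hm hle
  have hP1 : 1 ≤ P := by
    rw [hP]
    exact Nat.one_le_iff_ne_zero.2 (Finset.prod_ne_zero_iff.2 fun i _ => by have := hN i; omega)
  have hm3 : 3 ≤ m := by
    by_contra h
    have h1 : P * m ≤ P * 2 := Nat.mul_le_mul_left P (by omega)
    omega
  obtain ⟨M, hM⟩ : ∃ M, M = m / 3 := ⟨_, rfl⟩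
  have hM1 : 1 ≤ M := by omega
  have hM3 : 3 * M ≤ m := by omega
  have hM5 : m ≤ 5 * M := by omega
  have hMne : NeZero M := ⟨by omega⟩
  have hcard : Fintype.card (∀ i, ZMod (N i)) = P := by
    rw [Fintype.card_pi, hP]
    exact Finset.prod_congr rfl fun i _ => ZMod.card (N i)
  have hn3 : 3 ≤ n := by
    have h1 : 3 * 1 ≤ 3 * P := Nat.mul_le_mul_left 3 hP1
    omega
  have hMPn : 3 * (M * P) ≤ n := by
    rw [hm]
    calc 3 * (M * P) = P * (3 * M) := by ring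
      _ ≤ P * m := Nat.mul_le_mul_left P hM3
  -- the matchings
  obtain ⟨B0, hB0, hB0c⟩ := hapf M
  obtain ⟨S0, hS0, hS0c⟩ := mat_of_apf hB0
  have hch : ∀ i, ∃ S : Finset (ZMod (N i) × ZMod (N i)), Mat S ∧
      (N i : ℝ) * exp (-C1 * √(log (N i))) ≤ S.card := by
    intro i
    obtain ⟨B, hB, hBc⟩ := hapf (N i)
    obtain ⟨S, hS, hSc⟩ := mat_of_apf hB
    exact ⟨S, hS, by rw [hSc]; exact hBc⟩
  choose S hS hSc using hch
  obtain ⟨T, hT, hTc⟩ := mat_pi hS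
  obtain ⟨U, hU, hUc⟩ := mat_prod hS0 hT
  obtain ⟨H, φ, h1, h2, h3, h4, h5⟩ := build (A := ∀ i, ZMod (N i)) (M := M) (n := n)
    (by rw [hcard, hm]; exact Dvd.intro m rfl) (by rw [hcard]; exact hMPn) hU
  refine ⟨H, φ, h1, h2, h3, h4, ?_⟩
  rw [h5, hcard, hUc, hS0c, hTc]
  push_cast
  obtain ⟨E, hE⟩ : ∃ E : ℝ, E = exp (-C1 * √(log n)) := ⟨_, rfl⟩
  have hE0 : 0 < E := by rw [hE]; exact Real.exp_pos _
  have hMle : M ≤ n := by
    have : M * 1 ≤ M * P := Nat.mul_le_mul_left M hP1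
    omega
  have hPle : P ≤ n := by omega
  have e1 : (M : ℝ) * E ≤ B0.card := by
    rw [hE]
    exact (cyc_mono hC1 hM1 hMle).trans hB0c
  have e2 : ∀ i, (N i : ℝ) * E ≤ (S i).card := by
    intro i
    rw [hE]
    refine (cyc_mono hC1 (hN i) ?_).trans (hSc i)
    refine le_trans (Nat.le_of_dvd (by omega) ?_) hPle
    rw [hP]
    exact Finset.dvd_prod_of_mem N (Finset.mem_univ i)
  have e3 : (P : ℝ) * E ^ r ≤ ∏ i, ((S i).card : ℝ) := by
    have h6 : (P : ℝ) * E ^ r = ∏ i, ((N i : ℝ) * E) := by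
      rw [Finset.prod_mul_distrib, Finset.prod_const, Finset.card_univ, Fintype.card_fin, hP]
      push_cast
      rfl
    rw [h6]
    exact Finset.prod_le_prod (fun i _ => by positivity) fun i _ => e2 i
  have e4 : ((M : ℝ) * E) * ((P : ℝ) * E ^ r) ≤ (B0.card : ℝ) * ∏ i, ((S i).card : ℝ) :=
    mul_le_mul e1 e3 (by positivity) (by positivity)
  have e5 : exp (-(C1 * ((r : ℝ) + 1) + 4) * √(log n)) * exp (4 * √(log n)) = E ^ (r + 1) := by
    rw [← Real.exp_add, hE, ← Real.exp_nat_mul]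
    congr 1
    push_cast
    ring
  have e6 := cyc_exp hn3
  obtain ⟨F, hF⟩ : ∃ F : ℝ, F = exp (-(C1 * ((r : ℝ) + 1) + 4) * √(log n)) := ⟨_, rfl⟩
  have hF0 : 0 < F := by rw [hF]; exact Real.exp_pos _
  rw [← hF] at e5 ⊢
  have e7 : F * 25 ≤ E ^ (r + 1) := by
    rw [← e5]
    exact mul_le_mul_of_nonneg_left e6 hF0.le
  have e8 : (n : ℝ) ≤ 5 * (M * P) := by
    have h6 : n ≤ 5 * (M * P) := by
      rw [hm]
      calc P * m ≤ P * (5 * M) := Nat.mul_le_mul_left P hM5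
        _ = 5 * (M * P) := by ring
    exact_mod_cast h6
  have e9 : (n : ℝ) ^ 2 ≤ 25 * ((M : ℝ) * P) ^ 2 := by
    have h6 : (n : ℝ) ^ 2 ≤ (5 * ((M : ℝ) * P)) ^ 2 := pow_le_pow_left₀ (Nat.cast_nonneg _) e8 2
    linarith
  calc (n : ℝ) ^ 2 * F ≤ (25 * ((M : ℝ) * P) ^ 2) * F := mul_le_mul_of_nonneg_right e9 hF0.le
    _ = ((M : ℝ) * P) ^ 2 * (F * 25) := by ring
    _ ≤ ((M : ℝ) * P) ^ 2 * E ^ (r + 1) := mul_le_mul_of_nonneg_left e7 (by positivity)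
    _ = (M : ℝ) * P * (((M : ℝ) * E) * ((P : ℝ) * E ^ r)) := by ring
    _ ≤ (M : ℝ) * P * ((B0.card : ℝ) * ∏ i, ((S i).card : ℝ)) :=
        mul_le_mul_of_nonneg_left e4 (by positivity)

end Pool.Agent.SXS
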