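import Pool.Agent.RSV.NT

/-!
# Project SXS (MP_3cac6c_co): the (6,3) problem for 3-graphs with a group of automorphisms. Definitions.

`Three`, `SixThree`, `Linear`, `NoTri`, `nb`, `deg`: see `RSV/Defs.lean`; `noTri_of_sixThree`,
`sixThree_of_noTri`, `noTri_of_linear`: `RSV/NT.lean`.
DO NOT CHANGE.
-/

set_option autoImplicit false

namespace Pool.Agent.SXS

open Finset Pool.Agent.RSV

/-- the group `(ℤ/p)^k` (written additively) -/
abbrev E (p k : ℕ) : Type := Fin k → ZMod p

/-- the group acts by automorphisms of the hypergraph `H` -/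
def Auts {V A : Type*} [DecidableEq V] [Group A] (H : Finset (Finset V)) (φ : A →* Equiv.Perm V) :
    Prop :=
  ∀ g : A, ∀ e ∈ H, e.image (φ g) ∈ H

/-- only the identity has a fixed vertex -/
def Free {V A : Type*} [Group A] (φ : A →* Equiv.Perm V) : Prop :=
  ∀ g : A, g ≠ 1 → ∀ v : V, φ g v ≠ v

/-- all orbits have at least `K` elements -/
def Orb {V A : Type*} [Group A] (φ : A →* Equiv.Perm V) (K : ℕ) : Prop :=
  ∀ v : V, K ≤ (Set.range fun g : A => φ g v).ncard

/-- `g_p(t) = t ^ (-(p-1)/3) (1 + t + ... + t^(p-1))` -/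
noncomputable def gp (p : ℕ) (t : ℝ) : ℝ := t ^ (-(((p : ℝ) - 1) / 3)) * ∑ j ∈ range p, t ^ j

/-- exponents of the monomials of degree at most `(p-1)k/3` -/
def Mon (p k : ℕ) : Finset (Fin k → Fin p) :=
  univ.filter fun e => 3 * ∑ i, (e i : ℕ) ≤ (p - 1) * k

/-- the monomial with exponents `e` -/
def mono {p k : ℕ} (e : Fin k → Fin p) (s : E p k) : ZMod p := ∏ i, s i ^ (e i : ℕ)

/-- `S` is a matching for the equation `s + t = u` (a tricolored sum-free set) -/
def Mat {G : Type*} [Add G] (S : Finset (G × G)) : Prop :=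
  ∀ a ∈ S, ∀ b ∈ S, ∀ c ∈ S, a.1 + b.2 = c.1 + c.2 → a = c ∧ b = c

/-- the linear part of a hypergraph -/
def lin {V : Type*} [DecidableEq V] (H : Finset (Finset V)) : Finset (Finset V) :=
  H.filter fun e => ∀ f ∈ H, f ≠ e → (e ∩ f).card ≤ 1

/-- the shadow pairs modulo the group: `(i, j, s)` stands for the pair `(i, 0), (j, s)` -/
def Dd {p k m : ℕ} [NeZero p] (H : Finset (Finset (Fin m × E p k))) :
    Finset (Fin m × Fin m × E p k) :=
  univ.filter fun x => (x.2.1, x.2.2) ∈ nb H (x.1, 0)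

/-- `H` is invariant under the translations of the second coordinate -/
def Inv {p k m : ℕ} (H : Finset (Finset (Fin m × E p k))) : Prop :=
  ∀ g : E p k, ∀ e ∈ H, e.image (fun v => (v.1, v.2 + g)) ∈ H

/-- The tripartite hypergraph of a matching `S` in the group `G`, on the vertices `G × Fin 3`. -/
def hyp3 {G : Type*} [Fintype G] [DecidableEq G] [Add G] (S : Finset (G × G)) :
    Finset (Finset (G × Fin 3)) :=
  (univ ×ˢ S).image fun w : G × (G × G) =>
    {(w.1, 0), (w.1 + w.2.1, 1), (w.1 + (w.2.1 + w.2.2), 2)}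

end Pool.Agent.SXS
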