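import Pool.Agent.SXS.Defs
import Pool.Agent.RSV.LinR

/-!
# SXS-Lin: the linear part

As in `RSV/LinR`; automorphisms preserve the linear part.
-/

set_option autoImplicit false

namespace Pool.Agent.SXS

open Finset Pool.Agent.RSV

variable {V : Type*} [DecidableEq V]

theorem lin_sub (H : Finset (Finset V)) : lin H ⊆ H := filter_subset _ _

private theorem ls_key {H : Finset (Finset V)} (h3 : Three H)
    (hN : NoTri H) {e f g : Finset V} (he : e ∈ H) (hf : f ∈ H) (hg : g ∈ H) (hef : e ≠ f)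
    (hfg : f ≠ g) (heg : e ≠ g) (h2 : 2 ≤ (e ∩ f).card) {v : V} (hv : v ∈ e ∪ f) : v ∉ g := by
  intro hvg
  have h1 := hN e he f hf g hg hef hfg heg
  have h4 := card_union_add_card_inter e f
  have h5 := card_union_add_card_inter (e ∪ f) g
  have h6 : 1 ≤ ((e ∪ f) ∩ g).card := card_pos.2 ⟨v, mem_inter.2 ⟨hv, hvg⟩⟩
  have := h3 e he
  have := h3 f hf
  have := h3 g hg
  omega

private theorem ls_bad {H : Finset (Finset V)} {e : Finset V} (he : e ∈ H \ lin H) :
    ∃ f ∈ H, f ≠ e ∧ 2 ≤ (e ∩ f).card := by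
  rw [mem_sdiff] at he
  by_contra hcon
  push Not at hcon
  apply he.2
  unfold lin
  rw [mem_filter]
  refine ⟨he.1, fun f hf hfe => ?_⟩
  have := hcon f hf hfe
  omega

theorem lin_linear (H : Finset (Finset V)) : Linear (lin H) := by
  intro e he f hf hef
  exact (mem_filter.1 he).2 f (mem_filter.1 hf).1 (Ne.symm hef)

theorem lin_card [Fintype V] {H : Finset (Finset V)} (h3 : Three H) (hN : NoTri H) :
    3 * H.card ≤ 3 * (lin H).card + 2 * Fintype.card V := by
  have hsplit := card_sdiff_add_card_eq_card (lin_sub H)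
  have hdc : ∑ e ∈ H \ lin H, e.card = ∑ v : V, ((H \ lin H).filter (fun e => v ∈ e)).card := by
    have h1 : ∀ e ∈ H \ lin H, e.card = ∑ v : V, if v ∈ e then 1 else 0 := by
      intro e _
      rw [sum_boole]
      simp
    rw [sum_congr rfl h1, sum_comm]
    refine sum_congr rfl fun v _ => ?_
    rw [sum_boole]
    simp
  have h3c : ∑ e ∈ H \ lin H, e.card = 3 * (H \ lin H).card := by
    rw [sum_congr rfl (fun e he => h3 e (mem_sdiff.1 he).1), sum_const, smul_eq_mul, mul_comm]
  have hle : ∀ v : V, ((H \ lin H).filter (fun e => v ∈ e)).card ≤ 2 := by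
    intro v
    by_contra hcon
    rw [not_le] at hcon
    obtain ⟨e, f', g, he, hf', hg, hef, heg, hfg⟩ := two_lt_card_iff.1 hcon
    rw [mem_filter] at he hf' hg
    obtain ⟨f, hf, hfe, h2⟩ := ls_bad he.1
    have heH : e ∈ H := (mem_sdiff.1 he.1).1
    rcases eq_or_ne f f' with h | h
    · have h' : f ≠ g := by rw [h]; exact hfg
      exact ls_key h3 hN heH hf (mem_sdiff.1 hg.1).1 (Ne.symm hfe) h' heg h2
        (mem_union_left _ he.2) hg.2
    · exact ls_key h3 hN heH hf (mem_sdiff.1 hf'.1).1 (Ne.symm hfe) h hef h2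
        (mem_union_left _ he.2) hf'.2
  have h4 : ∑ v : V, ((H \ lin H).filter (fun e => v ∈ e)).card ≤
      ∑ _v : V, 2 := sum_le_sum fun v _ => hle v
  rw [sum_const, smul_eq_mul, card_univ] at h4
  omega

theorem lin_auts {A : Type*} [Group A] {H : Finset (Finset V)} {φ : A →* Equiv.Perm V}
    (h : Auts H φ) : Auts (lin H) φ := by
  intro g e he
  unfold lin at he ⊢
  rw [mem_filter] at he ⊢
  refine ⟨h g e he.1, fun f hf hfe => ?_⟩
  have hf1 : (f.image (φ g⁻¹)).image (φ g) = f := by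
    rw [image_image]
    have h1 : (φ g : V → V) ∘ (φ g⁻¹ : V → V) = id := by
      funext v
      show φ g (φ g⁻¹ v) = v
      rw [← Equiv.Perm.mul_apply, ← map_mul, mul_inv_cancel, map_one, Equiv.Perm.one_apply]
    rw [h1, image_id]
  have hf2 : f.image (φ g⁻¹) ≠ e := by
    intro hc
    apply hfe
    rw [← hc, hf1]
  have h2 := he.2 (f.image (φ g⁻¹)) (h g⁻¹ f hf) hf2
  rw [← hf1, ← image_inter _ _ (φ g).injective, card_image_of_injective _ (φ g).injective]
  exact h2

end Pool.Agent.SXS
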