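import Pool.Agent.SXS.Crd
import Pool.Agent.SXS.Lin

/-!
# SXS-Few: free actions of `(ℤ/2)^k` with at most two orbits
-/

set_option autoImplicit false

namespace Pool.Agent.SXS

open Finset Pool.Agent.RSV

private theorem few_mem {V : Type*} [DecidableEq V] {H : Finset (Finset V)} {e : Finset V} :
    e ∈ lin H ↔ e ∈ H ∧ ∀ f ∈ H, f ≠ e → (e ∩ f).card ≤ 1 := by
  unfold lin
  rw [mem_filter]

theorem few_orbits {k n : ℕ} (hn : 6 ≤ n) (hk : n < 3 * 2 ^ k) {H : Finset (Finset (Fin n))}
    (h3 : Three H) (h6 : SixThree H) (φ : Multiplicative (E 2 k) →* Equiv.Perm (Fin n))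
    (hA : Auts H φ) (hF : Free φ) : 3 * H.card ≤ 2 * n := by
  classical
  obtain ⟨m, ρ, hρ⟩ := exists_coord φ hF
  have hm : m < 3 := by
    have h1 := card_coord ρ
    rw [Fintype.card_fin] at h1
    rw [h1] at hk
    exact Nat.lt_of_mul_lt_mul_right hk
  have hlin : lin H = ∅ := by
    apply eq_empty_of_forall_notMem
    intro e he
    obtain ⟨heH, hel⟩ := few_mem.1 he
    have hec := h3 e heH
    obtain ⟨v, hv, v', hv', hne, hvv⟩ := exists_ne_map_eq_of_card_lt_of_maps_to (s := e) (t := (univ : Finset (Fin m)))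
      (f := fun v => (ρ v).1) (by rw [card_univ, Fintype.card_fin, hec]; exact hm) (fun a _ => mem_coe.2 (mem_univ _))
    have hvv' : (ρ v).1 = (ρ v').1 := hvv
    obtain ⟨g, hg⟩ : ∃ g : E 2 k, g = (ρ v').2 - (ρ v).2 := ⟨_, rfl⟩
    have hg0 : g ≠ 0 := by
      intro h0
      rw [h0] at hg
      exact hne (ρ.injective (Prod.ext hvv' (sub_eq_zero.1 hg.symm).symm))
    have hg1 : Multiplicative.ofAdd g ≠ 1 := fun h => hg0 h
    have s1 : φ (Multiplicative.ofAdd g) v = v' := by
      apply ρ.injective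
      rw [hρ, hvv', hg, add_sub_cancel]
    have s2 : φ (Multiplicative.ofAdd g) v' = v := by
      apply ρ.injective
      rw [hρ]
      refine Prod.ext hvv'.symm ?_
      show (ρ v').2 + g = (ρ v).2
      rw [hg]
      ext i
      have h2 : ∀ a b : ZMod 2, a + (a - b) = b := by decide
      exact h2 _ _
    have hf := hA (Multiplicative.ofAdd g) e heH
    have hvf : v ∈ e.image (φ (Multiplicative.ofAdd g)) := mem_image.2 ⟨v', hv', s2⟩
    have hvf' : v' ∈ e.image (φ (Multiplicative.ofAdd g)) := mem_image.2 ⟨v, hv, s1⟩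
    have hfe : e.image (φ (Multiplicative.ofAdd g)) ≠ e := by
      intro hfe
      have h4 : v' ∈ e.erase v := mem_erase.2 ⟨hne.symm, hv'⟩
      have h5 : ((e.erase v).erase v').card = 1 := by
        rw [card_erase_of_mem h4, card_erase_of_mem hv, hec]
      obtain ⟨w, hw⟩ := card_eq_one.1 h5
      have h7 : w ∈ (e.erase v).erase v' := by
        rw [hw]
        exact mem_singleton_self w
      have h8 := mem_erase.1 h7
      have h9 := mem_erase.1 h8.2
      have h10 : φ (Multiplicative.ofAdd g) w ∈ e := by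
        rw [← hfe]
        exact mem_image.2 ⟨w, h9.2, rfl⟩
      have h11 : φ (Multiplicative.ofAdd g) w ≠ v := fun h =>
        h8.1 ((φ (Multiplicative.ofAdd g)).injective (h.trans s2.symm))
      have h12 : φ (Multiplicative.ofAdd g) w ≠ v' := fun h =>
        h9.1 ((φ (Multiplicative.ofAdd g)).injective (h.trans s1.symm))
      have h13 : φ (Multiplicative.ofAdd g) w ∈ (e.erase v).erase v' :=
        mem_erase.2 ⟨h12, mem_erase.2 ⟨h11, h10⟩⟩
      rw [hw, mem_singleton] at h13
      exact hF _ hg1 w h13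
    have h14 := hel _ hf hfe
    have h15 : ({v, v'} : Finset (Fin n)) ⊆ e ∩ e.image (φ (Multiplicative.ofAdd g)) := by
      intro u hu
      rcases mem_insert.1 hu with hu | hu
      · rw [hu]
        exact mem_inter.2 ⟨hv, hvf⟩
      · rw [mem_singleton.1 hu]
        exact mem_inter.2 ⟨hv', hvf'⟩
    have h16 := card_le_card h15
    rw [card_pair hne] at h16
    omega
  have h17 := lin_card h3 (noTri_of_sixThree hn h6)
  rw [hlin, card_empty, Fintype.card_fin] at h17
  omega

end Pool.Agent.SXS
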