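import Pool.Agent.SXS.CWD

/-!
# SXS-MatC: from families of pairs of sets to matchings in `(ℤ/2)^k`

Indicator functions, and extension by zeros.
-/

set_option autoImplicit false

namespace Pool.Agent.SXS

open Finset

private def mcInd {N : ℕ} (A : Finset (Fin N)) : E 2 N := fun i => if i ∈ A then 1 else 0

private theorem mcInd_inj {N : ℕ} {A B : Finset (Fin N)} (h : mcInd A = mcInd B) : A = B := by
  ext i
  have h1 := congrFun h i
  unfold mcInd at h1
  by_cases hA : i ∈ A
  · by_cases hB : i ∈ B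
    · exact ⟨fun _ => hB, fun _ => hA⟩
    · rw [if_pos hA, if_neg hB] at h1
      exact absurd h1 (by decide)
  · by_cases hB : i ∈ B
    · rw [if_neg hA, if_pos hB] at h1
      exact absurd h1 (by decide)
    · exact ⟨fun h => absurd h hA, fun h => absurd h hB⟩

private theorem mc_key {N : ℕ} {A B C D : Finset (Fin N)} {m : ℕ} (hA : A.card = m) (hB : B.card = m)
    (hC : C.card = m) (hD : D.card = m) (hCD : Disjoint C D) (h : mcInd A + mcInd B = mcInd C + mcInd D) :
    Disjoint A B ∧ A ∪ B = C ∪ D := by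
  have hsub : C ∪ D ⊆ A ∪ B := by
    intro i hi
    by_contra hcon
    rw [mem_union, not_or] at hcon
    have h1 := congrFun h i
    simp only [mcInd, Pi.add_apply] at h1
    rw [if_neg hcon.1, if_neg hcon.2] at h1
    rcases mem_union.1 hi with h2 | h2
    · have h3 : i ∉ D := fun h3 => disjoint_left.1 hCD h2 h3
      rw [if_pos h2, if_neg h3] at h1
      exact absurd h1 (by decide)
    · have h3 : i ∉ C := fun h3 => disjoint_left.1 hCD h3 h2
      rw [if_pos h2, if_neg h3] at h1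
      exact absurd h1 (by decide)
  have h1 := card_union_of_disjoint hCD
  have h2 := card_union_add_card_inter A B
  have h3 := card_le_card hsub
  have h4 : (A ∩ B).card = 0 := by omega
  refine ⟨disjoint_iff_inter_eq_empty.2 (card_eq_zero.1 h4), (eq_of_subset_of_card_le hsub (by omega)).symm⟩

private def mcExt {p k l : ℕ} (s : E p k) : E p l := fun i => if h : (i : ℕ) < k then s ⟨i, h⟩ else 0

private theorem mcExt_inj {p k l : ℕ} (hkl : k ≤ l) {s t : E p k} (h : (mcExt s : E p l) = mcExt t) : s = t := by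
  funext i
  have h1 := congrFun h ⟨i.val, lt_of_lt_of_le i.isLt hkl⟩
  unfold mcExt at h1
  rw [dif_pos i.isLt, dif_pos i.isLt] at h1
  exact h1

private theorem mcExt_add {p k l : ℕ} (s t : E p k) : (mcExt (s + t) : E p l) = mcExt s + mcExt t := by
  funext i
  simp only [mcExt, Pi.add_apply]
  by_cases h : (i : ℕ) < k
  · rw [dif_pos h, dif_pos h, dif_pos h]
  · rw [dif_neg h, dif_neg h, dif_neg h, add_zero]

theorem mat_three {m : ℕ} {F : Finset (Finset (Fin (3 * m)) × Finset (Fin (3 * m)))}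
    (hP : F ⊆ Par m)
    (hF : ∀ x ∈ F, ∀ y ∈ F, ∀ z ∈ F, Disjoint x.1 y.2 → x.1 ∪ y.2 = z.1 ∪ z.2 → x = z ∧ y = z) :
    ∃ S : Finset (E 2 (3 * m) × E 2 (3 * m)), Mat S ∧ S.card = F.card := by
  refine ⟨F.image (fun x => (mcInd x.1, mcInd x.2)), ?_, ?_⟩
  · intro a ha b hb c hc h
    obtain ⟨x, hx, rfl⟩ := mem_image.1 ha
    obtain ⟨y, hy, rfl⟩ := mem_image.1 hb
    obtain ⟨z, hz, rfl⟩ := mem_image.1 hc
    have hx' := (mem_filter.1 (hP hx)).2
    have hy' := (mem_filter.1 (hP hy)).2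
    have hz' := (mem_filter.1 (hP hz)).2
    obtain ⟨h1, h2⟩ := mc_key hx'.1 hy'.2.1 hz'.1 hz'.2.1 hz'.2.2 h
    obtain ⟨h3, h4⟩ := hF x hx y hy z hz h1 h2
    rw [h3, h4]
    exact ⟨rfl, rfl⟩
  · apply card_image_of_injective
    intro x y hxy
    have h1 : mcInd x.1 = mcInd y.1 := congrArg Prod.fst hxy
    have h2 : mcInd x.2 = mcInd y.2 := congrArg Prod.snd hxy
    exact Prod.ext (mcInd_inj h1) (mcInd_inj h2)

theorem mat_pad {p k l : ℕ} (hkl : k ≤ l) {S : Finset (E p k × E p k)} (hS : Mat S) :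
    ∃ T : Finset (E p l × E p l), Mat T ∧ T.card = S.card := by
  classical
  refine ⟨S.image (fun x => (mcExt x.1, mcExt x.2)), ?_, ?_⟩
  · intro a ha b hb c hc h
    obtain ⟨x, hx, rfl⟩ := mem_image.1 ha
    obtain ⟨y, hy, rfl⟩ := mem_image.1 hb
    obtain ⟨z, hz, rfl⟩ := mem_image.1 hc
    have h0 : (mcExt x.1 : E p l) + mcExt y.2 = mcExt z.1 + mcExt z.2 := h
    rw [← mcExt_add, ← mcExt_add] at h0
    obtain ⟨h3, h4⟩ := hS x hx y hy z hz (mcExt_inj hkl h0)
    rw [h3, h4]
    exact ⟨rfl, rfl⟩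
  · apply card_image_of_injective
    intro x y hxy
    have h1 : (mcExt x.1 : E p l) = mcExt y.1 := congrArg Prod.fst hxy
    have h2 : (mcExt x.2 : E p l) = mcExt y.2 := congrArg Prod.snd hxy
    exact Prod.ext (mcExt_inj hkl h1) (mcExt_inj hkl h2)

end Pool.Agent.SXS
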