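import Pool.Agent.SXS.CWC
import Pool.Agent.SXS.MatB
import Pool.Agent.SXS.MatC
import Pool.Agent.SXS.Bin

/-!
# SXS-MatD: large matchings in `(ℤ/2)^k` (`exists_apf`, `cw_avg`, `mat_three`, `mat_pad`, `choose_three_ge`)
-/

set_option autoImplicit false

namespace Pool.Agent.SXS

open Finset Real

private theorem matD_cube : (3 / 2 ^ (2 / 3 : ℝ) : ℝ) ^ 3 = 27 / 4 := by
  have h1 : ((2 : ℝ) ^ (2 / 3 : ℝ)) ^ 3 = 4 := by
    rw [← Real.rpow_natCast, ← Real.rpow_mul (by norm_num)]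
    norm_num
  rw [div_pow, h1]
  norm_num

private theorem matD_le_two : (3 / 2 ^ (2 / 3 : ℝ) : ℝ) ≤ 2 := by
  have h0 : (0 : ℝ) ≤ 3 / 2 ^ (2 / 3 : ℝ) := by positivity
  have h1 := matD_cube
  by_contra hcon
  push Not at hcon
  have h2 : (2 : ℝ) ^ 3 < (3 / 2 ^ (2 / 3 : ℝ) : ℝ) ^ 3 := pow_lt_pow_left₀ hcon (by norm_num) (by norm_num)
  rw [h1] at h2
  norm_num at h2

private theorem matD_exp_two : (7 : ℝ) ≤ exp 2 := by
  have h1 : exp 2 = exp 1 * exp 1 := by rw [← Real.exp_add]; norm_num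
  have h2 := Real.exp_one_gt_d9
  rw [h1]
  nlinarith

/-- the elementary estimate -/
private theorem matD_est {m r k : ℕ} (hr : r ≤ 2) (hk : k = 3 * m + r) :
    14 * (3 * (m : ℝ) + 1) * (3 / 2 ^ (2 / 3 : ℝ) : ℝ) ^ r ≤ exp (7 * √((k : ℝ) + 1)) := by
  obtain ⟨t, ht⟩ : ∃ t, t = √((k : ℝ) + 1) := ⟨_, rfl⟩
  have ht1 : 1 ≤ t := by
    rw [ht, Real.one_le_sqrt]
    have : (0 : ℝ) ≤ k := Nat.cast_nonneg _
    linarith
  have ht2 : t ^ 2 = (k : ℝ) + 1 := by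
    rw [ht]
    exact Real.sq_sqrt (by positivity)
  rw [← ht]
  have h1 : (3 / 2 ^ (2 / 3 : ℝ) : ℝ) ^ r ≤ 4 := by
    calc (3 / 2 ^ (2 / 3 : ℝ) : ℝ) ^ r ≤ 2 ^ r := pow_le_pow_left₀ (by positivity) matD_le_two r
      _ ≤ 2 ^ 2 := pow_le_pow_right₀ (by norm_num) hr
      _ = 4 := by norm_num
  have h2 : 3 * (m : ℝ) + 1 ≤ t ^ 2 := by
    rw [ht2, hk]
    push_cast
    have : (0 : ℝ) ≤ r := Nat.cast_nonneg _
    linarith
  have h3 : t ≤ exp t := by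
    have := Real.add_one_le_exp t
    linarith
  have h4 : t ^ 2 ≤ exp (2 * t) := by
    have h5 : exp (2 * t) = exp t * exp t := by rw [← Real.exp_add]; ring_nf
    rw [h5, sq]
    exact mul_le_mul h3 h3 (by linarith) (Real.exp_pos t).le
  have h6 : (56 : ℝ) ≤ exp (5 * t) := by
    have h7 : exp (5 : ℝ) ≤ exp (5 * t) := Real.exp_le_exp.2 (by linarith)
    have h8 : exp (5 : ℝ) = exp 2 * exp 2 * exp 1 := by
      rw [← Real.exp_add, ← Real.exp_add]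
      norm_num
    have h9 := matD_exp_two
    have h10 : (2 : ℝ) ≤ exp 1 := by
      have := Real.exp_one_gt_d9
      linarith
    have h11 : (49 : ℝ) ≤ exp 2 * exp 2 := by nlinarith
    have h12 : (98 : ℝ) ≤ exp 2 * exp 2 * exp 1 := by nlinarith
    linarith
  have h13 : (0 : ℝ) ≤ 3 * (m : ℝ) + 1 := by positivity
  calc 14 * (3 * (m : ℝ) + 1) * (3 / 2 ^ (2 / 3 : ℝ) : ℝ) ^ r ≤ 14 * (3 * (m : ℝ) + 1) * 4 :=
        mul_le_mul_of_nonneg_left h1 (by positivity)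
    _ = 56 * (3 * (m : ℝ) + 1) := by ring
    _ ≤ exp (5 * t) * exp (2 * t) := mul_le_mul h6 (h2.trans h4) h13 (Real.exp_pos _).le
    _ = exp (7 * t) := by rw [← Real.exp_add]; ring_nf

/-- the logarithm of the modulus -/
private theorem matD_log {m k M : ℕ} (hmk : m ≤ k) (hM : 1 ≤ M) (h : M ≤ 7 * (2 * m).choose m) :
    √(log M) ≤ 2 * √((k : ℝ) + 1) := by
  have h1 : (2 * m).choose m ≤ 4 ^ m := by
    have h2 := Nat.choose_le_two_pow (2 * m) m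
    rwa [pow_mul] at h2
  have h2 : (M : ℝ) ≤ exp (4 * ((k : ℝ) + 1)) := by
    have h3 : (M : ℝ) ≤ 7 * (4 : ℝ) ^ m := by
      have h4 : M ≤ 7 * 4 ^ m := h.trans (Nat.mul_le_mul_left 7 h1)
      exact_mod_cast h4
    have h5 : (4 : ℝ) ^ m ≤ exp (2 * (k : ℝ)) := by
      calc (4 : ℝ) ^ m ≤ (exp 2) ^ m := pow_le_pow_left₀ (by norm_num) (by linarith [matD_exp_two]) m
        _ ≤ (exp 2) ^ k := pow_le_pow_right₀ (by linarith [matD_exp_two]) hmk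
        _ = exp (2 * (k : ℝ)) := by rw [← Real.exp_nat_mul, mul_comm]
    calc (M : ℝ) ≤ 7 * (4 : ℝ) ^ m := h3
      _ ≤ exp 2 * exp (2 * (k : ℝ)) := mul_le_mul matD_exp_two h5 (by positivity) (Real.exp_pos _).le
      _ = exp (2 + 2 * (k : ℝ)) := by rw [← Real.exp_add]
      _ ≤ exp (4 * ((k : ℝ) + 1)) := Real.exp_le_exp.2 (by
          have : (0 : ℝ) ≤ k := Nat.cast_nonneg _
          linarith)
  have hM' : (0 : ℝ) < M := by exact_mod_cast hM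
  have h3 : log M ≤ 4 * ((k : ℝ) + 1) := by
    rw [Real.log_le_iff_le_exp hM']
    exact h2
  calc √(log M) ≤ √(4 * ((k : ℝ) + 1)) := Real.sqrt_le_sqrt h3
    _ = 2 * √((k : ℝ) + 1) := by
      rw [Real.sqrt_mul (by norm_num)]
      congr 1
      rw [show (4 : ℝ) = 2 ^ 2 by norm_num, Real.sqrt_sq (by norm_num)]

theorem exists_mat_two : ∃ C > (0 : ℝ), ∀ k : ℕ, ∃ S : Finset (E 2 k × E 2 k), Mat S ∧
    (3 / 2 ^ (2 / 3 : ℝ)) ^ k * exp (-C * √((k : ℝ) + 1)) ≤ (S.card : ℝ) := by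
  obtain ⟨C0, hC0, hB⟩ := exists_apf
  refine ⟨2 * C0 + 7, by positivity, fun k => ?_⟩
  obtain ⟨m, r, hr, hk⟩ : ∃ m r, r ≤ 2 ∧ k = 3 * m + r := ⟨k / 3, k % 3, by omega, by omega⟩
  obtain ⟨A, hA⟩ : ∃ A, A = (2 * m).choose m := ⟨_, rfl⟩
  have hA1 : 1 ≤ A := by
    rw [hA]
    exact Nat.choose_pos (by omega)
  obtain ⟨M, hM⟩ : ∃ M, M = 6 * A + 1 := ⟨_, rfl⟩
  have : NeZero M := ⟨by omega⟩
  have hodd : Odd M := ⟨3 * A, by omega⟩
  obtain ⟨B, hB1, hB2⟩ := hB M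
  obtain ⟨F, hF1, hF2, hF3⟩ := cw_avg (m := m) hodd (by rw [← hA]; omega) hB1
  obtain ⟨S, hS1, hS2⟩ := mat_three hF1 hF2
  obtain ⟨T, hT1, hT2⟩ := mat_pad (l := k) (by omega) hS1
  refine ⟨T, hT1, ?_⟩
  rw [hT2, hS2]
  rw [← hA] at hF3
  have hs := matD_log (m := m) (k := k) (M := M) (by omega) (by omega) (by rw [← hA]; omega)
  have he := matD_est hr hk
  have hN := choose_three_ge m
  obtain ⟨t, ht⟩ : ∃ t, t = √((k : ℝ) + 1) := ⟨_, rfl⟩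
  rw [← ht] at hs he ⊢
  obtain ⟨N, hNd⟩ : ∃ N, N = (3 * m).choose m := ⟨_, rfl⟩
  rw [← hNd] at hF3 hN
  have hAr : (1 : ℝ) ≤ A := by exact_mod_cast hA1
  have hMr : (M : ℝ) = 6 * A + 1 := by
    rw [hM]
    push_cast
    ring
  have hMp : (0 : ℝ) < M := by rw [hMr]; linarith
  have hM7 : (M : ℝ) ≤ 7 * A := by rw [hMr]; linarith
  have hF3r : (N : ℝ) * A * B.card ≤ 2 * (M : ℝ) ^ 2 * F.card := by exact_mod_cast hF3
  have hN0 : (0 : ℝ) ≤ N := Nat.cast_nonneg _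
  -- the number of pairs
  have e1 : (N : ℝ) * exp (-C0 * √(log M)) ≤ 14 * F.card := by
    have h1 : (N : ℝ) * A * (M * exp (-C0 * √(log M))) ≤ 2 * (M : ℝ) ^ 2 * F.card :=
      (mul_le_mul_of_nonneg_left hB2 (by positivity)).trans hF3r
    have h2 : (N : ℝ) * A * exp (-C0 * √(log M)) ≤ 2 * (M : ℝ) * F.card := by
      refine le_of_mul_le_mul_right ?_ hMp
      calc (N : ℝ) * A * exp (-C0 * √(log M)) * M = (N : ℝ) * A * (M * exp (-C0 * √(log M))) := by ring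
        _ ≤ 2 * (M : ℝ) ^ 2 * F.card := h1
        _ = _ := by ring
    have h3 : 2 * (M : ℝ) * F.card ≤ 2 * (7 * A) * F.card :=
      mul_le_mul_of_nonneg_right (by linarith) (Nat.cast_nonneg _)
    refine le_of_mul_le_mul_right ?_ (lt_of_lt_of_le one_pos hAr)
    calc (N : ℝ) * exp (-C0 * √(log M)) * A = (N : ℝ) * A * exp (-C0 * √(log M)) := by ring
      _ ≤ 2 * (7 * A) * F.card := h2.trans h3
      _ = _ := by ring
  have e2 : exp (-C0 * (2 * t)) ≤ exp (-C0 * √(log M)) := by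
    rw [Real.exp_le_exp]
    have := mul_le_mul_of_nonneg_left hs hC0.le
    linarith
  have e3 : (N : ℝ) * exp (-C0 * (2 * t)) ≤ 14 * F.card := (mul_le_mul_of_nonneg_left e2 hN0).trans e1
  have e4 : (27 / 4 : ℝ) ^ m * exp (-C0 * (2 * t)) ≤ (3 * m + 1) * (14 * F.card) := by
    calc (27 / 4 : ℝ) ^ m * exp (-C0 * (2 * t)) ≤ (3 * m + 1) * N * exp (-C0 * (2 * t)) :=
          mul_le_mul_of_nonneg_right hN (Real.exp_pos _).le
      _ = (3 * m + 1) * (N * exp (-C0 * (2 * t))) := by ring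
      _ ≤ _ := mul_le_mul_of_nonneg_left e3 (by positivity)
  have e5 : (3 / 2 ^ (2 / 3 : ℝ) : ℝ) ^ k = (27 / 4) ^ m * (3 / 2 ^ (2 / 3 : ℝ)) ^ r := by
    rw [hk, pow_add, pow_mul, matD_cube]
  have e6 : exp (-(2 * C0 + 7) * t) = exp (-C0 * (2 * t)) * exp (-(7 * t)) := by
    rw [← Real.exp_add]
    ring_nf
  have hx0 : (0 : ℝ) ≤ (3 / 2 ^ (2 / 3 : ℝ)) ^ r := by positivity
  rw [e5, e6]
  calc (27 / 4) ^ m * (3 / 2 ^ (2 / 3 : ℝ)) ^ r * (exp (-C0 * (2 * t)) * exp (-(7 * t))) =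
      ((27 / 4) ^ m * exp (-C0 * (2 * t))) * (3 / 2 ^ (2 / 3 : ℝ)) ^ r * exp (-(7 * t)) := by ring
    _ ≤ ((3 * m + 1) * (14 * F.card)) * (3 / 2 ^ (2 / 3 : ℝ)) ^ r * exp (-(7 * t)) :=
        mul_le_mul_of_nonneg_right (mul_le_mul_of_nonneg_right e4 hx0) (Real.exp_pos _).le
    _ = (14 * (3 * (m : ℝ) + 1) * (3 / 2 ^ (2 / 3 : ℝ)) ^ r) * exp (-(7 * t)) * F.card := by ring
    _ ≤ exp (7 * t) * exp (-(7 * t)) * F.card :=
        mul_le_mul_of_nonneg_right (mul_le_mul_of_nonneg_right he (Real.exp_pos _).le) (Nat.cast_nonneg _)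
    _ = F.card := by rw [← Real.exp_add, add_neg_cancel, Real.exp_zero, one_mul]

end Pool.Agent.SXS
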