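import Pool.Agent.SXS.BldB
import Pool.Agent.SXS.MatD

/-!
# SXS-Low: the lower bound for free actions of `(ℤ/2)^k`

Product of a progression-free set and a matching in `(ℤ/2)^k`.
-/

set_option autoImplicit false

namespace Pool.Agent.SXS

open Finset Real Pool.Agent.RSV

private theorem low_base : (4 : ℝ) * (3 / 2 ^ (5 / 3 : ℝ)) = 2 * (3 / 2 ^ (2 / 3 : ℝ)) := by
  have h1 : (2 : ℝ) ^ (5 / 3 : ℝ) = 2 * 2 ^ (2 / 3 : ℝ) := by
    have h2 : (5 / 3 : ℝ) = 1 + 2 / 3 := by norm_num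
    rw [h2, rpow_add (by norm_num), rpow_one]
  have h3 : (0 : ℝ) < 2 ^ (2 / 3 : ℝ) := rpow_pos_of_pos (by norm_num) _
  rw [h1]
  field_simp
  norm_num

private theorem low_25 {L : ℝ} (hL : 1 ≤ L) : 25 * exp (-4 * L) ≤ 1 := by
  have h1 : (2.7 : ℝ) ≤ exp 1 := by
    have := Real.exp_one_gt_d9
    linarith
  have h2 : exp (4 : ℝ) = exp 1 ^ 4 := by
    rw [← Real.exp_nat_mul]
    norm_num
  have h3 : (25 : ℝ) ≤ exp 4 := by
    rw [h2]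
    calc (25 : ℝ) ≤ 2.7 ^ 4 := by norm_num
      _ ≤ exp 1 ^ 4 := pow_le_pow_left₀ (by norm_num) h1 4
  have h4 : exp 4 ≤ exp (4 * L) := exp_le_exp.2 (by linarith)
  have h5 : exp (-4 * L) * exp (4 * L) = 1 := by
    rw [← exp_add]
    have : -4 * L + 4 * L = 0 := by ring
    rw [this, exp_zero]
  have h6 : 0 < exp (-4 * L) := exp_pos _
  nlinarith

theorem lower_two : ∃ C > (0 : ℝ), ∀ n k : ℕ, 2 ^ k ∣ n → 3 * 2 ^ k ≤ n →
    ∃ (H : Finset (Finset (Fin n))) (φ : Multiplicative (E 2 k) →* Equiv.Perm (Fin n)),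
      Three H ∧ SixThree H ∧ Auts H φ ∧ Free φ ∧
      (n : ℝ) ^ 2 * (3 / 2 ^ (5 / 3 : ℝ)) ^ k * exp (-C * √(log n)) ≤ H.card := by
  obtain ⟨C1, hC1, h1⟩ := exists_apf
  obtain ⟨C2, hC2, h2⟩ := exists_mat_two
  refine ⟨C1 + 2 * C2 + 4, by positivity, ?_⟩
  intro n k hd hn
  obtain ⟨m, rfl⟩ := hd
  have h2k : 0 < 2 ^ k := by positivity
  have hm : 3 ≤ m := by
    rw [mul_comm] at hn
    exact Nat.le_of_mul_le_mul_left hn h2k
  obtain ⟨M, hM⟩ : ∃ M, M = m / 3 := ⟨_, rfl⟩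
  have hM1 : 1 ≤ M := by omega
  have hM5 : m ≤ 5 * M := by omega
  have hM3 : 3 * M ≤ m := by omega
  have : NeZero M := ⟨by omega⟩
  obtain ⟨B, hB, hBc⟩ := h1 M
  obtain ⟨S1, hS1, hS1c⟩ := mat_of_apf hB
  obtain ⟨S2, hS2, hS2c⟩ := h2 k
  obtain ⟨S, hS, hSc⟩ := mat_prod hS1 hS2
  have hcard : Fintype.card (E 2 k) = 2 ^ k := by rw [Fintype.card_fun, ZMod.card, Fintype.card_fin]
  have hd1 : Fintype.card (E 2 k) ∣ 2 ^ k * m := by
    rw [hcard]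
    exact dvd_mul_right _ _
  have hn1 : 3 * (M * Fintype.card (E 2 k)) ≤ 2 ^ k * m := by
    rw [hcard]
    calc 3 * (M * 2 ^ k) = 2 ^ k * (3 * M) := by ring
      _ ≤ 2 ^ k * m := Nat.mul_le_mul_left _ hM3
  obtain ⟨H, φ, a1, a2, a3, a4, a5⟩ := build (A := E 2 k) (M := M) hd1 hn1 hS
  refine ⟨H, φ, a1, a2, a3, a4, ?_⟩
  rw [a5, hSc, hcard, hS1c]
  have hN0 : (0 : ℝ) < ((2 ^ k * m : ℕ) : ℝ) := by
    have : 0 < 2 ^ k * m := by positivity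
    exact_mod_cast this
  have hN3 : (3 : ℝ) ≤ ((2 ^ k * m : ℕ) : ℝ) := by
    have : 3 ≤ 2 ^ k * m := by nlinarith
    exact_mod_cast this
  have hlog1 : 1 ≤ log ((2 ^ k * m : ℕ) : ℝ) := by
    rw [le_log_iff_exp_le hN0]
    have := Real.exp_one_lt_d9
    linarith
  obtain ⟨L, hLd⟩ : ∃ L, L = √(log ((2 ^ k * m : ℕ) : ℝ)) := ⟨_, rfl⟩
  rw [← hLd]
  have hL1 : 1 ≤ L := by
    rw [hLd, Real.one_le_sqrt]
    exact hlog1
  have hL2 : L ^ 2 = log ((2 ^ k * m : ℕ) : ℝ) := by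
    rw [hLd, Real.sq_sqrt (by linarith)]
  have hLM : √(log (M : ℝ)) ≤ L := by
    rw [hLd]
    apply Real.sqrt_le_sqrt
    apply log_le_log
    · exact_mod_cast hM1
    · have : M ≤ 2 ^ k * m := by nlinarith
      exact_mod_cast this
  have hkL : √((k : ℝ) + 1) ≤ 2 * L := by
    rw [Real.sqrt_le_iff]
    refine ⟨by linarith, ?_⟩
    have h3 : ((k : ℝ) + 1) * log 2 ≤ log ((2 ^ k * m : ℕ) : ℝ) := by
      have h4 : ((k : ℝ) + 1) * log 2 = log ((2 : ℝ) ^ (k + 1)) := by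
        rw [log_pow]
        push_cast
        ring
      rw [h4]
      apply log_le_log (by positivity)
      have : 2 ^ (k + 1) ≤ 2 ^ k * m := by
        rw [pow_succ]
        exact Nat.mul_le_mul_left _ (by omega)
      exact_mod_cast this
    have h5 := Real.log_two_gt_d9
    have h6 : (0 : ℝ) ≤ k := Nat.cast_nonneg k
    nlinarith
  have hx1 : exp (-C1 * L) ≤ exp (-C1 * √(log (M : ℝ))) := by
    apply exp_le_exp.2
    nlinarith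
  have hx2 : exp (-(2 * C2) * L) ≤ exp (-C2 * √((k : ℝ) + 1)) := by
    apply exp_le_exp.2
    nlinarith
  have hx3 := low_25 hL1
  have hsplit : exp (-(C1 + 2 * C2 + 4) * L) = exp (-C1 * L) * exp (-(2 * C2) * L) * exp (-4 * L) := by
    rw [← exp_add, ← exp_add]
    congr 1
    ring
  have hq0 : (0 : ℝ) < 3 / 2 ^ (2 / 3 : ℝ) := by positivity
  obtain ⟨q, hq⟩ : ∃ q, q = 3 / (2 : ℝ) ^ (2 / 3 : ℝ) := ⟨_, rfl⟩
  rw [← hq] at hS2c hq0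
  have hpow : (((2 ^ k * m : ℕ) : ℝ)) ^ 2 * (3 / 2 ^ (5 / 3 : ℝ)) ^ k = (m : ℝ) ^ 2 * (2 ^ k * q ^ k) := by
    have h3 : (4 : ℝ) ^ k * (3 / 2 ^ (5 / 3 : ℝ)) ^ k = 2 ^ k * q ^ k := by
      rw [← mul_pow, low_base, mul_pow, hq]
    have h4 : (4 : ℝ) ^ k = 2 ^ k * 2 ^ k := by
      rw [← mul_pow]
      norm_num
    push_cast
    rw [← h3, h4]
    ring
  rw [hpow, hsplit]
  have hA : (m : ℝ) ^ 2 ≤ 25 * (M : ℝ) ^ 2 := by
    have h3 : (m : ℝ) ≤ 5 * M := by exact_mod_cast hM5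
    have h4 : (0 : ℝ) ≤ m := Nat.cast_nonneg m
    nlinarith
  have hB1 : (M : ℝ) * exp (-C1 * L) ≤ B.card :=
    (mul_le_mul_of_nonneg_left hx1 (Nat.cast_nonneg M)).trans hBc
  have hB2 : q ^ k * exp (-(2 * C2) * L) ≤ S2.card :=
    (mul_le_mul_of_nonneg_left hx2 (by positivity)).trans hS2c
  have hprod := mul_le_mul hB1 hB2 (by positivity) (Nat.cast_nonneg _)
  have hW : (0 : ℝ) ≤ (2 ^ k * q ^ k) * (exp (-C1 * L) * exp (-(2 * C2) * L)) := by positivity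
  have hfin1 : (m : ℝ) ^ 2 * (2 ^ k * q ^ k) * (exp (-C1 * L) * exp (-(2 * C2) * L) * exp (-4 * L)) ≤
      (M : ℝ) ^ 2 * ((2 ^ k * q ^ k) * (exp (-C1 * L) * exp (-(2 * C2) * L))) := by
    have h3 : (m : ℝ) ^ 2 * exp (-4 * L) ≤ (M : ℝ) ^ 2 := by
      have h4 : (m : ℝ) ^ 2 * exp (-4 * L) ≤ 25 * (M : ℝ) ^ 2 * exp (-4 * L) :=
        mul_le_mul_of_nonneg_right hA (exp_pos _).le
      have h5 : (M : ℝ) ^ 2 * (25 * exp (-4 * L)) ≤ (M : ℝ) ^ 2 * 1 :=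
        mul_le_mul_of_nonneg_left hx3 (by positivity)
      linarith
    calc (m : ℝ) ^ 2 * (2 ^ k * q ^ k) * (exp (-C1 * L) * exp (-(2 * C2) * L) * exp (-4 * L))
        = ((m : ℝ) ^ 2 * exp (-4 * L)) * ((2 ^ k * q ^ k) * (exp (-C1 * L) * exp (-(2 * C2) * L))) := by ring
      _ ≤ (M : ℝ) ^ 2 * ((2 ^ k * q ^ k) * (exp (-C1 * L) * exp (-(2 * C2) * L))) :=
        mul_le_mul_of_nonneg_right h3 hW
  refine hfin1.trans ?_
  push_cast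
  calc (M : ℝ) ^ 2 * ((2 ^ k * q ^ k) * (exp (-C1 * L) * exp (-(2 * C2) * L)))
      = (M : ℝ) * 2 ^ k * ((M : ℝ) * exp (-C1 * L) * (q ^ k * exp (-(2 * C2) * L))) := by ring
    _ ≤ (M : ℝ) * 2 ^ k * ((B.card : ℝ) * S2.card) := mul_le_mul_of_nonneg_left hprod (by positivity)

end Pool.Agent.SXS
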