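import Pool.Agent.SXS.OrB
import Pool.Agent.SXS.Low
import Pool.Agent.SXS.Cyc
import Pool.Agent.SXS.Few

/-!
# Project SXS: the bounds for free actions in the final form
-/

set_option autoImplicit false

namespace Pool.Agent.SXS

open Finset Pool.Agent.RSV

theorem upper_gp {p k n : ℕ} [Fact p.Prime] (hn : 6 ≤ n) {H : Finset (Finset (Fin n))}
    (h3 : Three H) (h6 : SixThree H) (φ : Multiplicative (E p k) →* Equiv.Perm (Fin n))
    (hA : Auts H φ) (hF : Free φ) {t : ℝ} (h0 : 0 < t) (h1 : t ≤ 1) :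
    (H.card : ℝ) ≤ (n : ℝ) ^ 2 * (gp p t / p) ^ k := by
  have hp : 0 < (p : ℝ) := by exact_mod_cast (Fact.out : p.Prime).pos
  have h := upper_free hn h3 h6 φ hA hF
  have h' : (H.card : ℝ) * (p : ℝ) ^ k ≤ (n : ℝ) ^ 2 * ((Mon p k).card : ℝ) := by exact_mod_cast h
  have hM := card_Mon_le (k := k) (Fact.out : p.Prime).one_lt.le h0 h1
  rw [div_pow, ← mul_div_assoc, le_div_iff₀ (pow_pos hp k)]
  exact h'.trans (mul_le_mul_of_nonneg_left hM (by positivity))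

theorem upper_two {k n : ℕ} (hn : 6 ≤ n) {H : Finset (Finset (Fin n))}
    (h3 : Three H) (h6 : SixThree H) (φ : Multiplicative (E 2 k) →* Equiv.Perm (Fin n))
    (hA : Auts H φ) (hF : Free φ) :
    (H.card : ℝ) ≤ (n : ℝ) ^ 2 * (3 / 2 ^ (5 / 3 : ℝ)) ^ k := by
  have h := upper_gp hn h3 h6 φ hA hF (t := 1 / 2) (by norm_num) (by norm_num)
  rw [gp_half] at h
  have h2 : (3 / 2 ^ (2 / 3 : ℝ) / ((2 : ℕ) : ℝ) : ℝ) = 3 / 2 ^ (5 / 3 : ℝ) := by
    have h3 : (2 : ℝ) ^ (5 / 3 : ℝ) = 2 ^ (2 / 3 : ℝ) * 2 := by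
      rw [show (5 / 3 : ℝ) = 2 / 3 + 1 by norm_num, Real.rpow_add (by norm_num), Real.rpow_one]
    rw [h3, div_div]
    norm_num
  rwa [h2] at h

end Pool.Agent.SXS
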