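import Pool.Agent.SXS.Crd
import Pool.Agent.SXS.CorA
import Pool.Agent.SXS.CorB
import Pool.Agent.SXS.Lin
import Pool.Agent.SXS.Cnt

/-! # SXS-Up: the upper bound for free actions -/

set_option autoImplicit false

namespace Pool.Agent.SXS

open Finset Pool.Agent.RSV

theorem upper_noTri {p k : ℕ} [Fact p.Prime] {V : Type*} [Fintype V] [DecidableEq V]
    {H : Finset (Finset V)} (h3 : Three H) (hN : NoTri H)
    (φ : Multiplicative (E p k) →* Equiv.Perm V) (hA : Auts H φ) (hF : Free φ) :
    6 * H.card * p ^ k ≤ 3 * Fintype.card V ^ 2 * (Mon p k).card + 4 * Fintype.card V * p ^ k := by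
  classical
  have : NeZero p := ⟨(Fact.out : p.Prime).ne_zero⟩
  obtain ⟨m, ρ, hρ⟩ := exists_coord φ hF
  have hn := card_coord ρ
  have hs : lin H ⊆ H := lin_sub H
  have hinj : Function.Injective (fun e : Finset V => e.image ρ) := Finset.image_injective ρ.injective
  obtain ⟨H1, hH1⟩ : ∃ H1, H1 = (lin H).image (fun e => e.image ρ) := ⟨_, rfl⟩
  have hmem : ∀ e, e ∈ H1 → ∃ e' ∈ lin H, e'.image ρ = e := fun e he => by
    rw [hH1] at he
    exact mem_image.1 he
  have hc : H1.card = (lin H).card := by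
    rw [hH1]
    exact card_image_of_injective _ hinj
  have h31 : Three H1 := by
    intro e he
    obtain ⟨e, he', rfl⟩ := hmem e he
    rw [card_image_of_injective _ ρ.injective]
    exact h3 e (hs he')
  have hL1 : Linear H1 := by
    intro e he f hf hef
    obtain ⟨e, he', rfl⟩ := hmem e he
    obtain ⟨f, hf', rfl⟩ := hmem f hf
    rw [← image_inter _ _ ρ.injective, card_image_of_injective _ ρ.injective]
    exact lin_linear H e he' f hf' (fun h => hef (by rw [h]))
  have hN1 : NoTri H1 := by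
    intro e he f hf g hg hef hfg heg
    obtain ⟨e, he', rfl⟩ := hmem e he
    obtain ⟨f, hf', rfl⟩ := hmem f hf
    obtain ⟨g, hg', rfl⟩ := hmem g hg
    rw [← image_union, ← image_union, card_image_of_injective _ ρ.injective]
    exact hN e (hs he') f (hs hf') g (hs hg') (fun h => hef (by rw [h])) (fun h => hfg (by rw [h])) (fun h => heg (by rw [h]))
  have hI1 : Inv H1 := by
    intro g e he
    obtain ⟨e, he', rfl⟩ := hmem e he
    rw [hH1]
    refine mem_image.2 ⟨e.image (φ (Multiplicative.ofAdd g)), lin_auts hA _ e he', ?_⟩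
    show (e.image (φ _)).image ρ = (e.image ρ).image (fun v => (v.1, v.2 + g))
    rw [image_image, image_image]
    exact image_congr (fun v _ => hρ g v)
  obtain ⟨b, c, -, -, hbc⟩ := exists_bij h31 hL1 hN1 hI1
  have hD := diag_bound (Dd H1) b c hbc
  have hDd := card_Dd h31 hL1 hI1
  have hl := lin_card h3 hN
  rw [hn] at hl ⊢
  rw [hc] at hDd
  have h1 : 6 * H.card ≤ (Dd H1).card * p ^ k + 4 * (m * p ^ k) := by
    rw [hDd]
    omega
  calc 6 * H.card * p ^ k ≤ ((Dd H1).card * p ^ k + 4 * (m * p ^ k)) * p ^ k := Nat.mul_le_mul_right _ h1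
    _ ≤ ((3 * m ^ 2 * (Mon p k).card) * p ^ k + 4 * (m * p ^ k)) * p ^ k :=
      Nat.mul_le_mul_right _ (Nat.add_le_add_right (Nat.mul_le_mul_right _ hD) _)
    _ = 3 * (m * p ^ k) ^ 2 * (Mon p k).card + 4 * (m * p ^ k) * p ^ k := by ring

theorem upper_free {p k n : ℕ} [Fact p.Prime] (hn : 6 ≤ n) {H : Finset (Finset (Fin n))}
    (h3 : Three H) (h6 : SixThree H) (φ : Multiplicative (E p k) →* Equiv.Perm (Fin n))
    (hA : Auts H φ) (hF : Free φ) : H.card * p ^ k ≤ n ^ 2 * (Mon p k).card := by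
  have hp : 2 ≤ p := (Fact.out : p.Prime).two_le
  have : NeZero p := ⟨by omega⟩
  have h1 := upper_noTri h3 (noTri_of_sixThree hn h6) φ hA hF
  obtain ⟨m, ρ, -⟩ := exists_coord φ hF
  have hm := card_coord ρ
  rw [Fintype.card_fin] at h1 hm
  have h2 : 2 ≤ m * (Mon p k).card := by
    have h3 := one_le_card_Mon (p := p) (k := k) (by omega)
    rcases Nat.lt_or_ge m 2 with h4 | h4
    · have h5 : m ≠ 0 := by
        rintro rfl
        omega
      have h6 : m = 1 := by omega
      rw [h6, one_mul] at hm ⊢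
      have hk0 : k ≠ 0 := by
        rintro rfl
        rw [pow_zero] at hm
        omega
      refine two_le_card_Mon hp (by omega) ?_
      by_contra hcon
      rw [not_le] at hcon
      have hk : k < 3 := by
        have := Nat.mul_le_mul_right k (by omega : 1 ≤ p - 1)
        omega
      have hp4 : p < 4 := by
        have := Nat.mul_le_mul_left (p - 1) (by omega : 1 ≤ k)
        omega
      interval_cases p <;> interval_cases k <;> omega
    · calc 2 = 2 * 1 := rfl
        _ ≤ m * (Mon p k).card := Nat.mul_le_mul h4 h3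
  have h7 : 4 * n * p ^ k ≤ 3 * n ^ 2 * (Mon p k).card := by
    calc 4 * n * p ^ k ≤ 6 * n * p ^ k := by gcongr; norm_num
      _ = 3 * n * p ^ k * 2 := by ring
      _ ≤ 3 * n * p ^ k * (m * (Mon p k).card) := Nat.mul_le_mul_left _ h2
      _ = 3 * n * (m * p ^ k) * (Mon p k).card := by ring
      _ = 3 * n ^ 2 * (Mon p k).card := by rw [← hm]; ring
  have h8 : 6 * (H.card * p ^ k) ≤ 6 * (n ^ 2 * (Mon p k).card) := by
    calc 6 * (H.card * p ^ k) = 6 * H.card * p ^ k := by ring
      _ ≤ 3 * n ^ 2 * (Mon p k).card + 4 * n * p ^ k := h1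
      _ ≤ 3 * n ^ 2 * (Mon p k).card + 3 * n ^ 2 * (Mon p k).card := Nat.add_le_add_left h7 _
      _ = 6 * (n ^ 2 * (Mon p k).card) := by ring
  exact Nat.le_of_mul_le_mul_left h8 (by norm_num)

end Pool.Agent.SXS
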