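import Pool.Agent.SXS.Sub
import Pool.Agent.SXS.Up
import Pool.Agent.RSV.HD

/-!
# SXS-OrA: actions with large orbits, finite form

PLAN. `exists_sub`: `L`, `B`. `ψ c = φ (ofAdd (L c))` is an action of `E p d` on `V = Fin n` by automorphisms of `H`, `B` is invariant
(the group is commutative: the condition `φ (L c) v = v` is the same for `v` and `φ (L c') v`), so `ψ` acts on the subtype
`V' = {v // v ∉ B}`, freely. `H'` = the edges of `H` which are disjoint from `B`, as subsets of `V'`
(e.g. `(H.filter (fun e => Disjoint e B)).image (fun e => univ.filter (fun v : V' => (v : Fin n) ∈ e))`); `Three`, `NoTri` are inherited, the number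
of edges is the same. `upper_noTri`: `6 |H'| p^d ≤ 3 |V'|² |Mon p d| + 4 |V'| p^d`. The edges of `lin H` which meet `B`: at most
`∑ v ∈ B, deg (lin H) v ≤ |B| n / 2` (`RSV.deg_le`), the edges outside `lin H`: at most `2 n / 3` (`lin_card`). So
`6 |H| ≤ 6 |H'| + 3 |B| n + 4 n`. Multiply by `p^d K`.
-/

set_option autoImplicit false

namespace Pool.Agent.SXS

open Finset Pool.Agent.RSV

private theorem mem_lin {V : Type*} [DecidableEq V] {H : Finset (Finset V)} {e : Finset V} :
    e ∈ lin H ↔ e ∈ H ∧ ∀ f ∈ H, f ≠ e → (e ∩ f).card ≤ 1 := by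
  unfold lin
  rw [mem_filter]

private theorem mem_back {n : ℕ} {B e : Finset (Fin n)} (h : Disjoint e B) (v : Fin n) :
    v ∈ e ↔ ∃ h : v ∉ B, (⟨v, h⟩ : {v : Fin n // v ∉ B}) ∈ e.subtype (fun v => v ∉ B) := by
  constructor
  · intro hv
    have hvB : v ∉ B := disjoint_left.1 h hv
    exact ⟨hvB, mem_subtype.2 hv⟩
  · rintro ⟨_, h2⟩
    exact mem_subtype.1 h2

private theorem map_back {n : ℕ} {B e : Finset (Fin n)} (h : Disjoint e B) :
    (e.subtype (fun v => v ∉ B)).map (Function.Embedding.subtype _) = e := by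
  rw [subtype_map, filter_eq_self]
  intro v hv
  exact disjoint_left.1 h hv

private theorem sub_inj {n : ℕ} {B e f : Finset (Fin n)} (he : Disjoint e B) (hf : Disjoint f B)
    (h : e.subtype (fun v => v ∉ B) = f.subtype (fun v => v ∉ B)) : e = f := by
  rw [← map_back he, h, map_back hf]

theorem upper_orbit {p k n K : ℕ} [Fact p.Prime] (hn : 6 ≤ n) {H : Finset (Finset (Fin n))}
    (h3 : Three H) (h6 : SixThree H) (φ : Multiplicative (E p k) →* Equiv.Perm (Fin n))
    (hA : Auts H φ) (hK : Orb φ K) (d : ℕ) :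
    6 * H.card * p ^ d * K ≤ 3 * n ^ 2 * (Mon p d).card * K + 3 * n ^ 2 * p ^ (2 * d) +
      8 * n * p ^ d * K := by
  classical
  obtain ⟨L, B, hB, hBc⟩ := exists_sub φ hK d
  have hN : NoTri H := noTri_of_sixThree hn h6
  have hinv : ∀ (c : E p d) (v : Fin n), φ (Multiplicative.ofAdd (L c)) v ∉ B ↔ v ∉ B := by
    intro c v
    have key : ∀ c' : E p d, φ (Multiplicative.ofAdd (L c')) (φ (Multiplicative.ofAdd (L c)) v) =
        φ (Multiplicative.ofAdd (L c)) v ↔ φ (Multiplicative.ofAdd (L c')) v = v := by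
      intro c'
      have hc : φ (Multiplicative.ofAdd (L c')) (φ (Multiplicative.ofAdd (L c)) v) =
          φ (Multiplicative.ofAdd (L c)) (φ (Multiplicative.ofAdd (L c')) v) := by
        rw [← Equiv.Perm.mul_apply, ← map_mul, mul_comm, map_mul, Equiv.Perm.mul_apply]
      rw [hc, (φ (Multiplicative.ofAdd (L c))).injective.eq_iff]
    rw [hB, hB]
    constructor
    · intro h c' hc' h2
      exact h c' hc' ((key c').2 h2)
    · intro h c' hc' h2
      exact h c' hc' ((key c').1 h2)
  let ψ : Multiplicative (E p d) →* Equiv.Perm {v : Fin n // v ∉ B} :=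
    { toFun := fun c => (φ (Multiplicative.ofAdd (L (Multiplicative.toAdd c)))).subtypePerm
        (fun v => hinv _ v)
      map_one' := by
        ext v
        simp
      map_mul' := by
        intro a b
        ext v
        simp [ofAdd_add] }
  have hψ : ∀ (c : Multiplicative (E p d)) (v : {v : Fin n // v ∉ B}),
      ((ψ c v : {v : Fin n // v ∉ B}) : Fin n) =
        φ (Multiplicative.ofAdd (L (Multiplicative.toAdd c))) (v : Fin n) := fun c v => rfl
  have hfree : Free ψ := by
    intro g hg v hv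
    have h1 : Multiplicative.toAdd g ≠ 0 := by
      intro h
      exact hg (Multiplicative.toAdd.injective (by rw [h]; rfl))
    have h2 := (hB v).1 v.2 (Multiplicative.toAdd g) h1
    apply h2
    rw [← hψ, hv]
  set H0 : Finset (Finset (Fin n)) := H.filter (fun e => Disjoint e B) with hH0
  set H' : Finset (Finset {v : Fin n // v ∉ B}) := H0.image (fun e => e.subtype (fun v => v ∉ B)) with hH'
  have hcard : H'.card = H0.card := by
    apply card_image_of_injOn
    intro e he f hf hef
    have he' := (mem_filter.1 (mem_coe.1 he)).2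
    have hf' := (mem_filter.1 (mem_coe.1 hf)).2
    exact sub_inj he' hf' hef
  have h3' : Three H' := by
    intro e' he'
    obtain ⟨e, he, rfl⟩ := mem_image.1 he'
    have h1 := mem_filter.1 he
    have h2 : ((e.subtype (fun v => v ∉ B)).map (Function.Embedding.subtype _)).card = e.card := by
      rw [map_back h1.2]
    rw [card_map] at h2
    rw [h2]
    exact h3 e h1.1
  have hN' : NoTri H' := by
    intro e' he' f' hf' g' hg' hef hfg heg
    obtain ⟨e, he, rfl⟩ := mem_image.1 he'
    obtain ⟨f, hf, rfl⟩ := mem_image.1 hf'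
    obtain ⟨g, hg, rfl⟩ := mem_image.1 hg'
    have h1 := mem_filter.1 he
    have h2 := mem_filter.1 hf
    have h4 := mem_filter.1 hg
    have h5 := hN e h1.1 f h2.1 g h4.1 (fun h => hef (by rw [h])) (fun h => hfg (by rw [h]))
      (fun h => heg (by rw [h]))
    have h6 : ((e.subtype (fun v => v ∉ B) ∪ f.subtype (fun v => v ∉ B) ∪
        g.subtype (fun v => v ∉ B)).map (Function.Embedding.subtype _)).card = (e ∪ f ∪ g).card := by
      rw [map_union, map_union, map_back h1.2, map_back h2.2, map_back h4.2]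
    rw [card_map] at h6
    rw [h6]
    exact h5
  have hA' : Auts H' ψ := by
    intro c e' he'
    obtain ⟨e, he, rfl⟩ := mem_image.1 he'
    have h1 := mem_filter.1 he
    set f := e.image (φ (Multiplicative.ofAdd (L (Multiplicative.toAdd c)))) with hf
    have hfH : f ∈ H := hA _ e h1.1
    have hfB : Disjoint f B := by
      rw [disjoint_left]
      intro v hv
      obtain ⟨u, hu, rfl⟩ := mem_image.1 hv
      exact (hinv _ u).2 (disjoint_left.1 h1.2 hu)
    refine mem_image.2 ⟨f, mem_filter.2 ⟨hfH, hfB⟩, ?_⟩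
    ext v
    rw [mem_subtype, mem_image, mem_image]
    constructor
    · rintro ⟨u, hu, huv⟩
      have huB : u ∉ B := disjoint_left.1 h1.2 hu
      refine ⟨⟨u, huB⟩, mem_subtype.2 hu, Subtype.ext ?_⟩
      rw [hψ]
      exact huv
    · rintro ⟨u, hu, rfl⟩
      exact ⟨u, mem_subtype.1 hu, (hψ c u).symm⟩
  have hup := upper_noTri h3' hN' ψ hA' hfree
  have hV' : Fintype.card {v : Fin n // v ∉ B} ≤ n := by
    have := Fintype.card_subtype_le (fun v : Fin n => v ∉ B)
    rwa [Fintype.card_fin] at this
  rw [hcard] at hup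
  -- the edges which meet B
  have hlin3 : Three (lin H) := fun e he => h3 e (mem_lin.1 he).1
  have hlinL : Linear (lin H) := by
    intro e he f hf hef
    exact (mem_lin.1 he).2 f (mem_lin.1 hf).1 (Ne.symm hef)
  have hlc := lin_card h3 hN
  rw [Fintype.card_fin] at hlc
  have hmeet : 2 * ((lin H).filter (fun e => ¬ Disjoint e B)).card ≤ B.card * n := by
    have h1 : (lin H).filter (fun e => ¬ Disjoint e B) ⊆ B.biUnion (fun v => (lin H).filter (fun e => v ∈ e)) := by
      intro e he
      obtain ⟨he1, he2⟩ := mem_filter.1 he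
      obtain ⟨v, hv1, hv2⟩ := not_disjoint_iff.1 he2
      exact mem_biUnion.2 ⟨v, hv2, mem_filter.2 ⟨he1, hv1⟩⟩
    have h2 : ((lin H).filter (fun e => ¬ Disjoint e B)).card ≤ ∑ v ∈ B, deg (lin H) v :=
      (card_le_card h1).trans card_biUnion_le
    calc 2 * ((lin H).filter (fun e => ¬ Disjoint e B)).card ≤ 2 * ∑ v ∈ B, deg (lin H) v :=
          Nat.mul_le_mul_left _ h2
      _ = ∑ v ∈ B, 2 * deg (lin H) v := by rw [mul_sum]
      _ ≤ ∑ _v ∈ B, n := by
          apply sum_le_sum
          intro v _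
          have := deg_le hlin3 hlinL v
          rwa [Fintype.card_fin] at this
      _ = B.card * n := by rw [sum_const, smul_eq_mul]
  have hsplit : H.card ≤ H0.card + (((lin H).filter (fun e => ¬ Disjoint e B)).card + (H \ lin H).card) := by
    have h1 : H ⊆ H0 ∪ ((lin H).filter (fun e => ¬ Disjoint e B) ∪ (H \ lin H)) := by
      intro e he
      by_cases h2 : Disjoint e B
      · exact mem_union_left _ (mem_filter.2 ⟨he, h2⟩)
      · apply mem_union_right
        by_cases h4 : e ∈ lin H
        · exact mem_union_left _ (mem_filter.2 ⟨h4, h2⟩)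
        · exact mem_union_right _ (mem_sdiff.2 ⟨he, h4⟩)
    exact (card_le_card h1).trans ((card_union_le _ _).trans (Nat.add_le_add_left (card_union_le _ _) _))
  have hsd : (H \ lin H).card + (lin H).card = H.card := by
    have h1 : lin H ⊆ H := fun e he => (mem_lin.1 he).1
    have h2 := card_sdiff_add_card_eq_card h1
    exact h2
  have hmain : 6 * H.card ≤ 6 * H0.card + 3 * (B.card * n) + 4 * n := by omega
  rw [Fintype.card_fin] at hBc
  have hVm : Fintype.card {v : Fin n // v ∉ B} ^ 2 ≤ n ^ 2 := Nat.pow_le_pow_left hV' 2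
  have hup2 : 6 * H0.card * p ^ d ≤ 3 * n ^ 2 * (Mon p d).card + 4 * n * p ^ d := by
    refine hup.trans (Nat.add_le_add ?_ ?_)
    · exact Nat.mul_le_mul_right _ (Nat.mul_le_mul_left _ hVm)
    · exact Nat.mul_le_mul_right _ (Nat.mul_le_mul_left _ hV')
  calc 6 * H.card * p ^ d * K ≤ (6 * H0.card + 3 * (B.card * n) + 4 * n) * p ^ d * K :=
        Nat.mul_le_mul_right _ (Nat.mul_le_mul_right _ hmain)
    _ = (6 * H0.card * p ^ d) * K + 3 * n * p ^ d * (B.card * K) + 4 * n * p ^ d * K := by ring
    _ ≤ (3 * n ^ 2 * (Mon p d).card + 4 * n * p ^ d) * K + 3 * n * p ^ d * (n * p ^ d) + 4 * n * p ^ d * K := by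
        refine Nat.add_le_add_right (Nat.add_le_add ?_ ?_) _
        · exact Nat.mul_le_mul_right _ hup2
        · exact Nat.mul_le_mul_left _ hBc
    _ = 3 * n ^ 2 * (Mon p d).card * K + 3 * n ^ 2 * p ^ (2 * d) + 8 * n * p ^ d * K := by
        rw [pow_mul' p 2 d]
        ring

end Pool.Agent.SXS
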