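import Pool.Agent.SXS.OrA

/-!
# SXS-OrB: actions with large orbits
-/

set_option autoImplicit false

namespace Pool.Agent.SXS

open Finset Pool.Agent.RSV

private theorem ob_log {p K : ℕ} (hp : 1 < p) (hK : 1 ≤ K) :
    p ^ (2 * (Nat.log p K / 2)) ≤ K ∧ K < p ^ (2 * (Nat.log p K / 2 + 1)) := by
  constructor
  · exact (Nat.pow_le_pow_right (by omega) (by omega)).trans (Nat.pow_log_le_self p (by omega))
  · exact (Nat.lt_pow_succ_log_self hp K).trans_le (Nat.pow_le_pow_right (by omega) (by omega))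

private theorem ob_rho {p K d : ℕ} (hp : 1 < p) (hK : 1 ≤ K) (h : K < p ^ (2 * (d + 1))) {ρ : ℝ} (h0 : 0 < ρ)
    (h1 : ρ < 1) : ρ ^ d ≤ ρ⁻¹ * (K : ℝ) ^ (-(-Real.log ρ / (2 * Real.log p))) := by
  have hp' : (1 : ℝ) < p := by exact_mod_cast hp
  have hlp : 0 < Real.log p := Real.log_pos hp'
  have hlr : Real.log ρ < 0 := Real.log_neg h0 h1
  have hK' : (0 : ℝ) < K := by exact_mod_cast hK
  have h2 : (K : ℝ) ≤ (p : ℝ) ^ (2 * (d + 1)) := by exact_mod_cast h.le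
  have h3 : ((p : ℝ) ^ (2 * (d + 1))) ^ (-(-Real.log ρ / (2 * Real.log p))) ≤
      (K : ℝ) ^ (-(-Real.log ρ / (2 * Real.log p))) := by
    refine Real.rpow_le_rpow_of_nonpos hK' h2 ?_
    have h4 : 0 ≤ -Real.log ρ / (2 * Real.log p) := div_nonneg (by linarith) (by linarith)
    linarith
  have h4 : ((p : ℝ) ^ (2 * (d + 1))) ^ (-(-Real.log ρ / (2 * Real.log p))) = ρ ^ (d + 1) := by
    rw [Real.rpow_def_of_pos (by positivity), Real.log_pow]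
    have h5 : ((2 * (d + 1) : ℕ) : ℝ) * Real.log p * -(-Real.log ρ / (2 * Real.log p)) =
        ((d + 1 : ℕ) : ℝ) * Real.log ρ := by
      push_cast
      field_simp
    rw [h5, ← Real.log_pow, Real.exp_log (pow_pos h0 _)]
  rw [h4, pow_succ] at h3
  rw [inv_mul_eq_div, le_div_iff₀ h0]
  exact h3

theorem upper_orb (p : ℕ) [Fact p.Prime] : ∃ c > (0 : ℝ), ∃ C > (0 : ℝ),
    ∀ (k n K : ℕ), 6 ≤ n → 1 ≤ K → ∀ (H : Finset (Finset (Fin n)))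
      (φ : Multiplicative (E p k) →* Equiv.Perm (Fin n)),
      Three H → SixThree H → Auts H φ → Orb φ K →
      (H.card : ℝ) ≤ C * (n : ℝ) ^ 2 * (K : ℝ) ^ (-c) := by
  have hp1 : 1 < p := (Fact.out : p.Prime).one_lt
  have hp' : (1 : ℝ) < p := by exact_mod_cast hp1
  have hlp : 0 < Real.log p := Real.log_pos hp'
  obtain ⟨t, ht0, ht1, ht⟩ := exists_t (p := p) hp1
  have hg := one_le_gp hp1.le ht0 ht1.le
  obtain ⟨ρ, hρ⟩ : ∃ ρ : ℝ, ρ = gp p t / p := ⟨_, rfl⟩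
  have hρ0 : 0 < ρ := by
    rw [hρ]
    exact div_pos (by linarith) (by linarith)
  have hρ1 : ρ < 1 := by
    rw [hρ, div_lt_one (by linarith)]
    exact ht
  have hlr : Real.log ρ < 0 := Real.log_neg hρ0 hρ1
  obtain ⟨c1, hc1⟩ : ∃ c1 : ℝ, c1 = -Real.log ρ / (2 * Real.log p) := ⟨_, rfl⟩
  have hc10 : 0 < c1 := by
    rw [hc1]
    exact div_pos (by linarith) (by linarith)
  refine ⟨min c1 (1 / 2), lt_min hc10 (by norm_num), ρ⁻¹ + 3, by positivity, ?_⟩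
  intro k n K hn hK H φ h3 h6 hA hO
  obtain ⟨c, hc⟩ : ∃ c : ℝ, c = min c1 (1 / 2) := ⟨_, rfl⟩
  rw [← hc]
  have hcc : c ≤ c1 := by
    rw [hc]
    exact min_le_left _ _
  have hc2 : c ≤ 1 / 2 := by
    rw [hc]
    exact min_le_right _ _
  obtain ⟨d, hd⟩ : ∃ d, d = Nat.log p K / 2 := ⟨_, rfl⟩
  obtain ⟨l1, l2⟩ := ob_log hp1 hK
  rw [← hd] at l1 l2
  have hKn : K ≤ n := by
    refine (hO ⟨0, by omega⟩).trans ?_
    have h7 := Set.ncard_le_card (Set.range fun g : Multiplicative (E p k) => φ g ⟨0, by omega⟩)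
    rwa [Nat.card_fin] at h7
  have hK' : (1 : ℝ) ≤ K := by exact_mod_cast hK
  have hK0 : (0 : ℝ) < K := by linarith
  have hn' : (0 : ℝ) < n := by
    have : 0 < n := by omega
    exact_mod_cast this
  have hKn' : (K : ℝ) ≤ n := by exact_mod_cast hKn
  have hP : (0 : ℝ) < (p : ℝ) ^ d := by positivity
  have hx0 : 0 < (K : ℝ) ^ (-c) := Real.rpow_pos_of_pos hK0 _
  have hM : ((Mon p d).card : ℝ) ≤ ρ⁻¹ * (K : ℝ) ^ (-c) * (p : ℝ) ^ d := by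
    have m1 := card_Mon_le (k := d) hp1.le ht0 ht1.le
    have m2 : gp p t = ρ * p := by
      rw [hρ, div_mul_cancel₀ _ (by linarith)]
    rw [m2, mul_pow] at m1
    have m3 := ob_rho hp1 hK l2 hρ0 hρ1
    rw [← hc1] at m3
    have m4 : (K : ℝ) ^ (-c1) ≤ (K : ℝ) ^ (-c) := Real.rpow_le_rpow_of_exponent_le hK' (by linarith)
    have m5 : ρ ^ d ≤ ρ⁻¹ * (K : ℝ) ^ (-c) :=
      m3.trans (mul_le_mul_of_nonneg_left m4 (inv_pos.2 hρ0).le)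
    exact m1.trans (mul_le_mul_of_nonneg_right m5 hP.le)
  have hPK : (p : ℝ) ^ d ≤ (K : ℝ) ^ (-c) * K := by
    have q1 : ((p : ℝ) ^ d) ^ 2 ≤ K := by
      rw [← pow_mul, mul_comm d 2]
      exact_mod_cast l1
    have q2 : (p : ℝ) ^ d ≤ (K : ℝ) ^ (1 / 2 : ℝ) := by
      rw [← Real.sqrt_eq_rpow]
      exact Real.le_sqrt_of_sq_le q1
    have q3 : (K : ℝ) ^ (-c) * K = (K : ℝ) ^ (1 - c) := by
      rw [sub_eq_neg_add, Real.rpow_add hK0, Real.rpow_one]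
    rw [q3]
    exact q2.trans (Real.rpow_le_rpow_of_exponent_le hK' (by linarith))
  have hnx : (n : ℝ) ≤ n ^ 2 * (K : ℝ) ^ (-c) := by
    have r1 : (1 : ℝ) ≤ (K : ℝ) ^ (-c) * K := by
      have q3 : (K : ℝ) ^ (-c) * K = (K : ℝ) ^ (1 - c) := by
        rw [sub_eq_neg_add, Real.rpow_add hK0, Real.rpow_one]
      rw [q3]
      exact Real.one_le_rpow hK' (by linarith)
    have r2 : (K : ℝ) ^ (-c) * K ≤ (K : ℝ) ^ (-c) * n := mul_le_mul_of_nonneg_left hKn' hx0.le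
    nlinarith
  have hU := upper_orbit hn h3 h6 φ hA hO d
  have hU' : 6 * (H.card : ℝ) * (p : ℝ) ^ d * K ≤ 3 * (n : ℝ) ^ 2 * ((Mon p d).card : ℝ) * K +
      3 * (n : ℝ) ^ 2 * (p : ℝ) ^ (2 * d) + 8 * n * (p : ℝ) ^ d * K := by exact_mod_cast hU
  have hPKp : 0 < (p : ℝ) ^ d * K := mul_pos hP hK0
  have hn2 : (0 : ℝ) ≤ (n : ℝ) ^ 2 := by positivity
  have s1 : 3 * (n : ℝ) ^ 2 * ((Mon p d).card : ℝ) * K ≤
      3 * (n : ℝ) ^ 2 * (ρ⁻¹ * (K : ℝ) ^ (-c) * (p : ℝ) ^ d) * K := by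
    gcongr
  have s2 : 3 * (n : ℝ) ^ 2 * (p : ℝ) ^ (2 * d) ≤ 3 * (n : ℝ) ^ 2 * ((p : ℝ) ^ d * ((K : ℝ) ^ (-c) * K)) := by
    rw [two_mul, pow_add]
    gcongr
  have s3 : 8 * (n : ℝ) * (p : ℝ) ^ d * K ≤ 8 * ((n : ℝ) ^ 2 * (K : ℝ) ^ (-c)) * (p : ℝ) ^ d * K := by
    gcongr
  have s4 : 6 * (H.card : ℝ) * ((p : ℝ) ^ d * K) ≤
      ((3 * ρ⁻¹ + 11) * ((n : ℝ) ^ 2 * (K : ℝ) ^ (-c))) * ((p : ℝ) ^ d * K) := by
    nlinarith
  have s5 := le_of_mul_le_mul_right s4 hPKp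
  have s6 : 0 ≤ (n : ℝ) ^ 2 * (K : ℝ) ^ (-c) := by positivity
  have s7 : 0 ≤ ρ⁻¹ * ((n : ℝ) ^ 2 * (K : ℝ) ^ (-c)) := by positivity
  have s8 : (ρ⁻¹ + 3) * (n : ℝ) ^ 2 * (K : ℝ) ^ (-c) =
      ρ⁻¹ * ((n : ℝ) ^ 2 * (K : ℝ) ^ (-c)) + 3 * ((n : ℝ) ^ 2 * (K : ℝ) ^ (-c)) := by ring
  rw [s8]
  linarith

end Pool.Agent.SXS
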