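import Pool.Agent.SXS.Defs

/-!
# SXS-Sl: the slice rank of a diagonal tensor
-/

set_option autoImplicit false

namespace Pool.Agent.SXS

open Finset

/-- a subspace of `F ^ D` contains a vector with at least `finrank` nonzero coordinates -/
private theorem exists_supp {F : Type*} [Field F] {D : Type*} [Fintype D] [DecidableEq D]
    (W : Submodule F (D → F)) : ∃ x ∈ W, Module.finrank F W ≤ (Function.support x).ncard := by
  classical
  obtain ⟨x, hx, hmax⟩ : ∃ x ∈ W, ∀ y ∈ W, (Function.support y).ncard ≤ (Function.support x).ncard := by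
    have hfin : (Set.range fun y : W => (Function.support y.1).ncard).Finite := by
      refine (Set.finite_Iic (Fintype.card D)).subset ?_
      rintro _ ⟨y, rfl⟩
      rw [Set.mem_Iic, ← Nat.card_eq_fintype_card]
      exact Set.ncard_le_card _
    obtain ⟨m, ⟨x, rfl⟩, hm⟩ := hfin.exists_maximal ⟨_, ⟨0, rfl⟩⟩
    refine ⟨x.1, x.2, fun y hy => ?_⟩
    by_contra hlt
    push Not at hlt
    have h1 := hm ⟨⟨y, hy⟩, rfl⟩ hlt.le
    exact absurd hlt (not_lt.2 h1)
  refine ⟨x, hx, ?_⟩
  by_contra hlt
  push Not at hlt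
  obtain ⟨T, hT⟩ : ∃ T : Set D, T = Function.support x := ⟨_, rfl⟩
  let f : W →ₗ[F] (T → F) :=
    { toFun := fun y t => y.1 t.1
      map_add' := fun _ _ => rfl
      map_smul' := fun _ _ => rfl }
  have h1 : Module.finrank F (T → F) < Module.finrank F W := by
    rw [Module.finrank_fintype_fun_eq_card, ← Nat.card_eq_fintype_card, Nat.card_coe_set_eq, hT]
    exact hlt
  obtain ⟨y, hy, hy0⟩ := Submodule.exists_mem_ne_zero_of_ne_bot (LinearMap.ker_ne_bot_of_finrank_lt h1)
  have hyT : ∀ d ∈ T, y.1 d = 0 := fun d hd => by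
    have h2 : f y = 0 := LinearMap.mem_ker.1 hy
    exact congrFun h2 ⟨d, hd⟩
  have hy1 : y.1 ≠ 0 := fun h0 => hy0 (Subtype.ext h0)
  obtain ⟨d, hd⟩ := Function.ne_iff.1 hy1
  have hss : Function.support x ⊂ Function.support (x + y.1) := by
    rw [Set.ssubset_iff_of_subset]
    · refine ⟨d, ?_, ?_⟩
      · rw [Function.mem_support, Pi.add_apply]
        have h2 : x d = 0 := by
          by_contra hxd
          exact hd (hyT d (by rw [hT]; exact hxd))
        rw [h2, zero_add]
        exact hd
      · intro hxd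
        exact hd (hyT d (by rw [hT]; exact hxd))
    · intro e he
      rw [Function.mem_support, Pi.add_apply, hyT e (by rw [hT]; exact he), add_zero]
      exact he
  have h2 := Set.ncard_lt_ncard hss (Set.toFinite _)
  have h3 := hmax _ (W.add_mem hx y.2)
  omega

theorem slice_diag {F : Type*} [Field F] {D R1 R2 R3 : Type*} [Fintype D] [DecidableEq D]
    [Fintype R1] [Fintype R2] [Fintype R3]
    (f1 : R1 → D → F) (g1 : R1 → D → D → F) (f2 : R2 → D → F) (g2 : R2 → D → D → F)
    (f3 : R3 → D → F) (g3 : R3 → D → D → F)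
    (h : ∀ a b c : D, (if a = b ∧ b = c then (1 : F) else 0) =
      ∑ r, f1 r a * g1 r b c + ∑ r, f2 r b * g2 r a c + ∑ r, f3 r c * g3 r a b) :
    Fintype.card D ≤ Fintype.card R1 + Fintype.card R2 + Fintype.card R3 := by
  classical
  let L : (D → F) →ₗ[F] (R1 → F) :=
    { toFun := fun x r => ∑ a, x a * f1 r a
      map_add' := fun x y => by
        funext r
        rw [Pi.add_apply, ← Finset.sum_add_distrib]
        exact Finset.sum_congr rfl fun a _ => by rw [Pi.add_apply, add_mul]
      map_smul' := fun c x => by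
        funext r
        rw [Pi.smul_apply, RingHom.id_apply, smul_eq_mul, Finset.mul_sum]
        exact Finset.sum_congr rfl fun a _ => by rw [Pi.smul_apply, smul_eq_mul, mul_assoc] }
  obtain ⟨x, hx, hxW⟩ := exists_supp (LinearMap.ker L)
  have hx' : ∀ r, ∑ a, x a * f1 r a = 0 := fun r => congrFun (LinearMap.mem_ker.1 hx) r
  have h1 : Fintype.card D ≤ Fintype.card R1 + Module.finrank F (LinearMap.ker L) := by
    have h2 := L.finrank_range_add_finrank_ker
    have h3 : Module.finrank F (LinearMap.range L) ≤ Module.finrank F (R1 → F) :=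
      (LinearMap.range L).finrank_le
    rw [Module.finrank_fintype_fun_eq_card] at h2 h3
    omega
  let A : Matrix D (R2 ⊕ R3) F := Matrix.of fun b =>
    Sum.elim (fun r => f2 r b) fun r => ∑ a, x a * g3 r a b
  let B : Matrix (R2 ⊕ R3) D F := Matrix.of fun k c =>
    Sum.elim (fun r => ∑ a, x a * g2 r a c) (fun r => f3 r c) k
  have hAB : Matrix.diagonal x = A * B := by
    ext b c
    have h2 : (A * B) b c = ∑ r, f2 r b * (∑ a, x a * g2 r a c) +
        ∑ r, (∑ a, x a * g3 r a b) * f3 r c := by
      rw [Matrix.mul_apply, Fintype.sum_sum_type]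
      rfl
    have h3 : ∑ a, x a * (if a = b ∧ b = c then (1 : F) else 0) = Matrix.diagonal x b c := by
      rw [Matrix.diagonal_apply]
      by_cases hbc : b = c
      · subst hbc
        rw [if_pos rfl, Finset.sum_eq_single b]
        · rw [if_pos ⟨rfl, rfl⟩, mul_one]
        · intro a _ hab
          rw [if_neg (fun h4 => hab h4.1), mul_zero]
        · intro h4
          exact absurd (Finset.mem_univ b) h4
      · rw [if_neg hbc]
        exact Finset.sum_eq_zero fun a _ => by rw [if_neg (fun h4 => hbc h4.2), mul_zero]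
    have h4 : ∑ a, x a * ∑ r, f1 r a * g1 r b c = 0 := by
      simp only [Finset.mul_sum]
      rw [Finset.sum_comm]
      refine Finset.sum_eq_zero fun r _ => ?_
      have h5 : ∑ a, x a * (f1 r a * g1 r b c) = (∑ a, x a * f1 r a) * g1 r b c := by
        rw [Finset.sum_mul]
        exact Finset.sum_congr rfl fun a _ => by ring
      rw [h5, hx' r, zero_mul]
    have h5 : ∑ a, x a * ∑ r, f2 r b * g2 r a c = ∑ r, f2 r b * (∑ a, x a * g2 r a c) := by
      simp only [Finset.mul_sum]
      rw [Finset.sum_comm]
      exact Finset.sum_congr rfl fun r _ => Finset.sum_congr rfl fun a _ => by ring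
    have h6 : ∑ a, x a * ∑ r, f3 r c * g3 r a b = ∑ r, (∑ a, x a * g3 r a b) * f3 r c := by
      simp only [Finset.mul_sum, Finset.sum_mul]
      rw [Finset.sum_comm]
      exact Finset.sum_congr rfl fun r _ => Finset.sum_congr rfl fun a _ => by ring
    rw [← h3, Finset.sum_congr rfl fun a _ => by rw [h a b c], h2, ← h5, ← h6]
    simp only [mul_add, Finset.sum_add_distrib]
    rw [h4, zero_add]
  have h2 : (Function.support x).ncard ≤ Fintype.card R2 + Fintype.card R3 := by
    have h3 : (Matrix.diagonal x).rank ≤ Fintype.card (R2 ⊕ R3) := by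
      rw [hAB]
      exact (Matrix.rank_mul_le_left A B).trans A.rank_le_card_width
    rw [Matrix.rank_diagonal, Fintype.card_sum, ← Nat.card_eq_fintype_card] at h3
    exact h3
  omega

end Pool.Agent.SXS
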