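import Pool.Agent.SXS.Defs

/-!
# SXS-Sub: a subgroup which acts freely on most vertices (orbit-stabilizer, averaging over the homomorphisms)
-/

set_option autoImplicit false

namespace Pool.Agent.SXS

open Finset

/-- counting for a surjective homomorphism of finite groups -/
private theorem sub_fiber {A G : Type*} [AddCommGroup A] [Fintype A] [AddCommGroup G] [Fintype G] [DecidableEq G]
    (f : A →+ G) (hf : Function.Surjective f) (S : Finset G) :
    (univ.filter fun a => f a ∈ S).card * Fintype.card G = S.card * Fintype.card A := by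
  have h0 : ∀ g : G, (univ.filter fun a => f a = g).card = (univ.filter fun a => f a = 0).card := by
    intro g
    obtain ⟨a0, ha0⟩ := hf g
    refine Finset.card_bij' (fun a _ => a - a0) (fun a _ => a + a0) ?_ ?_ ?_ ?_
    · intro a ha
      rw [mem_filter] at ha ⊢
      exact ⟨mem_univ _, by rw [map_sub, ha.2, ha0, sub_self]⟩
    · intro a ha
      rw [mem_filter] at ha ⊢
      exact ⟨mem_univ _, by rw [map_add, ha.2, ha0, zero_add]⟩
    · intro a _
      exact sub_add_cancel a a0
    · intro a _
      exact add_sub_cancel_right a a0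
  have h1 : (univ.filter fun a => f a ∈ S).card = S.card * (univ.filter fun a => f a = 0).card := by
    have h2 : ∀ a ∈ univ.filter fun a => f a ∈ S, f a ∈ S := fun a ha => (mem_filter.1 ha).2
    rw [Finset.card_eq_sum_card_fiberwise (f := f) (t := S) h2, ← smul_eq_mul, ← Finset.sum_const]
    refine Finset.sum_congr rfl fun g hg => ?_
    rw [← h0 g]
    congr 1
    ext a
    rw [mem_filter, mem_filter, mem_filter]
    constructor
    · rintro ⟨_, h3⟩
      exact ⟨mem_univ _, h3⟩
    · rintro ⟨_, h3⟩
      exact ⟨⟨mem_univ _, by rw [h3]; exact hg⟩, h3⟩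
  have h2 : Fintype.card A = Fintype.card G * (univ.filter fun a => f a = 0).card := by
    have h3 : ∀ a ∈ (univ : Finset A), f a ∈ (univ : Finset G) := fun a _ => mem_univ _
    have h4 := Finset.card_eq_sum_card_fiberwise (f := f) (t := (univ : Finset G)) (s := (univ : Finset A)) h3
    rw [Finset.sum_congr rfl fun g _ => h0 g, Finset.sum_const, smul_eq_mul] at h4
    exact h4
  rw [h1, h2]
  ring

/-- orbit-stabilizer theorem -/
private theorem sub_stab {p k : ℕ} [Fact p.Prime] {V : Type*} [Fintype V] [DecidableEq V]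
    (φ : Multiplicative (E p k) →* Equiv.Perm V) {K : ℕ} (hK : Orb φ K) (v : V) :
    (univ.filter fun g : E p k => φ (Multiplicative.ofAdd g) v = v).card * K ≤ Fintype.card (E p k) := by
  have h0 : ∀ w ∈ univ.image (fun g : E p k => φ (Multiplicative.ofAdd g) v),
      (univ.filter fun g : E p k => φ (Multiplicative.ofAdd g) v = w).card =
      (univ.filter fun g : E p k => φ (Multiplicative.ofAdd g) v = v).card := by
    intro w hw
    obtain ⟨g0, -, hg0⟩ := mem_image.1 hw
    have hm : ∀ a b : E p k, φ (Multiplicative.ofAdd (a + b)) v =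
        φ (Multiplicative.ofAdd a) (φ (Multiplicative.ofAdd b) v) := by
      intro a b
      rw [ofAdd_add, map_mul, Equiv.Perm.mul_apply]
    refine Finset.card_bij' (fun a _ => -g0 + a) (fun a _ => g0 + a) ?_ ?_ ?_ ?_
    · intro a ha
      rw [mem_filter] at ha ⊢
      refine ⟨mem_univ _, ?_⟩
      rw [hm, ha.2, ← hg0, ← hm, neg_add_cancel, ofAdd_zero, map_one, Equiv.Perm.one_apply]
    · intro a ha
      rw [mem_filter] at ha ⊢
      refine ⟨mem_univ _, ?_⟩
      rw [hm, ha.2, hg0]
    · intro a _
      exact add_neg_cancel_left g0 a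
    · intro a _
      exact neg_add_cancel_left g0 a
  have h1 := Finset.card_eq_sum_card_image (fun g : E p k => φ (Multiplicative.ofAdd g) v) univ
  rw [Finset.sum_congr rfl h0, Finset.sum_const, smul_eq_mul] at h1
  have h2 : K ≤ (univ.image (fun g : E p k => φ (Multiplicative.ofAdd g) v)).card := by
    refine (hK v).trans (le_of_eq ?_)
    rw [← Set.ncard_coe_finset]
    congr 1
    ext w
    rw [Finset.mem_coe, mem_image]
    constructor
    · rintro ⟨g, hg⟩
      exact ⟨Multiplicative.toAdd g, mem_univ _, hg⟩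
    · rintro ⟨g, -, hg⟩
      exact ⟨Multiplicative.ofAdd g, hg⟩
  rw [← Finset.card_univ, h1, mul_comm]
  exact Nat.mul_le_mul_right _ h2

/-- the homomorphism of a tuple -/
private def subL {p k d : ℕ} (x : Fin d → E p k) : E p d →+ E p k :=
  AddMonoidHom.mk' (fun c => ∑ j, c j • x j) (by
    intro a b
    rw [← Finset.sum_add_distrib]
    exact Finset.sum_congr rfl fun j _ => by rw [Pi.add_apply, add_smul])

private def subM {p k d : ℕ} (c : E p d) : (Fin d → E p k) →+ E p k :=
  AddMonoidHom.mk' (fun x => ∑ j, c j • x j) (by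
    intro a b
    rw [← Finset.sum_add_distrib]
    exact Finset.sum_congr rfl fun j _ => by rw [Pi.add_apply, smul_add])

private theorem subM_surj {p k d : ℕ} [Fact p.Prime] {c : E p d} (hc : c ≠ 0) :
    Function.Surjective (subM (k := k) c) := by
  obtain ⟨j, hj⟩ : ∃ j, c j ≠ 0 := by
    by_contra hcon
    push_neg at hcon
    exact hc (funext hcon)
  intro g
  refine ⟨Pi.single j ((c j)⁻¹ • g), ?_⟩
  show ∑ i, c i • (Pi.single j ((c j)⁻¹ • g) : Fin d → E p k) i = g
  rw [Finset.sum_eq_single j]
  · rw [Pi.single_eq_same, smul_smul, mul_inv_cancel₀ hj, one_smul]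
  · intro i _ hi
    rw [Pi.single_eq_of_ne hi, smul_zero]
  · intro h
    exact absurd (mem_univ j) h

theorem exists_sub {p k : ℕ} [Fact p.Prime] {V : Type*} [Fintype V] [DecidableEq V]
    (φ : Multiplicative (E p k) →* Equiv.Perm V) {K : ℕ} (hK : Orb φ K) (d : ℕ) :
    ∃ (L : E p d →+ E p k) (B : Finset V),
      (∀ v, v ∉ B ↔ ∀ c : E p d, c ≠ 0 → φ (Multiplicative.ofAdd (L c)) v ≠ v) ∧
      B.card * K ≤ Fintype.card V * p ^ d := by
  classical
  obtain ⟨Bx, hBx⟩ : ∃ Bx : (Fin d → E p k) → Finset V,
      Bx = fun x => univ.filter fun v => ∃ c : E p d, c ≠ 0 ∧ φ (Multiplicative.ofAdd (subL x c)) v = v := ⟨_, rfl⟩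
  have hcE : Fintype.card (E p d) = p ^ d := by
    rw [Fintype.card_fun, ZMod.card, Fintype.card_fin]
  have hEpos : 0 < Fintype.card (E p k) := Fintype.card_pos
  -- for one vertex and one `c`
  have h1 : ∀ (v : V) (c : E p d), c ≠ 0 →
      (univ.filter fun x : Fin d → E p k => φ (Multiplicative.ofAdd (subL x c)) v = v).card * K ≤
        Fintype.card (Fin d → E p k) := by
    intro v c hc
    have h2 := sub_fiber (subM (k := k) c) (subM_surj hc)
      (univ.filter fun g : E p k => φ (Multiplicative.ofAdd g) v = v)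
    have h3 := sub_stab φ hK v
    have h4 : (univ.filter fun x : Fin d → E p k => subM c x ∈
        (univ.filter fun g : E p k => φ (Multiplicative.ofAdd g) v = v)) =
        (univ.filter fun x : Fin d → E p k => φ (Multiplicative.ofAdd (subL x c)) v = v) := by
      ext x
      rw [mem_filter, mem_filter, mem_filter]
      constructor
      · rintro ⟨_, _, h5⟩
        exact ⟨mem_univ _, h5⟩
      · rintro ⟨_, h5⟩
        exact ⟨mem_univ _, mem_univ _, h5⟩
    rw [h4] at h2
    refine Nat.le_of_mul_le_mul_right ?_ hEpos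
    calc (univ.filter fun x : Fin d → E p k => φ (Multiplicative.ofAdd (subL x c)) v = v).card * K *
        Fintype.card (E p k) = (univ.filter fun x : Fin d → E p k => φ (Multiplicative.ofAdd (subL x c)) v = v).card *
        Fintype.card (E p k) * K := by ring
      _ = (univ.filter fun g : E p k => φ (Multiplicative.ofAdd g) v = v).card * K *
        Fintype.card (Fin d → E p k) := by rw [h2]; ring
      _ ≤ Fintype.card (E p k) * Fintype.card (Fin d → E p k) := Nat.mul_le_mul_right _ h3
      _ = _ := by ring
  have h2 : ∀ x, (Bx x).card ≤ ∑ c ∈ univ.filter (fun c : E p d => c ≠ 0),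
      (univ.filter fun v => φ (Multiplicative.ofAdd (subL x c)) v = v).card := by
    intro x
    refine le_trans (Finset.card_le_card ?_) Finset.card_biUnion_le
    intro v hv
    rw [hBx, mem_filter] at hv
    obtain ⟨_, c, hc, h3⟩ := hv
    rw [mem_biUnion]
    exact ⟨c, mem_filter.2 ⟨mem_univ _, hc⟩, mem_filter.2 ⟨mem_univ _, h3⟩⟩
  have h3 : ∑ x, (Bx x).card * K ≤ Fintype.card (Fin d → E p k) * (Fintype.card V * p ^ d) := by
    have h4 : ∀ c : E p d, c ≠ 0 → ∑ x, (univ.filter fun v => φ (Multiplicative.ofAdd (subL x c)) v = v).card * K ≤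
        Fintype.card V * Fintype.card (Fin d → E p k) := by
      intro c hc
      have h5 : ∑ x, (univ.filter fun v => φ (Multiplicative.ofAdd (subL x c)) v = v).card * K =
          ∑ v, (univ.filter fun x : Fin d → E p k => φ (Multiplicative.ofAdd (subL x c)) v = v).card * K := by
        rw [← Finset.sum_mul, ← Finset.sum_mul]
        congr 1
        simp_rw [Finset.card_filter]
        exact Finset.sum_comm
      rw [h5, ← Finset.card_univ (α := V), ← smul_eq_mul, ← Finset.sum_const]
      exact Finset.sum_le_sum fun v _ => h1 v c hc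
    calc ∑ x, (Bx x).card * K ≤ ∑ x, ∑ c ∈ univ.filter (fun c : E p d => c ≠ 0),
        (univ.filter fun v => φ (Multiplicative.ofAdd (subL x c)) v = v).card * K := by
          refine Finset.sum_le_sum fun x _ => ?_
          rw [← Finset.sum_mul]
          exact Nat.mul_le_mul_right _ (h2 x)
      _ = ∑ c ∈ univ.filter (fun c : E p d => c ≠ 0), ∑ x,
        (univ.filter fun v => φ (Multiplicative.ofAdd (subL x c)) v = v).card * K := Finset.sum_comm
      _ ≤ ∑ _c ∈ univ.filter (fun c : E p d => c ≠ 0), Fintype.card V * Fintype.card (Fin d → E p k) :=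
          Finset.sum_le_sum fun c hc => h4 c (mem_filter.1 hc).2
      _ = (univ.filter (fun c : E p d => c ≠ 0)).card * (Fintype.card V * Fintype.card (Fin d → E p k)) := by
          rw [Finset.sum_const, smul_eq_mul]
      _ ≤ p ^ d * (Fintype.card V * Fintype.card (Fin d → E p k)) := by
          refine Nat.mul_le_mul_right _ ?_
          rw [← hcE]
          exact Finset.card_le_univ _
      _ = _ := by ring
  obtain ⟨x, hx⟩ : ∃ x, (Bx x).card * K ≤ Fintype.card V * p ^ d := by
    by_contra hcon
    push_neg at hcon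
    have h4 : ∑ _x : Fin d → E p k, Fintype.card V * p ^ d < ∑ x, (Bx x).card * K :=
      Finset.sum_lt_sum_of_nonempty univ_nonempty fun x _ => hcon x
    rw [Finset.sum_const, smul_eq_mul, Finset.card_univ] at h4
    exact absurd h3 (not_le.2 h4)
  refine ⟨subL x, Bx x, fun v => ?_, hx⟩
  rw [hBx, mem_filter]
  constructor
  · intro h c hc h4
    exact h ⟨mem_univ _, c, hc, h4⟩
  · rintro h ⟨_, c, hc, h4⟩
    exact h c hc h4

end Pool.Agent.SXS
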